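import Pool.Agent.Helper10.TI.Core3

set_option autoImplicit false

/-!
# MP_63c74b: the instability theorem
-/

open MvPolynomial Pool.Agent.Helper68.QM Filter Topology

namespace Pool.Agent.Helper10.TI

/-- the quadratic module `{F : f F ∈ M_g}` -/
theorem qmod (g f : A) (hf : InM g f) : QMod (fun F => InM g (f * F)) where
  one := by rw [mul_one]; exact hf
  add := fun {a b} ha hb => by rw [mul_add]; exact ha.add hb
  sq := fun a {b} hb => by
    have h : f * (a ^ 2 * b) = a ^ 2 * (f * b) := by ring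
    rw [h]
    exact (InM.sq a).mul hb

/-- the data of `S` and `T` -/
theorem exists_dat (S : P2) (T : P1) (hS : 0 < S.natDegree) (hT : T ≠ 0)
    (hdeg : T.natDegree ≤ S.leadingCoeff.natDegree) : ∃ D : Dat, D.S = S ∧ D.T = T := by
  refine ⟨⟨S, T, (Finset.range S.natDegree).sup fun i => (S.coeff i).natDegree, hS, hT, hdeg,
    fun i hi => ?_⟩, rfl, rfl⟩
  have h1 := Finset.le_sup (f := fun i => (S.coeff i).natDegree) (Finset.mem_range.2 hi)
  have h2 : 1 ≤ S.natDegree - i := by omega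
  have h3 := Nat.mul_le_mul_left ((Finset.range S.natDegree).sup fun i => (S.coeff i).natDegree) h2
  simp only [mul_one] at h3
  omega

/-- **Theorem A.** -/
theorem not_stable_of_tentacle (g f : A) (S : P2) (T : P1) (c : ℝ) (r0 : ℕ) (t : Tent) (a b : ℝ)
    (h : ℝ → ℝ) (hf0 : f ≠ 0) (hf : InM g f) (hSd : 0 < S.natDegree) (hT0 : T ≠ 0)
    (hdeg : T.natDegree ≤ S.leadingCoeff.natDegree) (hL : S.leadingCoeff ∣ T ^ r0)
    (hT : InM g (f * (ax T ^ 2 - 1))) (hS : InM g (f * (C c * ax T ^ 2 - Φ S ^ 2))) (hab : a < b)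
    (hconv : ∀ σ, a < σ → σ < b →
      Tendsto (fun v => eval (t.pt v σ) (Φ S) / T.eval (v ^ t.e)) atTop (𝓝 (h σ)))
    (hnc : ∃ σ σ', (a < σ ∧ σ < b) ∧ (a < σ' ∧ σ' < b) ∧ h σ ≠ h σ')
    (hg : ∀ σ, a < σ → σ < b → ∀ᶠ v in atTop, 0 < eval (t.pt v σ) g) : ¬ Stable g := by
  obtain ⟨D, rfl, rfl⟩ := exists_dat S T hSd hT0 hdeg
  have hM := qmod g f hf
  have hc1 : (0 : ℝ) < max c 1 := lt_of_lt_of_le one_pos (le_max_right _ _)
  have hS' : InM g (f * (C (max c 1) * ax D.T ^ 2 - Φ D.S ^ 2)) := by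
    have h1 := hM.add hS (hM.smul (show 0 ≤ max c 1 - c by linarith [le_max_left c 1])
      (hM.sq (ax D.T) hM.one))
    have h2 : f * (C (max c 1) * ax D.T ^ 2 - Φ D.S ^ 2) =
        f * (C c * ax D.T ^ 2 - Φ D.S ^ 2 + C (max c 1 - c) * (ax D.T ^ 2 * 1)) := by
      rw [C_sub]; ring
    rw [h2]
    exact h1
  obtain ⟨K0, hK0⟩ := D.base_growth hM hT hc1.le hS' hL
  set r := D.kk r0 + K0 + 2 * (D.lam * D.p) + 6 * D.T.natDegree + 5 with hr
  have h2r : D.T.natDegree + 2 + D.lam * D.p ≤ 2 * r := by omega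
  let X : Ctx (fun F => InM g (f * F)) D :=
    { hM := hM
      hT := hT
      c0 := max c 1
      hc0 := hc1
      hS := hS'
      r0 := r0
      hL := hL
      K0 := K0
      hK0 := hK0
      r := r
      k := 2 * r - (D.T.natDegree + 2 + D.lam * D.p)
      hr := by omega
      hk := by omega
      hK := by omega }
  refine core g f D X ?_ hf hf0 t a b hab h hconv hnc hg
  change K0 + (2 * r + 4 * D.T.natDegree) < 2 * (2 * r - (D.T.natDegree + 2 + D.lam * D.p))
  omega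

end Pool.Agent.Helper10.TI
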