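import Pool.Agent.Helper10.TI.Growth

set_option autoImplicit false

/-!
# MP_63c74b: formal growth, expansions in powers of a rational function
-/

open Pool.Agent.Helper68.QM

namespace Pool.Agent.Helper10.TI

/-- `ℝ[x]` -/
abbrev P1 : Type := Polynomial ℝ
/-- `ℝ[x][y]` -/
abbrev P2 : Type := Polynomial P1
/-- `ℝ(x)` -/
abbrev Kx : Type := RatFunc ℝ
/-- `ℝ(x)[y]` -/
abbrev Q2 : Type := Polynomial Kx

/-- the inclusion of `ℝ[x]` in `ℝ(x)` -/
noncomputable abbrev ix : P1 →+* Kx := algebraMap P1 Kx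

/-- the inclusion of `ℝ[x][y]` in `ℝ(x)[y]` -/
noncomputable abbrev ι : P2 →+* Q2 := Polynomial.mapRingHom ix

/-- degree at most `d` -/
def Dle (φ : Kx) (d : ℤ) : Prop := φ = 0 ∨ φ.intDegree ≤ d

theorem Dle.zero (d : ℤ) : Dle 0 d := Or.inl rfl

theorem Dle.mono {φ : Kx} {d e : ℤ} (h : Dle φ d) (hde : d ≤ e) : Dle φ e :=
  h.imp id fun h => h.trans hde

theorem Dle.add {φ ψ : Kx} {d : ℤ} (h1 : Dle φ d) (h2 : Dle ψ d) : Dle (φ + ψ) d := by
  rcases h1 with rfl | h1
  · rwa [zero_add]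
  rcases h2 with rfl | h2
  · rw [add_zero]; exact Or.inr h1
  by_cases h0 : φ + ψ = 0
  · exact Or.inl h0
  by_cases hψ : ψ = 0
  · rw [hψ, add_zero]; exact Or.inr h1
  exact Or.inr ((RatFunc.intDegree_add_le hψ h0).trans (max_le h1 h2))

theorem Dle.neg {φ : Kx} {d : ℤ} (h1 : Dle φ d) : Dle (-φ) d := by
  rcases h1 with rfl | h1
  · rw [neg_zero]; exact Or.inl rfl
  · exact Or.inr (by rwa [RatFunc.intDegree_neg])

theorem Dle.mul {φ ψ : Kx} {d e : ℤ} (h1 : Dle φ d) (h2 : Dle ψ e) : Dle (φ * ψ) (d + e) := by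
  by_cases hφ : φ = 0
  · rw [hφ, zero_mul]; exact Or.inl rfl
  by_cases hψ : ψ = 0
  · rw [hψ, mul_zero]; exact Or.inl rfl
  rcases h1 with h1 | h1
  · exact absurd h1 hφ
  rcases h2 with h2 | h2
  · exact absurd h2 hψ
  exact Or.inr (by rw [RatFunc.intDegree_mul hφ hψ]; omega)

theorem Dle.poly (q : P1) {d : ℕ} (h : q.natDegree ≤ d) : Dle (ix q) d :=
  Or.inr (by rw [RatFunc.intDegree_polynomial]; exact_mod_cast h)

theorem Dle.pow {φ : Kx} {d : ℤ} (h : Dle φ d) (n : ℕ) : Dle (φ ^ n) (n * d) := by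
  induction n with
  | zero =>
    rw [pow_zero]
    refine Or.inr ?_
    simp
  | succ n ih =>
    rw [pow_succ]
    refine (ih.mul h).mono ?_
    push_cast
    linarith

theorem ix_inj : Function.Injective ix := RatFunc.algebraMap_injective ℝ

theorem ix_ne {q : P1} (hq : q ≠ 0) : ix q ≠ 0 := by
  rw [Ne, map_eq_zero_iff ix ix_inj]
  exact hq

theorem Dle.inv {q : P1} (_hq : q ≠ 0) : Dle (ix q)⁻¹ (-(q.natDegree : ℤ)) :=
  Or.inr (by rw [RatFunc.intDegree_inv, RatFunc.intDegree_polynomial])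

/-- polynomial part -/
theorem exists_part (φ : Kx) : ∃ q : P1, Dle (φ - ix q) (-1) := by
  refine ⟨φ.num / φ.denom, ?_⟩
  have hd : φ.denom ≠ 0 := φ.denom_ne_zero
  have h1 : φ = ix φ.num / ix φ.denom := (RatFunc.num_div_denom φ).symm
  have h2 : φ - ix (φ.num / φ.denom) = ix (φ.num % φ.denom) / ix φ.denom := by
    have h3 : ix φ.num = ix (φ.denom) * ix (φ.num / φ.denom) + ix (φ.num % φ.denom) := by
      rw [← map_mul, ← map_add, EuclideanDomain.div_add_mod]
    have h4 := ix_ne hd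
    have h5 : φ * ix φ.denom = ix φ.num := (eq_div_iff h4).1 h1
    rw [eq_div_iff h4]
    linear_combination h5 + h3
  by_cases h0 : φ.num % φ.denom = 0
  · left
    rw [h2, h0, map_zero, zero_div]
  · right
    rw [h2, RatFunc.intDegree_div (ix_ne h0) (ix_ne hd), RatFunc.intDegree_polynomial,
      RatFunc.intDegree_polynomial]
    have h5 : (φ.num % φ.denom).degree < φ.denom.degree := EuclideanDomain.mod_lt _ hd
    have h6 := Polynomial.natDegree_lt_natDegree h0 h5
    omega

/-- the data: `S ∈ ℝ[x][y]`, `T ∈ ℝ[x]`, and a bound `lam` for the growth exponent of `y` -/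
structure Dat where
  /-- the numerator -/
  S : P2
  /-- the denominator -/
  T : P1
  /-- the formal growth exponent of `y` -/
  lam : ℕ
  hp : 0 < S.natDegree
  hT : T ≠ 0
  hdeg : T.natDegree ≤ S.leadingCoeff.natDegree
  hlam : ∀ i < S.natDegree,
    (S.coeff i).natDegree ≤ lam * (S.natDegree - i) + S.leadingCoeff.natDegree

namespace Dat

variable (D : Dat)

/-- degree in `y` of `S` -/
noncomputable def p : ℕ := D.S.natDegree

/-- leading coefficient -/
noncomputable def L : P1 := D.S.leadingCoeff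

theorem p_pos : 0 < D.p := D.hp

theorem S_ne : D.S ≠ 0 := by
  intro h
  have := D.hp
  rw [h] at this
  simp at this

theorem L_ne : D.L ≠ 0 := Polynomial.leadingCoeff_ne_zero.2 D.S_ne

/-- the rational function `S / T` -/
noncomputable def s : Q2 := ι D.S * Polynomial.C (ix D.T)⁻¹

/-- the basis `s ^ n y ^ i`, `j = n p + i` -/
noncomputable def bb (j : ℕ) : Q2 := D.s ^ (j / D.p) * Polynomial.X ^ (j % D.p)

theorem ιS : ι D.S = Polynomial.C (ix D.T) * D.s := by
  rw [s]
  have h := ix_ne D.hT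
  have h2 : (Polynomial.C (ix D.T) : Q2) * Polynomial.C (ix D.T)⁻¹ = 1 := by
    rw [← Polynomial.C_mul, mul_inv_cancel₀ h, Polynomial.C_1]
  linear_combination (-(ι D.S)) * h2

theorem natDegree_ι (E : P2) : (ι E).natDegree = E.natDegree := by
  change (E.map ix).natDegree = _
  exact Polynomial.natDegree_map_eq_of_injective ix_inj E

theorem s_natDegree : D.s.natDegree = D.p := by
  rw [s, Polynomial.natDegree_mul_C (inv_ne_zero (ix_ne D.hT)), natDegree_ι]
  rfl

theorem s_coeff : D.s.coeff D.p = ix D.L * (ix D.T)⁻¹ := by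
  rw [s, Polynomial.coeff_mul_C]
  change (D.S.map ix).coeff _ * _ = _
  rw [Polynomial.coeff_map]
  rfl

theorem s_ne : D.s ≠ 0 := by
  intro h
  have := D.s_natDegree
  rw [h, Polynomial.natDegree_zero] at this
  have := D.p_pos
  omega

theorem bb_natDegree (j : ℕ) : (D.bb j).natDegree = j := by
  rw [bb, Polynomial.natDegree_mul (pow_ne_zero _ D.s_ne) (pow_ne_zero _ Polynomial.X_ne_zero),
    Polynomial.natDegree_pow, Polynomial.natDegree_pow, Polynomial.natDegree_X, s_natDegree,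
    mul_one, mul_comm]
  exact Nat.div_add_mod j D.p

theorem s_lead : D.s.leadingCoeff = ix D.L * (ix D.T)⁻¹ := by
  rw [Polynomial.leadingCoeff, s_natDegree, s_coeff]

theorem bb_coeff (j : ℕ) : (D.bb j).coeff j = (ix D.L * (ix D.T)⁻¹) ^ (j / D.p) := by
  have h : (D.bb j).leadingCoeff = (ix D.L * (ix D.T)⁻¹) ^ (j / D.p) := by
    rw [bb, Polynomial.leadingCoeff_mul, Polynomial.leadingCoeff_pow, s_lead,
      Polynomial.leadingCoeff_pow, Polynomial.leadingCoeff_X, one_pow, mul_one]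
  rw [← h, Polynomial.leadingCoeff, bb_natDegree]

theorem ratio_ne : ix D.L * (ix D.T)⁻¹ ≠ 0 := mul_ne_zero (ix_ne D.L_ne) (inv_ne_zero (ix_ne D.hT))

theorem s_bb (j : ℕ) : D.s * D.bb j = D.bb (j + D.p) := by
  rw [bb, bb, Nat.add_div_right _ D.p_pos, Nat.add_mod_right, pow_succ']
  ring

/-- expansion of length `N` with coefficients of degree `≤ r - lam i` -/
def FF (N : ℕ) (r : ℤ) (G : Q2) : Prop :=
  ∃ c : ℕ → Kx, G = ∑ j ∈ Finset.range N, Polynomial.C (c j) * D.bb j ∧
    ∀ j < N, Dle (c j) (r - D.lam * (j % D.p : ℕ))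

variable {D}

theorem FF.zero (N : ℕ) (r : ℤ) : D.FF N r 0 :=
  ⟨fun _ => 0, by simp, fun _ _ => Dle.zero _⟩

theorem FF.add {N : ℕ} {r : ℤ} {G H : Q2} (h1 : D.FF N r G) (h2 : D.FF N r H) :
    D.FF N r (G + H) := by
  obtain ⟨c, rfl, hc⟩ := h1
  obtain ⟨d, rfl, hd⟩ := h2
  refine ⟨fun j => c j + d j, ?_, fun j hj => (hc j hj).add (hd j hj)⟩
  rw [← Finset.sum_add_distrib]
  exact Finset.sum_congr rfl fun j _ => by rw [Polynomial.C_add, add_mul]

theorem FF.neg {N : ℕ} {r : ℤ} {G : Q2} (h1 : D.FF N r G) : D.FF N r (-G) := by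
  obtain ⟨c, rfl, hc⟩ := h1
  refine ⟨fun j => - c j, ?_, fun j hj => (hc j hj).neg⟩
  rw [← Finset.sum_neg_distrib]
  exact Finset.sum_congr rfl fun j _ => by rw [Polynomial.C_neg, neg_mul]

theorem FF.sub {N : ℕ} {r : ℤ} {G H : Q2} (h1 : D.FF N r G) (h2 : D.FF N r H) :
    D.FF N r (G - H) := by
  rw [sub_eq_add_neg]
  exact h1.add h2.neg

theorem FF.sum {N : ℕ} {r : ℤ} {α : Type} (t : Finset α) (f : α → Q2)
    (h : ∀ i ∈ t, D.FF N r (f i)) : D.FF N r (∑ i ∈ t, f i) := by
  classical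
  induction t using Finset.induction_on with
  | empty => rw [Finset.sum_empty]; exact FF.zero N r
  | insert a t ha ih =>
    rw [Finset.sum_insert ha]
    exact (h a (Finset.mem_insert_self _ _)).add
      (ih fun i hi => h i (Finset.mem_insert_of_mem hi))

theorem FF.gen {N : ℕ} {r : ℤ} {j : ℕ} (hj : j < N) {φ : Kx}
    (hφ : Dle φ (r - D.lam * (j % D.p : ℕ))) : D.FF N r (Polynomial.C φ * D.bb j) := by
  refine ⟨fun k => if k = j then φ else 0, ?_, fun k _ => ?_⟩
  · rw [Finset.sum_eq_single j]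
    · dsimp only
      rw [if_pos rfl]
    · intro k _ hk
      dsimp only
      rw [if_neg hk, Polynomial.C_0, zero_mul]
    · intro h
      exact absurd (Finset.mem_range.2 hj) h
  · dsimp only
    split_ifs with h
    · rw [h]; exact hφ
    · exact Dle.zero _

theorem FF.mono {N N' : ℕ} {r r' : ℤ} (hN : N ≤ N') (hr : r ≤ r') {G : Q2} (h : D.FF N r G) :
    D.FF N' r' G := by
  obtain ⟨c, rfl, hc⟩ := h
  refine FF.sum _ _ fun j hj => FF.gen (lt_of_lt_of_le (Finset.mem_range.1 hj) hN) ?_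
  exact (hc j (Finset.mem_range.1 hj)).mono (by linarith)

theorem FF.mulC {N : ℕ} {r d : ℤ} {G : Q2} (h : D.FF N r G) {φ : Kx} (hφ : Dle φ d) :
    D.FF N (r + d) (Polynomial.C φ * G) := by
  obtain ⟨c, rfl, hc⟩ := h
  rw [Finset.mul_sum]
  refine FF.sum _ _ fun j hj => ?_
  rw [← mul_assoc, ← Polynomial.C_mul]
  refine FF.gen (Finset.mem_range.1 hj) ?_
  refine (hφ.mul (hc j (Finset.mem_range.1 hj))).mono (by linarith)

theorem FF.mul_s {N : ℕ} {r : ℤ} {G : Q2} (h : D.FF N r G) : D.FF (N + D.p) r (D.s * G) := by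
  obtain ⟨c, rfl, hc⟩ := h
  rw [Finset.mul_sum]
  refine FF.sum _ _ fun j hj => ?_
  rw [mul_left_comm, s_bb]
  refine FF.gen (by rw [Finset.mem_range] at hj; omega) ?_
  rw [Nat.add_mod_right]
  exact hc j (Finset.mem_range.1 hj)

theorem FF.coeff_eq {m : ℕ} {G : Q2} {c : ℕ → Kx}
    (hG : G = ∑ j ∈ Finset.range (m + 1), Polynomial.C (c j) * D.bb j) :
    G.coeff m = c m * (ix D.L * (ix D.T)⁻¹) ^ (m / D.p) := by
  rw [hG, Finset.sum_range_succ, Polynomial.coeff_add, Polynomial.coeff_C_mul, bb_coeff,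
    Polynomial.finsetSum_coeff, Finset.sum_eq_zero, zero_add]
  intro j hj
  rw [Finset.mem_range] at hj
  rw [Polynomial.coeff_C_mul, Polynomial.coeff_eq_zero_of_natDegree_lt, mul_zero]
  rw [bb_natDegree]
  exact hj

theorem FF.drop {m : ℕ} {r : ℤ} {G : Q2} (h : D.FF (m + 1) r G) (h0 : G.coeff m = 0) :
    D.FF m r G := by
  obtain ⟨c, hG, hc⟩ := h
  have h1 := FF.coeff_eq hG
  rw [h0] at h1
  have h2 : c m = 0 := by
    rcases mul_eq_zero.1 h1.symm with h | h
    · exact h
    · exact absurd h (pow_ne_zero _ D.ratio_ne)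
  refine ⟨c, ?_, fun j hj => hc j (by omega)⟩
  rw [hG, Finset.sum_range_succ, h2, Polynomial.C_0, zero_mul, add_zero]

/-! ### multiplication -/

theorem X_pow_p : (Polynomial.X : Q2) ^ D.p = Polynomial.C (ix D.T * (ix D.L)⁻¹) * D.s -
    ∑ i ∈ Finset.range D.p, Polynomial.C (ix (D.S.coeff i) * (ix D.L)⁻¹) * Polynomial.X ^ i := by
  have h1 : ι D.S = ∑ i ∈ Finset.range (D.p + 1), Polynomial.C (ix (D.S.coeff i)) *
      (Polynomial.X : Q2) ^ i := by
    have h2 := (ι D.S).as_sum_range_C_mul_X_pow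
    rw [natDegree_ι] at h2
    refine h2.trans (Finset.sum_congr rfl fun i _ => ?_)
    congr 2
    exact Polynomial.coeff_map _ _
  rw [Finset.sum_range_succ, ιS] at h1
  have h3 : (Polynomial.C (ix D.L) : Q2) * Polynomial.C (ix D.L)⁻¹ = 1 := by
    rw [← Polynomial.C_mul, mul_inv_cancel₀ (ix_ne D.L_ne), Polynomial.C_1]
  have h4 : ix (D.S.coeff D.p) = ix D.L := rfl
  rw [h4] at h1
  have h5 : ∑ i ∈ Finset.range D.p, Polynomial.C (ix (D.S.coeff i) * (ix D.L)⁻¹) *
      (Polynomial.X : Q2) ^ i = Polynomial.C (ix D.L)⁻¹ *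
      ∑ i ∈ Finset.range D.p, Polynomial.C (ix (D.S.coeff i)) * (Polynomial.X : Q2) ^ i := by
    rw [Finset.mul_sum]
    refine Finset.sum_congr rfl fun i _ => ?_
    rw [Polynomial.C_mul]
    ring
  rw [h5, Polynomial.C_mul]
  linear_combination (-(Polynomial.X : Q2) ^ D.p) * h3 - Polynomial.C (ix D.L)⁻¹ * h1

theorem FF.mul_X {N : ℕ} {r : ℤ} {G : Q2} (h : D.FF N r G) :
    D.FF (N + 1) (r + D.lam) (Polynomial.X * G) := by
  obtain ⟨c, rfl, hc⟩ := h
  rw [Finset.mul_sum]
  refine FF.sum _ _ fun j hj => ?_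
  rw [Finset.mem_range] at hj
  have hcj := hc j hj
  have hp := D.p_pos
  by_cases hj' : j % D.p + 1 < D.p
  · have h1 : (j + 1) % D.p = j % D.p + 1 := by
      rw [Nat.add_mod, Nat.mod_eq_of_lt (show 1 < D.p by omega)]
      exact Nat.mod_eq_of_lt hj'
    have h2 : (j + 1) / D.p = j / D.p := by
      have := Nat.div_add_mod (j + 1) D.p
      have h4 := Nat.div_add_mod j D.p
      rw [h1] at this
      have h5 : D.p * ((j + 1) / D.p) = D.p * (j / D.p) := by omega
      exact Nat.eq_of_mul_eq_mul_left hp h5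
    have h3 : Polynomial.X * (Polynomial.C (c j) * D.bb j) = Polynomial.C (c j) * D.bb (j + 1) := by
      rw [bb, bb, h1, h2, pow_succ]
      ring
    rw [h3]
    refine FF.gen (by omega) (hcj.mono ?_)
    rw [h1]
    push_cast
    nlinarith
  · have h0 : j % D.p < D.p := Nat.mod_lt _ hp
    have h1 : j % D.p + 1 = D.p := by omega
    have h2 : j + 1 = D.p * (j / D.p + 1) := by
      have h4 := Nat.div_add_mod j D.p
      rw [mul_add, mul_one]
      omega
    have h3 : D.bb (j + 1) = D.s ^ (j / D.p + 1) := by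
      rw [bb, h2, Nat.mul_div_cancel_left _ hp, Nat.mul_mod_right, pow_zero, mul_one]
    have h4 : ∀ i < D.p, D.bb (D.p * (j / D.p) + i) = D.s ^ (j / D.p) * Polynomial.X ^ i := by
      intro i hi
      rw [bb, Nat.mul_add_div hp, Nat.div_eq_of_lt hi, add_zero, Nat.mul_add_mod,
        Nat.mod_eq_of_lt hi]
    have h5 : Polynomial.X * (Polynomial.C (c j) * D.bb j) =
        Polynomial.C (ix D.T * (ix D.L)⁻¹ * c j) * D.bb (j + 1) -
        ∑ i ∈ Finset.range D.p, Polynomial.C (ix (D.S.coeff i) * (ix D.L)⁻¹ * c j) *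
          D.bb (D.p * (j / D.p) + i) := by
      have h6 : ∑ i ∈ Finset.range D.p, Polynomial.C (ix (D.S.coeff i) * (ix D.L)⁻¹ * c j) *
          D.bb (D.p * (j / D.p) + i) = Polynomial.C (c j) * D.s ^ (j / D.p) *
          ∑ i ∈ Finset.range D.p, Polynomial.C (ix (D.S.coeff i) * (ix D.L)⁻¹) *
            Polynomial.X ^ i := by
        rw [Finset.mul_sum]
        refine Finset.sum_congr rfl fun i hi => ?_
        rw [h4 i (Finset.mem_range.1 hi), Polynomial.C_mul (b := c j)]
        ring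
      have h7 : (Polynomial.X : Q2) * (Polynomial.C (c j) * D.bb j) =
          Polynomial.C (c j) * D.s ^ (j / D.p) * Polynomial.X ^ D.p := by
        have h8 : (Polynomial.X : Q2) ^ D.p = Polynomial.X ^ (j % D.p) * Polynomial.X := by
          rw [← pow_succ, h1]
        rw [bb, h8]
        ring
      rw [h6, h7, h3, X_pow_p, Polynomial.C_mul (b := c j)]
      ring
    rw [h5]
    refine FF.sub (FF.gen (by omega) ?_) (FF.sum _ _ fun i hi => FF.gen ?_ ?_)
    · have e1 : Dle (ix D.T * (ix D.L)⁻¹) 0 := by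
        refine ((Dle.poly D.T le_rfl).mul (Dle.inv D.L_ne)).mono ?_
        have := D.hdeg
        change ((D.T.natDegree : ℤ)) + -(D.S.leadingCoeff.natDegree : ℤ) ≤ 0
        omega
      refine (e1.mul hcj).mono ?_
      rw [h2, Nat.mul_mod_right]
      push_cast
      nlinarith [mul_nonneg (Nat.cast_nonneg D.lam : (0 : ℤ) ≤ D.lam) (Nat.cast_nonneg (j % D.p) : (0 : ℤ) ≤ (j % D.p : ℕ)), (Nat.cast_nonneg D.lam : (0 : ℤ) ≤ D.lam)]
    · rw [Finset.mem_range] at hi
      have h4 := Nat.div_add_mod j D.p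
      omega
    · rw [Finset.mem_range] at hi
      have e1 : Dle (ix (D.S.coeff i) * (ix D.L)⁻¹) (D.lam * (D.p - i : ℕ)) := by
        refine ((Dle.poly (D.S.coeff i) (D.hlam i hi)).mul (Dle.inv D.L_ne)).mono ?_
        change ((_ : ℕ) : ℤ) + -(D.S.leadingCoeff.natDegree : ℤ) ≤ _
        push_cast
        change _ ≤ (D.lam : ℤ) * ((D.S.natDegree - i : ℕ) : ℤ)
        linarith
      refine (e1.mul hcj).mono ?_
      rw [Nat.mul_add_mod, Nat.mod_eq_of_lt hi]
      have e2 : ((j % D.p : ℕ) : ℤ) = D.p - 1 := by omega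
      have e3 : ((D.p - i : ℕ) : ℤ) = D.p - i := by omega
      rw [e2, e3]
      nlinarith

theorem FF.mul_bb {N : ℕ} {r : ℤ} {G : Q2} (h : D.FF N r G) (j : ℕ) :
    D.FF (N + j) (r + D.lam * (j % D.p : ℕ)) (D.bb j * G) := by
  have h1 : ∀ i : ℕ, D.FF (N + i) (r + D.lam * (i : ℕ)) (Polynomial.X ^ i * G) := by
    intro i
    induction i with
    | zero => simpa using h
    | succ i ih =>
      have h2 := ih.mul_X
      rw [← mul_assoc, ← pow_succ'] at h2
      refine h2.mono (by omega) ?_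
      push_cast
      linarith
  have h2 : ∀ n i : ℕ, D.FF (N + i + n * D.p) (r + D.lam * (i : ℕ))
      (D.s ^ n * (Polynomial.X ^ i * G)) := by
    intro n i
    induction n with
    | zero => simpa using h1 i
    | succ n ih =>
      have h3 := ih.mul_s
      rw [← mul_assoc, ← pow_succ'] at h3
      refine h3.mono ?_ le_rfl
      rw [add_mul, one_mul]
      omega
  have h3 := h2 (j / D.p) (j % D.p)
  rw [← mul_assoc] at h3
  refine h3.mono ?_ le_rfl
  have h4 := Nat.div_add_mod j D.p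
  rw [mul_comm (j / D.p)]
  omega

theorem FF.mul {N N' : ℕ} {r r' : ℤ} {G G' : Q2} (h : D.FF N r G) (h' : D.FF N' r' G') :
    D.FF (N + N') (r + r') (G * G') := by
  obtain ⟨c, rfl, hc⟩ := h'
  rw [Finset.mul_sum]
  refine FF.sum _ _ fun j hj => ?_
  rw [Finset.mem_range] at hj
  have h1 := (h.mul_bb j).mulC (hc j hj)
  have h2 : G * (Polynomial.C (c j) * D.bb j) = Polynomial.C (c j) * (D.bb j * G) := by ring
  rw [h2]
  exact h1.mono (by omega) (by linarith)

/-- **Lifting lemma.** Elements of `ℝ(x)[y]` are approximated by polynomials. -/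
theorem exists_lift (N : ℕ) (G : Q2) (hG : ∀ j, N ≤ j → G.coeff j = 0) : ∃ E : P2,
    (∀ j, N ≤ j → E.coeff j = 0) ∧
    ∃ c : ℕ → Kx, G - ι E = ∑ j ∈ Finset.range N, Polynomial.C (c j) * D.bb j ∧
      ∀ j < N, Dle (c j) (-1) := by
  induction N generalizing G with
  | zero =>
    refine ⟨0, fun _ _ => Polynomial.coeff_zero _, fun _ => 0, ?_, fun j hj => by omega⟩
    have h1 : G = 0 := by
      ext j
      rw [hG j (by omega), Polynomial.coeff_zero]
    rw [h1]
    simp
  | succ N ih =>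
    obtain ⟨q, hq⟩ := exists_part (G.coeff N)
    set ρ : Kx := (ix D.L * (ix D.T)⁻¹) ^ (N / D.p) with hρ
    have hρ0 : ρ ≠ 0 := pow_ne_zero _ D.ratio_ne
    set d : Kx := (G.coeff N - ix q) * ρ⁻¹ with hd
    have hdd : Dle d (-1) := by
      have e1 : Dle ρ⁻¹ 0 := by
        have e2 : ρ⁻¹ = (ix D.T * (ix D.L)⁻¹) ^ (N / D.p) := by
          rw [hρ, ← inv_pow, mul_inv, inv_inv, mul_comm]
        rw [e2]
        have e3 : Dle (ix D.T * (ix D.L)⁻¹) 0 := by
          refine ((Dle.poly D.T le_rfl).mul (Dle.inv D.L_ne)).mono ?_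
          have := D.hdeg
          change ((D.T.natDegree : ℤ)) + -(D.S.leadingCoeff.natDegree : ℤ) ≤ 0
          omega
        have := e3.pow (N / D.p)
        rwa [mul_zero] at this
      have := hq.mul e1
      rwa [add_zero] at this
    obtain ⟨E, hE, c, hc, hcd⟩ := ih (G - ι (Polynomial.C q * Polynomial.X ^ N) -
      Polynomial.C d * D.bb N) (fun j hj => by
        rw [Polynomial.coeff_sub, Polynomial.coeff_sub]
        have e1 : (ι (Polynomial.C q * Polynomial.X ^ N)).coeff j = if j = N then ix q else 0 := by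
          change ((Polynomial.C q * Polynomial.X ^ N : P2).map ix).coeff j = _
          rw [Polynomial.coeff_map, Polynomial.coeff_C_mul, Polynomial.coeff_X_pow]
          split_ifs with h
          · rw [mul_one]
          · rw [mul_zero, map_zero]
        rw [e1, Polynomial.coeff_C_mul]
        rcases eq_or_lt_of_le hj with h | h
        · subst h
          rw [if_pos rfl, bb_coeff, ← hρ, hd, mul_assoc, inv_mul_cancel₀ hρ0, mul_one, sub_self]
        · rw [if_neg (by omega), hG j (by omega), Polynomial.coeff_eq_zero_of_natDegree_lt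
            (p := D.bb N) (by rw [bb_natDegree]; exact h), mul_zero]
          simp)
    refine ⟨E + Polynomial.C q * Polynomial.X ^ N, fun j hj => ?_,
      fun j => if j = N then d else c j, ?_, fun j hj => ?_⟩
    · rw [Polynomial.coeff_add, hE j (by omega), Polynomial.coeff_C_mul, Polynomial.coeff_X_pow,
        if_neg (by omega), mul_zero, add_zero]
    · rw [Finset.sum_range_succ]
      dsimp only
      rw [if_pos rfl]
      have e1 : ∑ j ∈ Finset.range N, Polynomial.C (if j = N then d else c j) * D.bb j =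
          ∑ j ∈ Finset.range N, Polynomial.C (c j) * D.bb j := by
        refine Finset.sum_congr rfl fun j hj => ?_
        rw [Finset.mem_range] at hj
        rw [if_neg (by omega)]
      rw [e1, ← hc, map_add]
      ring
    · dsimp only
      split_ifs with h
      · exact hdd
      · exact hcd j (by omega)

end Dat

end Pool.Agent.Helper10.TI
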