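import Pool.Agent.Helper68.QM.Main

set_option autoImplicit false

/-!
# MP_63c74b: quadratic modules, growth bounds with certificates
-/

open MvPolynomial Pool.Agent.Helper68.QM

namespace Pool.Agent.Helper10.TI

/-- `M` is a quadratic module of `ℝ[x, y]` -/
structure QMod (M : A → Prop) : Prop where
  one : M 1
  add : ∀ {a b : A}, M a → M b → M (a + b)
  sq : ∀ (a : A) {b : A}, M b → M (a ^ 2 * b)

variable {M : A → Prop}

theorem QMod.zero (hM : QMod M) : M 0 := by
  have h := hM.sq 0 hM.one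
  simpa using h

theorem QMod.ss (hM : QMod M) {s : A} (hs : IsSumSq s) : M s := by
  induction hs with
  | zero => exact hM.zero
  | sq_add a _ ih =>
    have h := hM.sq a hM.one
    rw [mul_one, pow_two] at h
    exact hM.add h ih

theorem QMod.smul (hM : QMod M) {r : ℝ} (hr : 0 ≤ r) {a : A} (ha : M a) : M (C r * a) := by
  have h1 : (C r : A) = C (Real.sqrt r) ^ 2 := by
    rw [← C_pow, Real.sq_sqrt hr]
  rw [h1]
  exact hM.sq _ ha

theorem QMod.cancel (hM : QMod M) {r : ℝ} (hr : 0 < r) {a : A} (ha : M (C r * a)) : M a := by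
  have h1 : a = C (1 / r) * (C r * a) := by
    rw [← mul_assoc, ← C_mul, one_div, inv_mul_cancel₀ hr.ne', C_1, one_mul]
  rw [h1]
  exact hM.smul (by positivity) ha

theorem QMod.ssmul (hM : QMod M) {s : A} (hs : IsSumSq s) {a : A} (ha : M a) : M (s * a) := by
  induction hs with
  | zero => rw [zero_mul]; exact hM.zero
  | sq_add b _ ih =>
    rw [add_mul]
    refine hM.add ?_ ih
    have h := hM.sq b ha
    rwa [pow_two] at h

/-- a univariate polynomial which is positive everywhere is a sum of squares -/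
theorem pos_sos (h : A) : ∀ (n : ℕ) (e : Polynomial ℝ), e.natDegree = n → (∀ x, 0 < e.eval x) →
    IsSumSq (Polynomial.aeval h e) := by
  intro n
  induction n using Nat.strong_induction_on with
  | _ n ih =>
  intro e he hpos
  have hae : ∀ r : ℝ, Polynomial.aeval h (Polynomial.C r) = C r := fun r => Polynomial.aeval_C _ _
  by_cases hn : n = 0
  · rw [hn] at he
    obtain ⟨r, rfl⟩ := Polynomial.natDegree_eq_zero.1 he
    rw [hae]
    have h1 := hpos 0
    rw [Polynomial.eval_C] at h1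
    exact isSumSq_C h1.le
  · have hdeg : 0 < (e.map (algebraMap ℝ ℂ)).degree := by
      rw [Polynomial.degree_map, ← Polynomial.natDegree_pos_iff_degree_pos]
      omega
    have he0 : e ≠ 0 := by
      rintro rfl
      simp at he
      omega
    obtain ⟨z, hz⟩ := Complex.exists_root hdeg
    have hz' : Polynomial.aeval z e = 0 := by
      rw [Polynomial.IsRoot.def, Polynomial.eval_map] at hz
      exact hz
    have him : z.im ≠ 0 := by
      intro him
      have h1 : (z : ℂ) = ((z.re : ℝ) : ℂ) := Complex.ext (by simp) (by simp [him])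
      rw [h1] at hz'
      have h2 : Polynomial.aeval ((z.re : ℝ) : ℂ) e = ((e.eval z.re : ℝ) : ℂ) :=
        Polynomial.aeval_algebraMap_apply_eq_algebraMap_eval (A := ℂ) z.re e
      rw [h2] at hz'
      have h3 : e.eval z.re = 0 := by exact_mod_cast hz'
      exact (hpos z.re).ne' h3
    obtain ⟨e1, he1⟩ := Polynomial.quadratic_dvd_of_aeval_eq_zero_im_ne_zero e hz' him
    set Q : Polynomial ℝ := Polynomial.X ^ 2 - Polynomial.C (2 * z.re) * Polynomial.X +
      Polynomial.C (‖z‖ ^ 2) with hQ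
    have hnorm : ‖z‖ ^ 2 = z.re ^ 2 + z.im ^ 2 := by
      rw [Complex.sq_norm, Complex.normSq_apply]; ring
    have hQev : ∀ x, Q.eval x = (x - z.re) ^ 2 + z.im ^ 2 := by
      intro x
      rw [hQ, hnorm]
      simp
      ring
    have hQpos : ∀ x, 0 < Q.eval x := by
      intro x
      rw [hQev]
      have : 0 < z.im ^ 2 := by positivity
      positivity
    have hQdeg : Q.natDegree = 2 := by
      rw [hQ]
      compute_degree!
    have hd1 : e1.natDegree < n := by
      have h1 : e1 ≠ 0 := by rintro rfl; rw [mul_zero] at he1; exact he0 he1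
      have h2 := congrArg Polynomial.natDegree he1
      have h3 : Q ≠ 0 := by
        intro h3
        have := hQpos 0
        rw [h3] at this
        simp at this
      rw [Polynomial.natDegree_mul h3 h1, hQdeg, he] at h2
      omega
    have h1 := ih _ hd1 e1 rfl (fun x => by
      have h2 := hpos x
      rw [he1, Polynomial.eval_mul] at h2
      exact (mul_pos_iff_of_pos_left (hQpos x)).1 h2)
    rw [he1, map_mul]
    refine IsSumSq.mul ?_ h1
    have h3 : Polynomial.aeval h Q = (h - C z.re) ^ 2 + C (z.im ^ 2) := by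
      rw [hQ, hnorm]
      simp only [map_add, map_sub, map_mul, map_pow, Polynomial.aeval_X, hae]
      rw [show (C (2 : ℝ) : A) = 2 from rfl]
      ring
    rw [h3]
    exact (isSumSq_sq _).add (isSumSq_C (by positivity))

/-- every polynomial of degree `≤ 2 K` is dominated by `1 + x ^ (2 K)` -/
theorem dominated (W : Polynomial ℝ) (K : ℕ) (hW : W.natDegree ≤ 2 * K) :
    ∃ c : ℝ, 0 < c ∧ ∀ x, W.eval x < c * (1 + x ^ (2 * K)) := by
  refine ⟨1 + ∑ j ∈ Finset.range (2 * K + 1), |W.coeff j|, by positivity, fun x => ?_⟩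
  have hx : 0 ≤ x ^ (2 * K) := by rw [pow_mul]; positivity
  have hpow : ∀ j ≤ 2 * K, |x ^ j| ≤ 1 + x ^ (2 * K) := by
    intro j hj
    rw [abs_pow]
    rcases le_total |x| 1 with h | h
    · have := pow_le_one₀ (n := j) (abs_nonneg x) h
      linarith
    · have h1 := pow_le_pow_right₀ h hj
      have h2 : |x| ^ (2 * K) = x ^ (2 * K) := by
        rw [pow_mul, pow_mul, sq_abs]
      rw [h2] at h1
      linarith
  rw [Polynomial.eval_eq_sum_range' (Nat.lt_succ_of_le hW)]
  have h1 : ∑ j ∈ Finset.range (2 * K + 1), W.coeff j * x ^ j ≤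
      ∑ j ∈ Finset.range (2 * K + 1), |W.coeff j| * (1 + x ^ (2 * K)) := by
    refine Finset.sum_le_sum fun j hj => ?_
    rw [Finset.mem_range] at hj
    refine (le_abs_self _).trans ?_
    rw [abs_mul]
    exact mul_le_mul_of_nonneg_left (hpow j (by omega)) (abs_nonneg _)
  rw [← Finset.sum_mul] at h1
  refine lt_of_le_of_lt h1 ?_
  nlinarith [Finset.sum_nonneg (s := Finset.range (2 * K + 1))
    (fun j _ => abs_nonneg (W.coeff j))]

/-- the image of a univariate polynomial in `x` -/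
noncomputable abbrev ax (W : Polynomial ℝ) : A := Polynomial.aeval (X 0 : A) W

theorem dominated_ss (W : Polynomial ℝ) (K : ℕ) (hW : W.natDegree ≤ 2 * K) :
    ∃ c : ℝ, 0 < c ∧ IsSumSq (C c * (1 + X 0 ^ (2 * K)) - ax W : A) := by
  obtain ⟨c, hc, h⟩ := dominated W K hW
  refine ⟨c, hc, ?_⟩
  have h1 := pos_sos (X 0) _ (Polynomial.C c * (1 + Polynomial.X ^ (2 * K)) - W) rfl (fun x => by
    have := h x
    simp only [Polynomial.eval_sub, Polynomial.eval_mul, Polynomial.eval_add,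
      Polynomial.eval_pow, Polynomial.eval_X, Polynomial.eval_C, Polynomial.eval_one]
    linarith)
  simp only [map_sub, map_mul, map_add, map_pow, Polynomial.aeval_X, map_one,
    Polynomial.aeval_C] at h1
  exact h1

theorem one_add_ss' (K : ℕ) : IsSumSq (1 + X 0 ^ (2 * K) : A) := by
  refine IsSumSq.add IsSumSq.one ?_
  rw [mul_comm 2 K, pow_mul]
  exact isSumSq_sq _

/-- `E` is bounded by a multiple of `1 + x ^ K`, with a certificate in `M` -/
def Bd (M : A → Prop) (K : ℕ) (E : A) : Prop :=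
  ∃ c : ℝ, 0 ≤ c ∧ M (C c * (1 + X 0 ^ (2 * K)) - E ^ 2)

theorem Bd.zero (hM : QMod M) (K : ℕ) : Bd M K 0 := by
  refine ⟨0, le_rfl, ?_⟩
  have h : (C 0 * (1 + X 0 ^ (2 * K)) - 0 ^ 2 : A) = 0 := by simp
  rw [h]
  exact hM.zero

theorem Bd.add (hM : QMod M) {K : ℕ} {E F : A} (hE : Bd M K E) (hF : Bd M K F) :
    Bd M K (E + F) := by
  obtain ⟨c, hc, h1⟩ := hE
  obtain ⟨d, hd, h2⟩ := hF
  refine ⟨2 * c + 2 * d, by positivity, ?_⟩
  have h3 := hM.add (hM.add (hM.smul (r := 2) (by norm_num) h1) (hM.smul (r := 2) (by norm_num) h2))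
    (hM.sq (E - F) hM.one)
  have h4 : C (2 * c + 2 * d) * (1 + X 0 ^ (2 * K)) - (E + F) ^ 2 =
      C 2 * (C c * (1 + X 0 ^ (2 * K)) - E ^ 2) + C 2 * (C d * (1 + X 0 ^ (2 * K)) - F ^ 2) +
        (E - F) ^ 2 * 1 := by
    have h2 : (C 2 : A) = 2 := rfl
    simp only [C_add, C_mul, h2]
    ring
  rw [h4]
  exact h3

theorem Bd.neg {K : ℕ} {E : A} (hE : Bd M K E) : Bd M K (-E) := by
  obtain ⟨c, hc, h1⟩ := hE
  exact ⟨c, hc, by rwa [neg_sq]⟩

theorem Bd.sub (hM : QMod M) {K : ℕ} {E F : A} (hE : Bd M K E) (hF : Bd M K F) :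
    Bd M K (E - F) := by
  rw [sub_eq_add_neg]
  exact hE.add hM hF.neg

theorem Bd.sum (hM : QMod M) {K : ℕ} {ι : Type} (s : Finset ι) (f : ι → A)
    (h : ∀ i ∈ s, Bd M K (f i)) : Bd M K (∑ i ∈ s, f i) := by
  classical
  induction s using Finset.induction_on with
  | empty => rw [Finset.sum_empty]; exact Bd.zero hM K
  | insert a s ha ih =>
    rw [Finset.sum_insert ha]
    exact (h a (Finset.mem_insert_self _ _)).add hM
      (ih fun i hi => h i (Finset.mem_insert_of_mem hi))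

/-- dividing by `t` when `t ^ 2 - 1 ∈ M` -/
theorem Bd.div (hM : QMod M) {t : A} (ht : M (t ^ 2 - 1)) {K : ℕ} {E : A} (hE : Bd M K (t * E)) :
    Bd M K E := by
  obtain ⟨c, hc, h1⟩ := hE
  refine ⟨c, hc, ?_⟩
  have h2 := hM.add h1 (hM.sq E ht)
  have h3 : C c * (1 + X 0 ^ (2 * K)) - E ^ 2 = C c * (1 + X 0 ^ (2 * K)) - (t * E) ^ 2 +
      E ^ 2 * (t ^ 2 - 1) := by ring
  rw [h3]
  exact h2

theorem Bd.div_pow (hM : QMod M) {t : A} (ht : M (t ^ 2 - 1)) {K : ℕ} (r : ℕ) {E : A}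
    (hE : Bd M K (t ^ r * E)) : Bd M K E := by
  induction r with
  | zero => simpa using hE
  | succ r ih =>
    rw [pow_succ', mul_assoc] at hE
    exact ih (Bd.div hM ht hE)

/-- replacing `t` by `S` when `c t ^ 2 - S ^ 2 ∈ M` -/
theorem Bd.swap (hM : QMod M) {t S : A} {c0 : ℝ} (hc0 : 0 ≤ c0) (hS : M (C c0 * t ^ 2 - S ^ 2))
    {K : ℕ} {E : A} (hE : Bd M K (t * E)) : Bd M K (S * E) := by
  obtain ⟨c, hc, h1⟩ := hE
  refine ⟨c0 * c, by positivity, ?_⟩
  have h2 := hM.add (hM.smul hc0 h1) (hM.sq E hS)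
  have h3 : C (c0 * c) * (1 + X 0 ^ (2 * K)) - (S * E) ^ 2 =
      C c0 * (C c * (1 + X 0 ^ (2 * K)) - (t * E) ^ 2) + E ^ 2 * (C c0 * t ^ 2 - S ^ 2) := by
    rw [C_mul]
    ring
  rw [h3]
  exact h2

theorem ax_X_pow (n : ℕ) : ax (Polynomial.X ^ n) = X 0 ^ n := by
  simp [ax]

theorem Bd.mul_ax (hM : QMod M) {K d : ℕ} (W : Polynomial ℝ) (hW : W.natDegree ≤ d) {E : A}
    (hE : Bd M K E) : Bd M (K + d) (ax W * E) := by
  obtain ⟨c, hc, h1⟩ := hE
  obtain ⟨a, ha, h2⟩ := dominated_ss (W ^ 2) d (by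
    refine Polynomial.natDegree_pow_le.trans ?_
    omega)
  obtain ⟨b, hb, h3⟩ := dominated_ss ((1 + Polynomial.X ^ (2 * d)) * (1 + Polynomial.X ^ (2 * K)))
    (K + d) (by
      refine Polynomial.natDegree_mul_le.trans ?_
      have e1 : (1 + Polynomial.X ^ (2 * d) : Polynomial ℝ).natDegree ≤ 2 * d := by
        compute_degree
      have e2 : (1 + Polynomial.X ^ (2 * K) : Polynomial ℝ).natDegree ≤ 2 * K := by
        compute_degree
      omega)
  refine ⟨a * c * b, by positivity, ?_⟩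
  have hpd : IsSumSq (1 + X 0 ^ (2 * d) : A) := by
    refine IsSumSq.add IsSumSq.one ?_
    rw [mul_comm 2 d, pow_mul]
    exact isSumSq_sq _
  have e1 := hM.ssmul h2 (hM.ss (isSumSq_sq E))
  have e2 := hM.smul ha.le (hM.ssmul hpd h1)
  have e3 := hM.smul (show (0 : ℝ) ≤ a * c by positivity) (hM.ss h3)
  have e4 := hM.add (hM.add e1 e2) e3
  have e5 : C (a * c * b) * (1 + X 0 ^ (2 * (K + d))) - (ax W * E) ^ 2 =
      (C a * (1 + X 0 ^ (2 * d)) - ax (W ^ 2)) * E ^ 2 +
      C a * ((1 + X 0 ^ (2 * d)) * (C c * (1 + X 0 ^ (2 * K)) - E ^ 2)) +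
      C (a * c) * (C b * (1 + X 0 ^ (2 * (K + d))) -
        ax ((1 + Polynomial.X ^ (2 * d)) * (1 + Polynomial.X ^ (2 * K)))) := by
    simp only [ax, map_mul, map_add, map_pow, map_one, Polynomial.aeval_X]
    ring
  rw [e5]
  exact e4

theorem Bd.mono (hM : QMod M) {K K' : ℕ} (h : K ≤ K') {E : A} (hE : Bd M K E) : Bd M K' E := by
  obtain ⟨d, rfl⟩ := Nat.exists_eq_add_of_le h
  have h1 := hE.mul_ax hM (d := d) 1 (by simp)
  simpa [ax] using h1

theorem Bd.one (hM : QMod M) : Bd M 0 1 := by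
  refine ⟨1, zero_le_one, ?_⟩
  have h : (C 1 * (1 + X 0 ^ (2 * 0)) - 1 ^ 2 : A) = 1 := by
    simp
  rw [h]
  exact hM.one

theorem Bd.of_ax (hM : QMod M) (W : Polynomial ℝ) {d : ℕ} (hW : W.natDegree ≤ d) :
    Bd M d (ax W) := by
  have h1 := (Bd.one hM).mul_ax hM W hW
  rwa [mul_one, zero_add] at h1

end Pool.Agent.Helper10.TI
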