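import Pool.Agent.Helper10.TI.Adic

set_option autoImplicit false

/-!
# MP_63c74b: polynomials of bounded formal growth are bounded with certificates of bounded growth
-/

open MvPolynomial Pool.Agent.Helper68.QM

namespace Pool.Agent.Helper10.TI

/-- `ℝ[x][y]` as polynomials in two variables -/
noncomputable def Φ : P2 →+* A := Polynomial.eval₂RingHom (Polynomial.aeval (X 0 : A)).toRingHom (X 1)

theorem Φ_C (q : P1) : Φ (Polynomial.C q) = ax q := by
  simp [Φ, ax]

theorem Φ_X : Φ Polynomial.X = X 1 := by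
  simp [Φ]

theorem Φ_sum (E : P2) (n : ℕ) (h : E.natDegree < n) :
    Φ E = ∑ i ∈ Finset.range n, ax (E.coeff i) * X 1 ^ i := by
  conv_lhs => rw [E.as_sum_range_C_mul_X_pow' h]
  rw [map_sum]
  refine Finset.sum_congr rfl fun i _ => ?_
  rw [map_mul, map_pow, Φ_C, Φ_X]

variable {M : A → Prop}

namespace Dat

variable (D : Dat)

/-- `y ^ i` is bounded for `i < p` -/
theorem base_growth (hM : QMod M) (hT : M (ax D.T ^ 2 - 1)) {c0 : ℝ} (hc0 : 0 ≤ c0)
    (hS : M (C c0 * ax D.T ^ 2 - Φ D.S ^ 2)) {r0 : ℕ} (hL : D.L ∣ D.T ^ r0) :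
    ∃ K0, ∀ i < D.p, Bd M K0 ((X 1 : A) ^ i) := by
  obtain ⟨L', hL'⟩ := hL
  have hp := D.p_pos
  have e1 : Bd M ((D.T * D.L ^ (D.p - 1)).natDegree) (ax D.T * ax (D.L ^ (D.p - 1))) := by
    have := Bd.of_ax hM (D.T * D.L ^ (D.p - 1)) le_rfl
    simpa only [ax, map_mul] using this
  have e2 := Bd.swap hM hc0 hS e1
  have e3 : Φ D.S * ax (D.L ^ (D.p - 1)) = (ax D.L * X 1) ^ D.p +
      ∑ i ∈ Finset.range D.p, ax (D.S.coeff i * D.L ^ (D.p - 1 - i)) * (ax D.L * X 1) ^ i := by
    rw [Φ_sum D.S (D.p + 1) (Nat.lt_succ_self _), Finset.sum_range_succ, add_mul, add_comm]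
    congr 1
    · have h1 : D.S.coeff D.p = D.L := rfl
      have h2 : (ax D.L) ^ D.p = ax D.L * ax (D.L ^ (D.p - 1)) := by
        have h3 : D.L ^ D.p = D.L * D.L ^ (D.p - 1) := by
          rw [← pow_succ', Nat.sub_add_cancel hp]
        simp only [ax]
        rw [← map_pow, h3, map_mul]
      rw [h1, mul_pow, h2]
      ring
    · rw [Finset.sum_mul]
      refine Finset.sum_congr rfl fun i hi => ?_
      rw [Finset.mem_range] at hi
      have h3 : D.L ^ (D.p - 1) = D.L ^ (D.p - 1 - i) * D.L ^ i := by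
        rw [← pow_add]
        congr 1
        omega
      rw [h3]
      simp only [ax, map_mul, map_pow]
      ring
  rw [e3] at e2
  obtain ⟨K2, hK2⟩ := growth_pow hM D.p (ax D.L * X 1) _ _ e2
  refine ⟨K2 + D.p * L'.natDegree, fun i hi => ?_⟩
  have e4 := (hK2 i hi.le).mul_ax hM (d := D.p * L'.natDegree) (L' ^ i) (by
    refine Polynomial.natDegree_pow_le.trans ?_
    exact Nat.mul_le_mul_right _ hi.le)
  refine Bd.div_pow hM hT (r0 * i) ?_
  have e5 : ax D.T ^ (r0 * i) * X 1 ^ i = ax (L' ^ i) * (ax D.L * X 1) ^ i := by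
    have h1 : ax D.T ^ (r0 * i) = (ax D.L * ax L') ^ i := by
      rw [pow_mul]
      simp only [ax]
      rw [← map_pow, hL', map_mul]
    rw [h1, mul_pow, mul_pow]
    simp only [ax, map_pow]
    ring
  rw [e5]
  exact e4

/-- the ratio of leading coefficients -/
noncomputable def ra : Kx := ix D.L * (ix D.T)⁻¹

theorem ra_ne : D.ra ≠ 0 := D.ratio_ne

theorem ra_deg : D.ra.intDegree = (D.L.natDegree : ℤ) - D.T.natDegree := by
  rw [ra, RatFunc.intDegree_mul (ix_ne D.L_ne) (inv_ne_zero (ix_ne D.hT)), RatFunc.intDegree_inv,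
    RatFunc.intDegree_polynomial, RatFunc.intDegree_polynomial]
  ring

theorem rapow_deg (n : ℕ) : (D.ra ^ n).intDegree = n * ((D.L.natDegree : ℤ) - D.T.natDegree) := by
  induction n with
  | zero => simp
  | succ n ih =>
    rw [pow_succ, RatFunc.intDegree_mul (pow_ne_zero _ D.ra_ne) D.ra_ne, ih, ra_deg]
    push_cast
    ring

theorem deg_nonneg : (0 : ℤ) ≤ (D.L.natDegree : ℤ) - D.T.natDegree := by
  have := D.hdeg
  change D.T.natDegree ≤ D.L.natDegree at this
  omega

/-- degree of `q / ra ^ n` -/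
theorem dle_div {q : P1} (hq : q ≠ 0) (n : ℕ) {d : ℤ} :
    Dle (ix q * (D.ra ^ n)⁻¹) d ↔ (q.natDegree : ℤ) - n * ((D.L.natDegree : ℤ) - D.T.natDegree) ≤ d := by
  have h0 : ix q * (D.ra ^ n)⁻¹ ≠ 0 := mul_ne_zero (ix_ne hq) (inv_ne_zero (pow_ne_zero _ D.ra_ne))
  have h1 : (ix q * (D.ra ^ n)⁻¹).intDegree =
      (q.natDegree : ℤ) - n * ((D.L.natDegree : ℤ) - D.T.natDegree) := by
    rw [RatFunc.intDegree_mul (ix_ne hq) (inv_ne_zero (pow_ne_zero _ D.ra_ne)),
      RatFunc.intDegree_inv, RatFunc.intDegree_polynomial, rapow_deg]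
    ring
  constructor
  · rintro (h | h)
    · exact absurd h h0
    · rwa [h1] at h
  · intro h
    exact Or.inr (by rwa [h1])

/-- lift of `q s ^ n y ^ i` -/
theorem lift_top (q : P1) (m : ℕ) (r : ℕ)
    (hr : Dle (ix q * (D.ra ^ (m / D.p))⁻¹) ((r : ℤ) - D.lam * (m % D.p : ℕ))) :
    ∃ E : P2, (∀ j, m + 1 ≤ j → E.coeff j = 0) ∧ E.coeff m = q ∧
      D.FF (m + 1) (max r (D.lam * D.p) : ℕ) (ι E) := by
  have hp := D.p_pos
  have hι : ι (Polynomial.C q * Polynomial.X ^ m) = Polynomial.C (ix q) * Polynomial.X ^ m := by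
    rw [map_mul, map_pow]
    congr 1
    · exact Polynomial.map_C ix
    · congr 1
      exact Polynomial.map_X ix
  have hz : ∀ j, m ≤ j → (Polynomial.C (ix q * (D.ra ^ (m / D.p))⁻¹) * D.bb m -
      ι (Polynomial.C q * Polynomial.X ^ m)).coeff j = 0 := by
    intro j hj
    rw [hι, Polynomial.coeff_sub, Polynomial.coeff_C_mul, Polynomial.coeff_C_mul,
      Polynomial.coeff_X_pow]
    rcases eq_or_lt_of_le hj with h | h
    · subst h
      rw [if_pos rfl, bb_coeff, mul_one]
      change ix q * (D.ra ^ (m / D.p))⁻¹ * D.ra ^ (m / D.p) - ix q = 0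
      rw [mul_assoc, inv_mul_cancel₀ (pow_ne_zero _ D.ra_ne), mul_one, sub_self]
    · rw [if_neg (by omega), Polynomial.coeff_eq_zero_of_natDegree_lt
        (p := D.bb m) (by rw [bb_natDegree]; exact h)]
      simp
  obtain ⟨E, hE, c, hc, hcd⟩ := exists_lift (D := D) m _ hz
  refine ⟨E + Polynomial.C q * Polynomial.X ^ m, fun j hj => ?_, ?_, ?_⟩
  · rw [Polynomial.coeff_add, hE j (by omega), Polynomial.coeff_C_mul, Polynomial.coeff_X_pow,
      if_neg (by omega), mul_zero, add_zero]
  · rw [Polynomial.coeff_add, hE m le_rfl, Polynomial.coeff_C_mul, Polynomial.coeff_X_pow,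
      if_pos rfl, mul_one, zero_add]
  · have h1 : ι (E + Polynomial.C q * Polynomial.X ^ m) =
        Polynomial.C (ix q * (D.ra ^ (m / D.p))⁻¹) * D.bb m -
          ∑ j ∈ Finset.range m, Polynomial.C (c j) * D.bb j := by
      rw [← hc, map_add]
      ring
    rw [h1]
    refine FF.sub (FF.gen (by omega) (hr.mono ?_)) (FF.sum _ _ fun j hj => FF.gen ?_
      ((hcd j (Finset.mem_range.1 hj)).mono ?_))
    · push_cast
      have : (r : ℤ) ≤ max (r : ℤ) (D.lam * D.p) := le_max_left _ _
      linarith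
    · rw [Finset.mem_range] at hj; omega
    · push_cast
      have h2 : ((D.lam : ℤ) * D.p) ≤ max (r : ℤ) (D.lam * D.p) := le_max_right _ _
      have h3 : (j % D.p : ℕ) < D.p := Nat.mod_lt _ hp
      have h4 : ((j % D.p : ℕ) : ℤ) ≤ D.p := by exact_mod_cast h3.le
      have h5 := mul_le_mul_of_nonneg_left h4 (Nat.cast_nonneg D.lam : (0 : ℤ) ≤ D.lam)
      push_cast at h5
      linarith

/-- the constant -/
noncomputable def kk (r0 : ℕ) : ℕ :=
  (r0 + 1) * D.T.natDegree + D.L.natDegree + D.lam * D.p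

theorem coeff_ι (E : P2) (j : ℕ) : (ι E).coeff j = ix (E.coeff j) := Polynomial.coeff_map _ _

theorem ι_C (q : P1) : ι (Polynomial.C q) = Polynomial.C (ix q) := Polynomial.map_C ix

theorem natDegree_le_of {E : P2} {m : ℕ} (h : ∀ j, m + 1 ≤ j → E.coeff j = 0) :
    E.natDegree ≤ m :=
  Polynomial.natDegree_le_iff_coeff_eq_zero.2 fun j hj => h j hj

/-- **Main claim.** -/
theorem claim (hM : QMod M) (hT : M (ax D.T ^ 2 - 1)) {c0 : ℝ} (hc0 : 0 ≤ c0)
    (hS : M (C c0 * ax D.T ^ 2 - Φ D.S ^ 2)) {r0 : ℕ} (hL : D.L ∣ D.T ^ r0) {K0 : ℕ}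
    (hK0 : ∀ i < D.p, Bd M K0 ((X 1 : A) ^ i)) {k0 : ℕ} (hk0 : D.kk r0 ≤ k0) :
    ∀ (m : ℕ) (E : P2), (∀ j, m ≤ j → E.coeff j = 0) → D.FF m k0 (ι E) →
      Bd M (K0 + k0) (Φ E) := by
  intro m
  have hp := D.p_pos
  have hkk : (r0 + 1) * D.T.natDegree + D.L.natDegree + D.lam * D.p ≤ k0 := hk0
  have hkk' : r0 * D.T.natDegree + D.T.natDegree + D.L.natDegree + D.lam * D.p ≤ k0 := by
    have h1 : (r0 + 1) * D.T.natDegree = r0 * D.T.natDegree + D.T.natDegree := by ring
    omega
  induction m using Nat.strong_induction_on with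
  | _ m ih =>
  intro E hE hF
  rcases Nat.eq_zero_or_pos m with hm0 | hm0
  · have h1 : E = 0 := by
      ext1 j
      rw [hE j (by omega), Polynomial.coeff_zero]
    rw [h1, map_zero]
    exact Bd.zero hM _
  obtain ⟨m, rfl⟩ : ∃ n, m = n + 1 := ⟨m - 1, by omega⟩
  set φ : P1 := E.coeff m with hφ
  -- the top coefficient
  obtain ⟨c, hc, hcd⟩ := hF
  have hcm : ix φ = c m * D.ra ^ (m / D.p) := by
    have h1 := FF.coeff_eq hc
    rw [coeff_ι] at h1
    exact h1
  have hcm' : c m = ix φ * (D.ra ^ (m / D.p))⁻¹ := by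
    rw [hcm, mul_assoc, mul_inv_cancel₀ (pow_ne_zero _ D.ra_ne), mul_one]
  have hdeg : Dle (ix φ * (D.ra ^ (m / D.p))⁻¹) (k0 - D.lam * (m % D.p : ℕ)) := by
    rw [← hcm']
    exact hcd m (by omega)
  have hF : D.FF (m + 1) k0 (ι E) := ⟨c, hc, hcd⟩
  by_cases hmp : m < D.p
  · -- base case
    have h1 : m / D.p = 0 := Nat.div_eq_of_lt hmp
    have h2 : m % D.p = m := Nat.mod_eq_of_lt hmp
    have hbb : D.bb m = Polynomial.X ^ m := by
      rw [bb, h1, h2, pow_zero, one_mul]
    have hι : ι (Polynomial.C φ * Polynomial.X ^ m) = Polynomial.C (c m) * D.bb m := by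
      rw [hbb, map_mul, map_pow, ι_C, hcm, h1, pow_zero, mul_one]
      congr 2
      exact Polynomial.map_X ix
    have h3 : Bd M (K0 + k0) (Φ (E - Polynomial.C φ * Polynomial.X ^ m)) := by
      refine ih m (by omega) _ (fun j hj => ?_) ?_
      · rw [Polynomial.coeff_sub, Polynomial.coeff_C_mul, Polynomial.coeff_X_pow]
        rcases eq_or_lt_of_le hj with h | h
        · rw [if_pos h.symm, ← h, mul_one, sub_self]
        · rw [hE j (by omega), if_neg (by omega), mul_zero, sub_zero]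
      · refine FF.drop ?_ ?_
        · rw [map_sub, hι]
          exact hF.sub (FF.gen (by omega) (hcd m (by omega)))
        · rw [coeff_ι, Polynomial.coeff_sub, Polynomial.coeff_C_mul, Polynomial.coeff_X_pow,
            if_pos rfl, mul_one, sub_self, map_zero]
    have h4 : Bd M (K0 + k0) (Φ (Polynomial.C φ * Polynomial.X ^ m)) := by
      rw [map_mul, map_pow, Φ_C, Φ_X]
      refine (hK0 m hmp).mul_ax hM φ ?_
      by_cases hφ0 : φ = 0
      · rw [hφ0]; simp
      · rw [D.dle_div hφ0, h1] at hdeg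
        have h5 : (0 : ℤ) ≤ D.lam * (m % D.p : ℕ) := by positivity
        have h6 : ((0 : ℕ) : ℤ) * ((D.L.natDegree : ℤ) - D.T.natDegree) = 0 := by
          push_cast; ring
        rw [h6] at hdeg
        omega
    have h5 := h3.add hM h4
    rw [← map_add, sub_add_cancel] at h5
    exact h5
  · -- induction step
    have hmp' : D.p ≤ m := by omega
    have hdivm : (m - D.p) / D.p + 1 = m / D.p := by
      have := Nat.add_div_right (m - D.p) hp
      rw [Nat.sub_add_cancel hmp'] at this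
      omega
    have hmodm : (m - D.p) % D.p = m % D.p := by
      have := Nat.add_mod_right (m - D.p) D.p
      rw [Nat.sub_add_cancel hmp'] at this
      exact this.symm
    have hmod : m % D.p < D.p := Nat.mod_lt _ hp
    have hlm : ((D.lam : ℤ)) * (m % D.p : ℕ) ≤ D.lam * D.p := by
      exact_mod_cast Nat.mul_le_mul_left D.lam hmod.le
    have hnn := D.deg_nonneg
    have hdm : D.L * (φ / D.L) + φ % D.L = φ := EuclideanDomain.div_add_mod φ D.L
    set φ1 : P1 := φ / D.L with hφ1
    set φ2 : P1 := φ % D.L with hφ2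
    have hφ2d : φ2 ≠ 0 → φ2.natDegree < D.L.natDegree := by
      intro h
      exact Polynomial.natDegree_lt_natDegree h (EuclideanDomain.mod_lt φ D.L_ne)
    have htk : D.T.natDegree ≤ k0 := by omega
    -- `E1` lifts `φ1`
    have hE1 : Dle (ix φ1 * (D.ra ^ ((m - D.p) / D.p))⁻¹)
        (((k0 - D.T.natDegree : ℕ) : ℤ) - D.lam * ((m - D.p) % D.p : ℕ)) := by
      by_cases h0 : φ1 = 0
      · rw [h0, map_zero, zero_mul]; exact Dle.zero _
      · rw [D.dle_div h0, hmodm]
        have hφ0 : φ ≠ 0 := by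
          intro h
          apply h0
          rw [hφ1, h, EuclideanDomain.zero_div]
        rw [D.dle_div hφ0] at hdeg
        have h1 : φ1.natDegree + D.L.natDegree ≤ φ.natDegree := by
          have h2 : (D.L * φ1).natDegree = D.L.natDegree + φ1.natDegree :=
            Polynomial.natDegree_mul D.L_ne h0
          have h3 : (D.L * φ1 + φ2).natDegree = (D.L * φ1).natDegree := by
            refine Polynomial.natDegree_add_eq_left_of_degree_lt ?_
            refine lt_of_lt_of_le (EuclideanDomain.mod_lt φ D.L_ne) ?_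
            exact Polynomial.degree_le_mul_left _ h0
          rw [hdm, h2] at h3
          omega
        have h2 : ((m / D.p : ℕ) : ℤ) = (((m - D.p) / D.p : ℕ) : ℤ) + 1 := by
          rw [← hdivm]; push_cast; ring
        rw [h2] at hdeg
        rw [Nat.cast_sub htk]
        have h1' : (φ1.natDegree : ℤ) + D.L.natDegree ≤ φ.natDegree := by exact_mod_cast h1
        linarith
    obtain ⟨E1, hE1z, hE1c, hE1F⟩ := D.lift_top φ1 (m - D.p) (k0 - D.T.natDegree) hE1
    -- `E2` lifts `φ2`
    have hra0 : ∀ n : ℕ, (0 : ℤ) ≤ n * ((D.L.natDegree : ℤ) - D.T.natDegree) := fun n =>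
      mul_nonneg (Nat.cast_nonneg n) hnn
    have hE2 : Dle (ix φ2 * (D.ra ^ (m / D.p))⁻¹)
        (((D.L.natDegree + D.lam * D.p : ℕ) : ℤ) - D.lam * (m % D.p : ℕ)) := by
      by_cases h0 : φ2 = 0
      · rw [h0, map_zero, zero_mul]; exact Dle.zero _
      · rw [D.dle_div h0]
        have h1 := hφ2d h0
        have h2 := hra0 (m / D.p)
        rw [Nat.cast_add, Nat.cast_mul]
        have h1' : (φ2.natDegree : ℤ) < D.L.natDegree := by exact_mod_cast h1
        linarith
    obtain ⟨E2, hE2z, hE2c, hE2F⟩ := D.lift_top φ2 m (D.L.natDegree + D.lam * D.p) hE2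
    -- `E3` lifts `L' φ2`
    obtain ⟨L', hL'⟩ := hL
    have hE3 : Dle (ix (L' * φ2) * (D.ra ^ ((m - D.p) / D.p))⁻¹)
        (((r0 * D.T.natDegree + D.lam * D.p : ℕ) : ℤ) - D.lam * ((m - D.p) % D.p : ℕ)) := by
      by_cases h0 : L' * φ2 = 0
      · rw [h0, map_zero, zero_mul]; exact Dle.zero _
      · rw [D.dle_div h0, hmodm]
        have h1 : φ2.natDegree < D.L.natDegree := hφ2d (right_ne_zero_of_mul h0)
        have h2 := hra0 ((m - D.p) / D.p)
        have h3 : (D.T ^ r0).natDegree = D.L.natDegree + L'.natDegree := by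
          rw [hL', Polynomial.natDegree_mul D.L_ne (left_ne_zero_of_mul h0)]
        rw [Polynomial.natDegree_pow] at h3
        have h4 : (L' * φ2).natDegree ≤ r0 * D.T.natDegree := by
          refine Polynomial.natDegree_mul_le.trans ?_
          omega
        rw [Nat.cast_add, Nat.cast_mul, Nat.cast_mul]
        have h4' : ((L' * φ2).natDegree : ℤ) ≤ r0 * D.T.natDegree := by exact_mod_cast h4
        linarith
    obtain ⟨E3, hE3z, hE3c, hE3F⟩ := D.lift_top (L' * φ2) (m - D.p)
      (r0 * D.T.natDegree + D.lam * D.p) hE3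
    -- multiplication by `S` and `T`
    have hSmul : ∀ (F : P2) (r : ℕ), (∀ j, m - D.p + 1 ≤ j → F.coeff j = 0) →
        D.FF (m - D.p + 1) r (ι F) → r + D.T.natDegree ≤ k0 →
        (∀ j, m + 1 ≤ j → (D.S * F).coeff j = 0) ∧ (D.S * F).coeff m = D.L * F.coeff (m - D.p) ∧
        D.FF (m + 1) k0 (ι (D.S * F)) ∧ Bd M (K0 + k0) (Φ (D.S * F)) := by
      intro F r hFz hFF hr
      have hd := natDegree_le_of hFz
      have hdle : Dle (ix D.T) D.T.natDegree := Dle.poly D.T le_rfl
      refine ⟨fun j hj => ?_, ?_, ?_, ?_⟩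
      · apply Polynomial.coeff_eq_zero_of_natDegree_lt
        refine lt_of_le_of_lt Polynomial.natDegree_mul_le ?_
        change D.p + F.natDegree < j
        omega
      · have h1 := Polynomial.coeff_mul_add_eq_of_natDegree_le (f := D.S) (g := F) (le_refl D.p) hd
        rw [show D.p + (m - D.p) = m by omega] at h1
        exact h1
      · have h1 := (hFF.mul_s).mulC hdle
        rw [← mul_assoc, ← ιS, ← map_mul] at h1
        refine h1.mono (by omega) ?_
        exact_mod_cast hr
      · rw [map_mul]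
        refine Bd.swap hM hc0 hS ?_
        have h1 := hFF.mulC hdle
        have h2 := ih (m - D.p + 1) (by omega) (Polynomial.C D.T * F) (fun j hj => by
          rw [Polynomial.coeff_C_mul, hFz j hj, mul_zero]) (by
          rw [map_mul, ι_C]
          refine h1.mono le_rfl ?_
          exact_mod_cast hr)
        rw [map_mul, Φ_C] at h2
        exact h2
    obtain ⟨a1, a2, a3, a4⟩ := hSmul E1 _ hE1z hE1F (by
      rcases max_choice (k0 - D.T.natDegree) (D.lam * D.p) with h | h <;> rw [h] <;> omega)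
    obtain ⟨b1, b2, b3, b4⟩ := hSmul E3 _ hE3z hE3F (by
      rcases max_choice (r0 * D.T.natDegree + D.lam * D.p) (D.lam * D.p) with h | h <;>
        rw [h] <;> omega)
    -- `E2` is bounded
    have hE2F' : D.FF (m + 1) ((D.L.natDegree + D.lam * D.p : ℕ) : ℤ) (ι E2) := by
      refine hE2F.mono le_rfl ?_
      rw [max_eq_left (by omega)]
    have hTr : Dle (ix (D.T ^ r0)) (r0 * D.T.natDegree : ℕ) :=
      Dle.poly _ (Polynomial.natDegree_pow_le)
    have hR2 : Bd M (K0 + k0) (Φ (Polynomial.C (D.T ^ r0) * E2 - D.S * E3)) := by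
      refine ih m (by omega) _ (fun j hj => ?_) ?_
      · rw [Polynomial.coeff_sub, Polynomial.coeff_C_mul]
        rcases eq_or_lt_of_le hj with h | h
        · rw [← h, hE2c, b2, hE3c, hL']
          ring
        · rw [hE2z j h, b1 j h, mul_zero, sub_zero]
      · refine FF.drop ?_ ?_
        · rw [map_sub, map_mul, ι_C]
          refine ((hE2F'.mulC hTr).mono le_rfl ?_).sub b3
          exact_mod_cast (by omega : D.L.natDegree + D.lam * D.p + r0 * D.T.natDegree ≤ k0)
        · rw [coeff_ι, Polynomial.coeff_sub, Polynomial.coeff_C_mul, hE2c, b2, hE3c, hL']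
          rw [show D.L * L' * φ2 - D.L * (L' * φ2) = 0 by ring, map_zero]
    have hB2 : Bd M (K0 + k0) (Φ E2) := by
      refine Bd.div_pow hM hT r0 ?_
      have h1 := hR2.add hM b4
      rw [← map_add, sub_add_cancel, map_mul, Φ_C] at h1
      simp only [ax, map_pow] at h1
      exact h1
    -- the remainder
    have hR : Bd M (K0 + k0) (Φ (E - D.S * E1 - E2)) := by
      refine ih m (by omega) _ (fun j hj => ?_) ?_
      · rw [Polynomial.coeff_sub, Polynomial.coeff_sub]
        rcases eq_or_lt_of_le hj with h | h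
        · rw [← h, a2, hE1c, hE2c, ← hφ, ← hdm]
          ring
        · rw [hE j h, a1 j h, hE2z j h]
          ring
      · refine FF.drop ?_ ?_
        · rw [map_sub, map_sub]
          refine (hF.sub a3).sub (hE2F'.mono le_rfl ?_)
          exact_mod_cast (by omega : D.L.natDegree + D.lam * D.p ≤ k0)
        · rw [coeff_ι, Polynomial.coeff_sub, Polynomial.coeff_sub, a2, hE1c, hE2c, ← hφ]
          have h1 : φ - D.L * φ1 - φ2 = 0 := by linear_combination -hdm
          rw [h1, map_zero]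
    have h5 := (hR.add hM a4).add hM hB2
    rw [← map_add, ← map_add, show E - D.S * E1 - E2 + D.S * E1 + E2 = E by ring] at h5
    exact h5

end Dat

end Pool.Agent.Helper10.TI
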