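import Pool.Agent.Helper10.TI.Mot

set_option autoImplicit false

/-!
# MP_63c74b: the families with coefficients in a fixed finite dimensional space
-/

open MvPolynomial Pool.Agent.Helper68.QM

namespace Pool.Agent.Helper10.TI

namespace Ctx

variable {M : A → Prop} {D : Dat} (X : Ctx M D)

theorem Lf_add {f g : P2} {Q R : P3} (hQ : X.Lf f Q) (hR : X.Lf g R) : X.Lf (f + g) (Q + R) := by
  obtain ⟨N1, a1, b1⟩ := hQ
  obtain ⟨N2, a2, b2⟩ := hR
  refine ⟨max N1 N2, fun m j hj => ?_, ?_⟩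
  · rw [Polynomial.coeff_add, Polynomial.coeff_add, a1 m j ((le_max_left _ _).trans hj),
      a2 m j ((le_max_right _ _).trans hj), add_zero]
  · have h2 := (b1.mono (le_max_left N1 N2) le_rfl).add (b2.mono (le_max_right N1 N2) le_rfl)
    rw [map_add, map_add]
    have h3 : Polynomial.C (Polynomial.C (ix (Polynomial.X ^ (2 * X.k)))) * (D.τ f + D.τ g) -
        (ι3 Q + ι3 R) = Polynomial.C (Polynomial.C (ix (Polynomial.X ^ (2 * X.k)))) * D.τ f -
        ι3 Q + (Polynomial.C (Polynomial.C (ix (Polynomial.X ^ (2 * X.k)))) * D.τ g - ι3 R) := by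
      ring
    rw [h3]
    exact h2

theorem Lf_zero : X.Lf 0 0 := by
  refine ⟨0, fun m j _ => by simp, ?_⟩
  intro m
  simp only [map_zero, mul_zero, sub_zero, Polynomial.coeff_zero]
  exact Dat.FF.zero _ _

theorem Lf_smul {f : P2} {Q : P3} (hQ : X.Lf f Q) (r : ℝ) :
    X.Lf (Polynomial.C (Polynomial.C r) * f) (Polynomial.C (Polynomial.C (Polynomial.C r)) * Q) := by
  obtain ⟨N1, a1, b1⟩ := hQ
  refine ⟨N1, fun m j hj => ?_, ?_⟩
  · rw [Polynomial.coeff_C_mul, Polynomial.coeff_C_mul, a1 m j hj, mul_zero]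
  · have e1 : D.τ (Polynomial.C (Polynomial.C r)) =
        Polynomial.C (Polynomial.C (ix (Polynomial.C r))) := by
      rw [τ_C', Dat.sv_C]
    have e2 : ι3 (Polynomial.C (Polynomial.C (Polynomial.C r))) =
        Polynomial.C (Polynomial.C (ix (Polynomial.C r))) := by
      change Polynomial.map _ (Polynomial.C _) = _
      rw [Polynomial.map_C]
      congr 1
      exact Polynomial.map_C ix
    have h1 := b1.mulC (Dat.dle_C r)
    rw [add_zero] at h1
    have h3 : Polynomial.C (Polynomial.C (ix (Polynomial.X ^ (2 * X.k)))) *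
        D.τ (Polynomial.C (Polynomial.C r) * f) -
        ι3 (Polynomial.C (Polynomial.C (Polynomial.C r)) * Q) =
        Polynomial.C (Polynomial.C (ix (Polynomial.C r))) *
        (Polynomial.C (Polynomial.C (ix (Polynomial.X ^ (2 * X.k)))) * D.τ f - ι3 Q) := by
      rw [map_mul, map_mul, e1, e2]
      ring
    rw [h3]
    exact h1

theorem Lf_sum {α : Type} (t : Finset α) (f : α → P2) (Q : α → P3) (h : ∀ i ∈ t, X.Lf (f i) (Q i)) :
    X.Lf (∑ i ∈ t, f i) (∑ i ∈ t, Q i) := by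
  classical
  induction t using Finset.induction_on with
  | empty => rw [Finset.sum_empty, Finset.sum_empty]; exact X.Lf_zero
  | insert a t ha ih =>
    rw [Finset.sum_insert ha, Finset.sum_insert ha]
    exact X.Lf_add (h a (Finset.mem_insert_self _ _))
      (ih fun i hi => h i (Finset.mem_insert_of_mem hi))

/-- the lift of `x ^ (2 k) s ^ i (x w) ^ m` -/
noncomputable def Lam (i m : ℕ) : P3 :=
  Classical.choose (X.exists_Lf (Polynomial.C (Polynomial.X ^ i) * Polynomial.X ^ m))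

theorem Lam_spec (i m : ℕ) :
    X.Lf (Polynomial.C (Polynomial.X ^ i) * Polynomial.X ^ m) (X.Lam i m) :=
  Classical.choose_spec (X.exists_Lf (Polynomial.C (Polynomial.X ^ i) * Polynomial.X ^ m))

/-- the coefficients of the perturbed Motzkin polynomial -/
noncomputable def cf (s0 N ε : ℝ) (i m : ℕ) : ℝ := ((fmot s0 N ε).coeff m).coeff i

/-- the family -/
noncomputable def QQ (s0 N ε : ℝ) : P3 :=
  ∑ m ∈ Finset.range 5, ∑ i ∈ Finset.range 5,
    Polynomial.C (Polynomial.C (Polynomial.C (cf s0 N ε i m))) * X.Lam i m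

/-- polynomials of degree `≤ a` in `z` and `≤ b` in `s` -/
def BD (a b : ℕ) (f : P2) : Prop := f.natDegree ≤ a ∧ ∀ m, (f.coeff m).natDegree ≤ b

theorem BD.add {a b : ℕ} {f g : P2} (hf : BD a b f) (hg : BD a b g) : BD a b (f + g) := by
  refine ⟨(Polynomial.natDegree_add_le _ _).trans (max_le hf.1 hg.1), fun m => ?_⟩
  rw [Polynomial.coeff_add]
  exact (Polynomial.natDegree_add_le _ _).trans (max_le (hf.2 m) (hg.2 m))

theorem BD.neg {a b : ℕ} {f : P2} (hf : BD a b f) : BD a b (-f) := by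
  refine ⟨by rw [Polynomial.natDegree_neg]; exact hf.1, fun m => ?_⟩
  rw [Polynomial.coeff_neg, Polynomial.natDegree_neg]
  exact hf.2 m

theorem BD.sub {a b : ℕ} {f g : P2} (hf : BD a b f) (hg : BD a b g) : BD a b (f - g) := by
  rw [sub_eq_add_neg]; exact hf.add hg.neg

theorem BD.mul {a b a' b' : ℕ} {f g : P2} (hf : BD a b f) (hg : BD a' b' g) :
    BD (a + a') (b + b') (f * g) := by
  refine ⟨Polynomial.natDegree_mul_le.trans (Nat.add_le_add hf.1 hg.1), fun m => ?_⟩
  rw [Polynomial.coeff_mul]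
  refine Polynomial.natDegree_sum_le_of_forall_le _ _ fun p _ => ?_
  exact Polynomial.natDegree_mul_le.trans (Nat.add_le_add (hf.2 _) (hg.2 _))

theorem BD.one : BD 0 0 1 := by
  refine ⟨by simp, fun m => ?_⟩
  rw [Polynomial.coeff_one]
  split_ifs <;> simp

theorem BD.pow {a b : ℕ} {f : P2} (hf : BD a b f) (n : ℕ) : BD (n * a) (n * b) (f ^ n) := by
  induction n with
  | zero => rw [pow_zero, zero_mul, zero_mul]; exact BD.one
  | succ n ih =>
    rw [pow_succ, add_mul, add_mul, one_mul, one_mul]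
    exact ih.mul hf

theorem BD.mono {a b a' b' : ℕ} {f : P2} (hf : BD a b f) (ha : a ≤ a') (hb : b ≤ b') :
    BD a' b' f := ⟨hf.1.trans ha, fun m => (hf.2 m).trans hb⟩

theorem BD.cc (q : P1) {b : ℕ} (h : q.natDegree ≤ b) : BD 0 b (Polynomial.C q) := by
  refine ⟨by rw [Polynomial.natDegree_C], fun m => ?_⟩
  rw [Polynomial.coeff_C]
  split_ifs
  · exact h
  · simp

theorem BD.varX : BD 1 0 (Polynomial.X : P2) := by
  refine ⟨Polynomial.natDegree_X_le, fun m => ?_⟩
  rw [Polynomial.coeff_X]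
  split_ifs <;> simp

theorem BD_fmot (s0 N ε : ℝ) : BD 4 4 (fmot s0 N ε) := by
  have hu : BD 0 1 (Polynomial.C (uu N s0)) := by
    refine BD.cc _ ?_
    rw [uu]
    compute_degree
  have hv : BD 1 0 (vv N) := by
    rw [vv]
    have h1 : BD 0 0 (Polynomial.C (Polynomial.C N)) := BD.cc _ (by simp)
    have h2 : BD 1 0 (Polynomial.X - 1 : P2) := BD.varX.sub (BD.one.mono (by omega) le_rfl)
    exact (h1.mul h2).mono (by omega) (by omega)
  have h3 : BD 0 0 (3 : P2) := by
    have : (3 : P2) = Polynomial.C (3 : P1) := (map_ofNat Polynomial.C 3).symm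
    rw [this]
    refine BD.cc _ ?_
    have h3 : (3 : P1) = Polynomial.C (3 : ℝ) := (map_ofNat Polynomial.C 3).symm
    rw [h3, Polynomial.natDegree_C]
  have hε : BD 0 0 (Polynomial.C (Polynomial.C ε)) := BD.cc _ (by simp)
  rw [fmot, mot]
  refine BD.add (BD.add (BD.add (BD.sub ?_ ?_) ?_) ?_) ?_
  · exact BD.one.mono (by omega) (by omega)
  · exact ((h3.mul (hu.pow 2)).mul (hv.pow 2)).mono (by omega) (by omega)
  · exact ((hu.pow 4).mul (hv.pow 2)).mono (by omega) (by omega)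
  · exact ((hu.pow 2).mul (hv.pow 4)).mono (by omega) (by omega)
  · refine (hε.mul (((BD.one.mono (b' := 0) (Nat.zero_le 4) le_rfl).add
      ((hv.pow 2).mono (a' := 4) (b' := 0) (by omega) (by omega))).add
        ((hv.pow 4).mono (a' := 4) (b' := 0) (by omega) (by omega)))).mono (by omega) (by omega)

theorem BD_expand {f : P2} (hf : BD 4 4 f) : f = ∑ m ∈ Finset.range 5, ∑ i ∈ Finset.range 5,
    Polynomial.C (Polynomial.C ((f.coeff m).coeff i)) *
      (Polynomial.C (Polynomial.X ^ i) * Polynomial.X ^ m) := by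
  conv_lhs => rw [f.as_sum_range_C_mul_X_pow' (n := 5) (by have := hf.1; omega)]
  refine Finset.sum_congr rfl fun m _ => ?_
  conv_lhs => rw [(f.coeff m).as_sum_range_C_mul_X_pow' (n := 5) (by have := hf.2 m; omega)]
  rw [map_sum, Finset.sum_mul]
  refine Finset.sum_congr rfl fun i _ => ?_
  rw [Polynomial.C_mul, mul_assoc]

theorem QQ_Lf (s0 N ε : ℝ) : X.Lf (fmot s0 N ε) (X.QQ s0 N ε) := by
  have h1 := X.Lf_sum (Finset.range 5) (fun m => ∑ i ∈ Finset.range 5,
    Polynomial.C (Polynomial.C (cf s0 N ε i m)) *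
      (Polynomial.C (Polynomial.X ^ i) * Polynomial.X ^ m))
    (fun m => ∑ i ∈ Finset.range 5,
      Polynomial.C (Polynomial.C (Polynomial.C (cf s0 N ε i m))) * X.Lam i m)
    (fun m _ => X.Lf_sum _ _ _ fun i _ => X.Lf_smul (X.Lam_spec i m) _)
  have h2 := BD_expand (BD_fmot s0 N ε)
  rw [h2]
  exact h1

/-- the values of the family lie in `M` up to a small multiple of the weight -/
theorem QQ_pos (s0 N ε : ℝ) (hε : 0 < ε) : Dat.Pos M X.k (X.QQ s0 N ε) :=
  X.good_mot s0 N ε hε _ (X.QQ_Lf s0 N ε)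

theorem Ev_QQ (s0 N ε U : ℝ) : Ev U (X.QQ s0 N ε) = ∑ m ∈ Finset.range 5, ∑ i ∈ Finset.range 5,
    C (cf s0 N ε i m) * Ev U (X.Lam i m) := by
  rw [QQ, map_sum]
  refine Finset.sum_congr rfl fun m _ => ?_
  rw [map_sum]
  refine Finset.sum_congr rfl fun i _ => ?_
  rw [map_mul, Ev_C, Φ_C]
  congr 1
  simp [ax]

/-- degree bound, uniform in `U` -/
theorem Ev_deg (Q : P3) : ∃ d : ℕ, ∀ U : ℝ, (Ev U Q).totalDegree ≤ d := by
  refine ⟨(Finset.range (Q.natDegree + 1)).sup fun m => (Φ (Q.coeff m)).totalDegree, fun U => ?_⟩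
  rw [Ev_sum U Q _ (Nat.lt_succ_self _)]
  refine totalDegree_finsetSum_le fun m hm => ?_
  refine (totalDegree_mul _ _).trans ?_
  rw [totalDegree_C, zero_add]
  exact Finset.le_sup (f := fun m => (Φ (Q.coeff m)).totalDegree) hm

theorem QQ_deg : ∃ d : ℕ, ∀ s0 N ε U : ℝ, (Ev U (X.QQ s0 N ε)).totalDegree ≤ d := by
  choose d hd using fun p : ℕ × ℕ => Ev_deg (X.Lam p.1 p.2)
  refine ⟨((Finset.range 5) ×ˢ (Finset.range 5)).sup d, fun s0 N ε U => ?_⟩
  rw [X.Ev_QQ]
  refine totalDegree_finsetSum_le fun m hm => totalDegree_finsetSum_le fun i hi => ?_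
  refine (totalDegree_mul _ _).trans ?_
  rw [totalDegree_C, zero_add]
  exact (hd (i, m) U).trans (Finset.le_sup (f := d) (Finset.mk_mem_product hi hm))

/-- bounds for the coefficients of `Λ` -/
theorem Lam_bd (i m m' : ℕ) (hi : i < 5) :
    Bd M (X.K0 + (2 * X.r + 4 * D.T.natDegree))
      (Φ (Polynomial.C (D.T ^ i) * (X.Lam i m).coeff m' -
        (if m' = m then Polynomial.C (Polynomial.X ^ (2 * X.k + m)) * D.S ^ i else 0))) := by
  obtain ⟨N, hN, hF⟩ := X.Lam_spec i m
  set E : P2 := Polynomial.C (D.T ^ i) * (X.Lam i m).coeff m' -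
        (if m' = m then Polynomial.C (Polynomial.X ^ (2 * X.k + m)) * D.S ^ i else 0) with hE
  have h1 := hF m'
  rw [Polynomial.coeff_sub, coeff_ι3, Polynomial.coeff_C_mul, Dat.τ_coeff] at h1
  have hcoef : (Polynomial.C (Polynomial.X ^ i) * Polynomial.X ^ m : P2).coeff m' =
      if m' = m then Polynomial.X ^ i else 0 := by
    rw [Polynomial.coeff_C_mul, Polynomial.coeff_X_pow]
    split_ifs <;> simp
  rw [hcoef] at h1
  have h2 := (h1.mulC (Dle.poly (D.T ^ i) (d := i * D.T.natDegree)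
    Polynomial.natDegree_pow_le)).neg
  have hT : (Polynomial.C (ix D.T) : Q2) ^ i * D.s ^ i = ι D.S ^ i := by
    rw [← mul_pow, ← Dat.ιS]
  have hιE : ι E = -(Polynomial.C (ix (D.T ^ i)) *
      (Polynomial.C (ix (Polynomial.X ^ (2 * X.k))) *
        (Polynomial.C (ix (Polynomial.X ^ m')) * D.sv (if m' = m then Polynomial.X ^ i else 0)) -
        ι ((X.Lam i m).coeff m'))) := by
    rw [hE, map_sub, map_mul, Dat.ι_C]
    split_ifs with h
    · subst h
      rw [map_mul, Dat.ι_C, RingHom.map_pow ι, ← hT, RingHom.map_pow D.sv, Dat.sv_X, pow_add,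
        RingHom.map_mul ix (Polynomial.X ^ (2 * X.k)), Polynomial.C_mul, RingHom.map_pow ix D.T,
        Polynomial.C_pow]
      ring
    · rw [map_zero, map_zero]
      ring
  have hle : (2 * X.r : ℕ) + ((i * D.T.natDegree : ℕ) : ℤ) ≤
      ((2 * X.r + 4 * D.T.natDegree : ℕ) : ℤ) := by
    have : i * D.T.natDegree ≤ 4 * D.T.natDegree := Nat.mul_le_mul_right _ (by omega)
    exact_mod_cast (by omega : 2 * X.r + i * D.T.natDegree ≤ 2 * X.r + 4 * D.T.natDegree)
  have h3 : D.FF N ((2 * X.r + 4 * D.T.natDegree : ℕ) : ℤ) (ι E) := by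
    rw [hιE]
    exact h2.mono le_rfl hle
  have h4 : ∀ j, N ≤ j → E.coeff j = 0 := by
    intro j hj
    have h5 := D.FF_coeff h3 hj
    rw [Dat.coeff_ι] at h5
    exact ix_inj (by rw [h5, map_zero])
  refine D.claim X.hM X.hT X.hc0.le X.hS X.hL X.hK0 ?_ N E h4 h3
  have := X.hr
  omega

end Ctx

end Pool.Agent.Helper10.TI
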