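import Pool.Agent.Helper10.TI.Zoom

set_option autoImplicit false

/-!
# MP_63c74b: the limit along the tentacle
-/

open MvPolynomial Pool.Agent.Helper68.QM Filter Topology

namespace Pool.Agent.Helper10.TI

namespace Ctx

variable {g f : A} {D : Dat} (X : Ctx (fun F => InM g (f * F)) D)

theorem PP_lim (hK' : X.K' < 2 * X.k) (t : Tent) (q : P1) (σ1 : ℝ)
    (hq : q.derivative.eval σ1 ≠ 0)
    (hseq : ∀ (v σ c : ℕ → ℝ) (σ1 : ℝ), Tendsto v atTop atTop → Tendsto σ atTop (𝓝 σ1) →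
        Tendsto (fun n => c n / v n) atTop (𝓝 0) →
        Tendsto (fun n => c n * (eval (t.pt (v n) (σ n)) (Φ D.S) / D.T.eval (v n ^ t.e) -
          q.eval (σ n))) atTop (𝓝 0)) (V : ℕ → ℝ) (hV1 : ∀ n, 1 ≤ V n)
    (hV2 : ∀ n : ℕ, ((n : ℝ) + 1) ^ 2 ≤ V n)
    (hV3 : ∀ n : ℕ, ((n : ℝ) + 1) * csum (q.eval σ1) ((n : ℝ) + 1) (1 / ((n : ℝ) + 1)) ≤ V n)
    (w : Fin 2 → ℝ)
    (hgood : ∀ᶠ n in atTop, 0 < eval (t.pt (V n * zt t.e w n)
      (sg σ1 (q.derivative.eval σ1) w n)) g ∧ 0 < eval (t.pt (V n * zt t.e w n)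
      (sg σ1 (q.derivative.eval σ1) w n)) f) :
    Tendsto (fun n => eval (t.pt (V n * zt t.e w n) (sg σ1 (q.derivative.eval σ1) w n))
      (X.PP (q.eval σ1) (fun n => V n ^ t.e) n) / (V n ^ t.e) ^ (2 * X.k)) atTop
      (𝓝 (mot (w 0) (w 1))) := by
  obtain ⟨c, hc, hval⟩ := X.QQ_val
  set δ := q.derivative.eval σ1 with hδ
  set s0 := q.eval σ1 with hs0
  set v : ℕ → ℝ := fun n => V n * zt t.e w n with hv
  set σ : ℕ → ℝ := sg σ1 δ w with hσ
  have hzt := tendsto_zt t.e w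
  have hVtop : Tendsto V atTop atTop := by
    refine tendsto_atTop_mono (fun n => hV2 n) ?_
    have h1 : Tendsto (fun n : ℕ => (n : ℝ) + 1) atTop atTop :=
      tendsto_atTop_add_const_right _ _ tendsto_natCast_atTop_atTop
    exact (tendsto_pow_atTop two_ne_zero).comp h1
  have hvtop : Tendsto v atTop atTop := hVtop.atTop_mul_pos one_pos hzt
  have hσt : Tendsto σ atTop (𝓝 σ1) := tendsto_sg σ1 δ w
  -- the quotient `S / T`
  set s : ℕ → ℝ := fun n => eval (t.pt (v n) (σ n)) (Φ D.S) / D.T.eval (v n ^ t.e) with hs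
  have hcv : Tendsto (fun n : ℕ => ((n : ℝ) + 1) / v n) atTop (𝓝 0) := by
    have h1 : Tendsto (fun n : ℕ => ((n : ℝ) + 1) / V n) atTop (𝓝 0) := by
      refine squeeze_zero (fun n => ?_) (fun n => ?_) (tendsto_inv_nat 1)
      · have := hV1 n
        positivity
      · have hn : (0 : ℝ) < (n : ℝ) + 1 := by positivity
        have hVn : 0 < V n := by have := hV1 n; linarith
        rw [div_le_div_iff₀ hVn hn]
        have := hV2 n
        nlinarith
    have h2 := h1.div hzt one_ne_zero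
    rw [zero_div] at h2
    refine h2.congr fun n => ?_
    simp only [Pi.div_apply, hv]
    rw [div_div]
  have hu : Tendsto (fun n : ℕ => ((n : ℝ) + 1) * (s n - s0)) atTop (𝓝 (w 0)) := by
    have h1 := (hseq v σ (fun n => (n : ℝ) + 1) σ1 hvtop hσt hcv).add (sg_q q σ1 hq w)
    rw [zero_add] at h1
    refine h1.congr fun n => ?_
    simp only [hs, hσ, hδ]
    ring
  have hz : Tendsto (fun n : ℕ => ((n : ℝ) + 1) * (zt t.e w n ^ t.e - 1)) atTop (𝓝 (w 1)) :=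
    zt_pow t.e t.he w
  have hε : Tendsto (fun n : ℕ => 1 / ((n : ℝ) + 1)) atTop (𝓝 0) := tendsto_inv_nat 1
  have hze : Tendsto (fun n => zt t.e w n ^ t.e) atTop (𝓝 1) := by
    have := hzt.pow t.e
    rwa [one_pow] at this
  -- the main term
  set main : ℕ → ℝ := fun n => (zt t.e w n ^ t.e) ^ (2 * X.k) *
    (mot (((n : ℝ) + 1) * (s n - s0)) (((n : ℝ) + 1) * (zt t.e w n ^ t.e - 1)) +
      1 / ((n : ℝ) + 1) * (1 + (((n : ℝ) + 1) * (zt t.e w n ^ t.e - 1)) ^ 2 +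
        (((n : ℝ) + 1) * (zt t.e w n ^ t.e - 1)) ^ 4)) +
      1 / ((n : ℝ) + 1) * (1 + (zt t.e w n ^ t.e) ^ (2 * X.k)) with hmain
  have hmlim : Tendsto main atTop (𝓝 (mot (w 0) (w 1))) := by
    have h1 := ((hze.pow (2 * X.k)).mul ((tendsto_mot hu hz).add
      (hε.mul ((tendsto_const_nhds (x := (1 : ℝ))).add (hz.pow 2) |>.add (hz.pow 4))))).add
      (hε.mul ((tendsto_const_nhds (x := (1 : ℝ))).add (hze.pow (2 * X.k))))
    have h2 : (1 : ℝ) ^ (2 * X.k) * (mot (w 0) (w 1) + 0 * (1 + w 1 ^ 2 + w 1 ^ 4)) +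
        0 * (1 + 1 ^ (2 * X.k)) = mot (w 0) (w 1) := by
      rw [one_pow]; ring
    rw [h2] at h1
    exact h1
  -- the error
  have herr : Tendsto (fun n => eval (t.pt (v n) (σ n)) (X.PP s0 (fun n => V n ^ t.e) n) /
      (V n ^ t.e) ^ (2 * X.k) - main n) atTop (𝓝 0) := by
    have h2ev : ∀ᶠ n in atTop, 0 < zt t.e w n ∧ zt t.e w n ^ t.e < 2 ∧ 1 ≤ v n :=
      (hzt.eventually (lt_mem_nhds one_pos)).and
        ((hze.eventually (gt_mem_nhds (by norm_num : (1 : ℝ) < 2))).and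
          (hvtop.eventually_ge_atTop 1))
    refine squeeze_zero_norm' ?_ (tendsto_inv_nat (c * 2 ^ X.K'))
    filter_upwards [hgood, h2ev] with n hn hn2
    obtain ⟨hg, hf⟩ := hn
    obtain ⟨hz0, hz2, hv1⟩ := hn2
    have hn1 : (0 : ℝ) < (n : ℝ) + 1 := by positivity
    set U := V n ^ t.e with hU
    set ζ := zt t.e w n ^ t.e with hζ
    have hVU : V n ≤ U := le_self_pow₀ (hV1 n) t.he.ne'
    have hU1 : 1 ≤ U := (hV1 n).trans hVU
    have hU0 : 0 < U := by linarith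
    have hζ0 : 0 < ζ := by positivity
    set z := t.pt (v n) (σ n) with hzdef
    have hzz : z 0 = U * ζ := by
      rw [hzdef, Tent.pt_zero, hv, mul_pow]
    have hz1 : 1 ≤ z 0 := by
      rw [hzdef, Tent.pt_zero]
      exact one_le_pow₀ hv1
    have hT1 : 1 ≤ |D.T.eval (z 0)| := by
      have h1 := X.hT.eval_nonneg z hg.le
      rw [map_mul] at h1
      have h2 := (mul_nonneg_iff_of_pos_left hf).1 h1
      rw [map_sub, map_pow, map_one, eval_ax] at h2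
      have h3 : 1 ≤ |D.T.eval (z 0)| ^ 2 := by rw [sq_abs]; linarith
      by_contra hcon
      push Not at hcon
      have := pow_lt_one₀ (abs_nonneg (D.T.eval (z 0))) hcon two_ne_zero
      linarith
    have h1 := hval s0 ((n : ℝ) + 1) (1 / ((n : ℝ) + 1)) z hg.le hf hz1 hT1 U hU1
    have hzU : z 0 / U = ζ := by
      rw [hzz, mul_div_cancel_left₀ _ hU0.ne']
    have hsn : eval z (Φ D.S) / D.T.eval (z 0) = s n := by
      rw [hs, hzdef, Tent.pt_zero]
    rw [hzU, hsn, hzz] at h1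
    have h2 : eval z (X.PP s0 (fun n => V n ^ t.e) n) =
        eval z (Ev U (X.QQ s0 ((n : ℝ) + 1) (1 / ((n : ℝ) + 1)))) +
        1 / ((n : ℝ) + 1) * (U ^ (2 * X.k) + (U * ζ) ^ (2 * X.k)) := by
      have hX : eval z (MvPolynomial.X 0 : A) = U * ζ := by rw [eval_X, hzz]
      simp only [PP, map_add, Dat.Wt, map_mul, map_pow, eval_C, hX, ← hU]
    have hUk : 0 < U ^ (2 * X.k) := by positivity
    have h3 : eval z (X.PP s0 (fun n => V n ^ t.e) n) / U ^ (2 * X.k) - main n =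
        (eval z (Ev U (X.QQ s0 ((n : ℝ) + 1) (1 / ((n : ℝ) + 1)))) - (U * ζ) ^ (2 * X.k) *
        (mot (((n : ℝ) + 1) * (s n - s0)) (((n : ℝ) + 1) * (ζ - 1)) +
          1 / ((n : ℝ) + 1) * (1 + (((n : ℝ) + 1) * (ζ - 1)) ^ 2 +
            (((n : ℝ) + 1) * (ζ - 1)) ^ 4))) / U ^ (2 * X.k) := by
      rw [h2, hmain, mul_pow]
      simp only [← hζ]
      field_simp
      ring
    rw [h3, Real.norm_eq_abs, abs_div, abs_of_pos hUk, div_le_div_iff₀ hUk hn1]
    have h4 : (U * ζ) ^ X.K' ≤ 2 ^ X.K' * U ^ X.K' := by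
      rw [show (2 : ℝ) ^ X.K' * U ^ X.K' = (2 * U) ^ X.K' from (mul_pow _ _ _).symm]
      exact pow_le_pow_left₀ (show 0 ≤ U * ζ by positivity) (show U * ζ ≤ 2 * U by nlinarith) _
    have h5 : U ^ X.K' * U ≤ U ^ (2 * X.k) := by
      rw [← pow_succ]
      exact pow_le_pow_right₀ hU1 (by omega)
    have h6 := hV3 n
    have h7 := csum_nonneg s0 ((n : ℝ) + 1) (1 / ((n : ℝ) + 1))
    set S := csum s0 ((n : ℝ) + 1) (1 / ((n : ℝ) + 1)) with hS
    have h8 : ((n : ℝ) + 1) * S ≤ U := h6.trans hVU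
    calc _ ≤ c * S * (U * ζ) ^ X.K' * ((n : ℝ) + 1) := mul_le_mul_of_nonneg_right h1 hn1.le
      _ ≤ c * S * (2 ^ X.K' * U ^ X.K') * ((n : ℝ) + 1) := by gcongr
      _ = c * 2 ^ X.K' * (U ^ X.K' * (((n : ℝ) + 1) * S)) := by ring
      _ ≤ c * 2 ^ X.K' * (U ^ X.K' * U) := by gcongr
      _ ≤ c * 2 ^ X.K' * U ^ (2 * X.k) := by gcongr
  have h9 := herr.add hmlim
  rw [zero_add] at h9
  refine h9.congr fun n => ?_
  ring

end Ctx

end Pool.Agent.Helper10.TI
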