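import Pool.Agent.Helper10.TI.Core2

set_option autoImplicit false

/-!
# MP_63c74b: a tentacle excludes stability
-/

open MvPolynomial Pool.Agent.Helper68.QM Filter Topology

namespace Pool.Agent.Helper10.TI

/-- restriction of a polynomial to a vertical line -/
noncomputable def vert (x : ℝ) (P : A) : P1 := aeval ![Polynomial.C x, Polynomial.X] P

theorem vert_eval (x y : ℝ) (P : A) : (vert x P).eval y = eval ![x, y] P := by
  rw [vert]
  induction P using MvPolynomial.induction_on with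
  | C c => rw [aeval_C, eval_C]; simp
  | add p q hp hq => rw [map_add, Polynomial.eval_add, map_add, hp, hq]
  | mul_X p i hp =>
    rw [map_mul, Polynomial.eval_mul, map_mul, hp, aeval_X, eval_X]
    congr 1
    fin_cases i <;> simp

/-- a polynomial vanishing along the whole tentacle is zero -/
theorem zero_of_tent (D : Dat) (t : Tent) (a b : ℝ) (h : ℝ → ℝ)
    (hconv : ∀ σ, a < σ → σ < b →
      Tendsto (fun v => eval (t.pt v σ) (Φ D.S) / D.T.eval (v ^ t.e)) atTop (𝓝 (h σ)))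
    (hnc : ∃ σ σ', (a < σ ∧ σ < b) ∧ (a < σ' ∧ σ' < b) ∧ h σ ≠ h σ') (f : A)
    (hf : ∀ v σ : ℝ, v ≠ 0 → eval (t.pt v σ) f = 0) : f = 0 := by
  obtain ⟨σ, σ', ⟨h1, h2⟩, ⟨h3, h4⟩, h5⟩ := hnc
  -- for large `v` the second coordinate depends on `σ`
  have hev : ∀ᶠ v : ℝ in atTop, t.pt v σ ≠ t.pt v σ' := by
    have e1 := (hconv σ h1 h2).sub (hconv σ' h3 h4)
    have e2 := e1.eventually_ne (sub_ne_zero.2 h5)
    filter_upwards [e2] with v hv hcon
    apply hv
    rw [hcon, sub_self]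
  obtain ⟨R, hR⟩ := eventually_atTop.1 hev
  -- the restriction of `f` to the vertical lines far away is zero
  have hvert : ∀ v : ℝ, R ≤ v → 0 < v → vert (v ^ t.e) f = 0 := by
    intro v hv hv0
    set q : P1 := Polynomial.C (1 / v ^ t.r) * vert v t.Y with hq
    have hqe : ∀ τ, q.eval τ = t.pt v τ 1 := by
      intro τ
      rw [hq, Polynomial.eval_mul, Polynomial.eval_C, vert_eval, Tent.pt_one]
      ring
    have hcomp : (vert (v ^ t.e) f).comp q = 0 := by
      apply Polynomial.funext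
      intro τ
      rw [Polynomial.eval_comp, hqe, vert_eval, Polynomial.eval_zero]
      have h6 : (![v ^ t.e, t.pt v τ 1] : Fin 2 → ℝ) = t.pt v τ := by
        ext i; fin_cases i <;> rfl
      rw [h6]
      exact hf v τ hv0.ne'
    rcases Polynomial.comp_eq_zero_iff.1 hcomp with h6 | ⟨-, h6⟩
    · exact h6
    · exfalso
      apply hR v hv
      have h7 : t.pt v σ 1 = t.pt v σ' 1 := by
        rw [← hqe, ← hqe, h6, Polynomial.eval_C, Polynomial.eval_C]
      ext i
      fin_cases i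
      · rfl
      · exact h7
  -- conclusion
  refine eq_zero_of_vanish (g := (X 0 - C (max R 1 ^ t.e) : A)) ![max R 1 ^ t.e + 1, 0] ?_ f
    fun z hz => ?_
  · simp
  · rw [map_sub, eval_X, eval_C, sub_pos] at hz
    have hm : (0 : ℝ) ≤ max R 1 := (zero_le_one).trans (le_max_right _ _)
    have hz0 : 0 ≤ z 0 := (pow_nonneg hm _).trans hz.le
    set v : ℝ := z 0 ^ ((t.e : ℝ)⁻¹) with hv
    have hve : v ^ t.e = z 0 := Real.rpow_inv_natCast_pow hz0 t.he.ne'
    have hvm : max R 1 ≤ v := by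
      by_contra hcon
      push Not at hcon
      have hv0 : 0 ≤ v := Real.rpow_nonneg hz0 _
      have := pow_le_pow_left₀ hv0 hcon.le t.e
      rw [hve] at this
      linarith
    have h6 := hvert v ((le_max_left _ _).trans hvm) (lt_of_lt_of_le one_pos
      ((le_max_right _ _).trans hvm))
    have h7 : z = ![v ^ t.e, z 1] := by
      rw [hve]
      ext i; fin_cases i <;> rfl
    rw [h7, ← vert_eval, h6, Polynomial.eval_zero]

theorem even_X_pow (n : ℕ) : IsSumSq (X 0 ^ (2 * n) : A) := by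
  rw [mul_comm, pow_mul]
  exact isSumSq_sq _

/-- **Tentacles exclude stability.** -/
theorem core (g f : A) (D : Dat) (X : Ctx (fun F => InM g (f * F)) D) (hK' : X.K' < 2 * X.k)
    (hf : InM g f) (hf0 : f ≠ 0) (t : Tent) (a b : ℝ) (hab : a < b) (h : ℝ → ℝ)
    (hconv : ∀ σ, a < σ → σ < b →
      Tendsto (fun v => eval (t.pt v σ) (Φ D.S) / D.T.eval (v ^ t.e)) atTop (𝓝 (h σ)))
    (hnc : ∃ σ σ', (a < σ ∧ σ < b) ∧ (a < σ' ∧ σ' < b) ∧ h σ ≠ h σ')
    (hg : ∀ σ, a < σ → σ < b → ∀ᶠ v in atTop, 0 < eval (t.pt v σ) g) : ¬ Stable g := by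
  intro hst
  obtain ⟨q, hq, hseq⟩ := ratio D t a b hab h hconv
  -- the numerators of `f` and `g`
  obtain ⟨Qf, -, hQf⟩ := t.lift f (2 * f.totalDegree) (by omega)
  obtain ⟨Qg, -, hQg⟩ := t.lift g (2 * g.totalDegree) (by omega)
  have hQf0 : Qf ≠ 0 := by
    intro h0
    apply hf0
    refine zero_of_tent D t a b h hconv hnc f fun v σ hv => ?_
    have h1 := hQf v σ hv
    rw [h0, map_zero] at h1
    rcases mul_eq_zero.1 h1.symm with h2 | h2
    · exact absurd h2 (pow_ne_zero _ hv)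
    · exact h2
  have hQg0 : Qg ≠ 0 := by
    intro h0
    obtain ⟨σ, hσ1, hσ2⟩ := exists_between hab
    obtain ⟨v, hv1, hv2⟩ := ((hg σ hσ1 hσ2).and (eventually_gt_atTop 0)).exists
    have h1 := hQg v σ hv2.ne'
    rw [h0, map_zero] at h1
    have h2 : 0 < v ^ (t.r * (2 * g.totalDegree)) * eval (t.pt v σ) g := by positivity
    linarith
  set Jf := (Ψ Qf).natDegree with hJf
  set Jg := (Ψ Qg).natDegree with hJg
  -- the derivative
  have hq' : q.derivative ≠ 0 := by
    intro h0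
    obtain ⟨σ, σ', ⟨h1, h2⟩, ⟨h3, h4⟩, h5⟩ := hnc
    apply h5
    have h6 := Polynomial.eq_C_of_derivative_eq_zero h0
    rw [← hq σ h1 h2, ← hq σ' h3 h4, h6, Polynomial.eval_C, Polynomial.eval_C]
  -- the point
  obtain ⟨σ1, h1, h2, h3⟩ : ∃ σ1, a < σ1 ∧ σ1 < b ∧
      (q.derivative * (Ψ Qf).coeff Jf * (Ψ Qg).coeff Jg).eval σ1 ≠ 0 := by
    by_contra hcon
    push Not at hcon
    have h1 := poly_zero_of_Ioo _ a b hab hcon
    have h2 : (Ψ Qf).coeff Jf ≠ 0 := Polynomial.leadingCoeff_ne_zero.2 (Ψ_ne hQf0)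
    have h3 : (Ψ Qg).coeff Jg ≠ 0 := Polynomial.leadingCoeff_ne_zero.2 (Ψ_ne hQg0)
    exact mul_ne_zero (mul_ne_zero hq' h2) h3 h1
  rw [Polynomial.eval_mul, Polynomial.eval_mul] at h3
  set δ := q.derivative.eval σ1 with hδ
  set φ := ((Ψ Qf).coeff Jf).eval σ1 with hφ
  set γ := ((Ψ Qg).coeff Jg).eval σ1 with hγ
  have hδ0 : δ ≠ 0 := left_ne_zero_of_mul (left_ne_zero_of_mul h3)
  have hφ0 : φ ≠ 0 := right_ne_zero_of_mul (left_ne_zero_of_mul h3)
  have hγ0 : γ ≠ 0 := right_ne_zero_of_mul h3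
  have hγp : 0 < γ := by
    refine lt_of_le_of_ne (lead_nonneg Qg Jg le_rfl σ1 ?_) hγ0.symm
    filter_upwards [hg σ1 h1 h2, eventually_gt_atTop 0] with v hv hv0
    rw [hQg v σ1 hv0.ne']
    positivity
  have hφp : 0 < φ := by
    refine lt_of_le_of_ne (lead_nonneg Qf Jf le_rfl σ1 ?_) hφ0.symm
    filter_upwards [hg σ1 h1 h2, eventually_gt_atTop 0] with v hv hv0
    rw [hQf v σ1 hv0.ne']
    have := hf.eval_nonneg _ hv.le
    positivity
  -- the radii and the polynomials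
  set s0 := q.eval σ1 with hs0
  obtain ⟨V, hV1, hV2, hV3, hV4⟩ := X.exists_V s0
  set U : ℕ → ℝ := fun n => V n ^ t.e with hU
  have hmem := hV4 U fun n => le_self_pow₀ (hV1 n) t.he.ne'
  obtain ⟨l, hl⟩ := hst
  obtain ⟨d, hd⟩ := X.PP_deg
  set D0 := f.totalDegree + d with hD0
  choose α β hα hβ hαβ hαd hβd using fun n => hl D0 _ (hmem n)
    ((totalDegree_mul _ _).trans (Nat.add_le_add_left (hd s0 U n) _))
  have hg0 : g ≠ 0 := by
    rintro rfl
    obtain ⟨v, hv⟩ := (hg σ1 h1 h2).exists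
    simp at hv
  set L := l D0 with hL
  choose α1 hα1 hα1d hα1e using fun n => t.lift_ss (α n) L ((hαd n).trans (by omega)) (hα n)
  choose β1 hβ1 hβ1d hβ1e using fun n => t.lift_ss (β n) L
    (((deg_right hg0).trans (hβd n)).trans (by omega)) (hβ n)
  set nf := t.r * (2 * f.totalDegree) with hnf
  set ng := t.r * (2 * g.totalDegree) with hng
  -- the zoom
  set aff : ℕ → Fin 2 → A := fun n => ![C (V n) * (1 + C (1 / (t.e : ℝ) / ((n : ℝ) + 1)) * MvPolynomial.X 1),
    C σ1 + C (1 / δ / ((n : ℝ) + 1)) * MvPolynomial.X 0] with haff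
  have haffd : ∀ n i, (aff n i).totalDegree ≤ 1 := by
    intro n i
    fin_cases i
    · change (C (V n) * (1 + C (1 / (t.e : ℝ) / ((n : ℝ) + 1)) * MvPolynomial.X 1) : A).totalDegree ≤ 1
      refine (totalDegree_mul _ _).trans ?_
      rw [totalDegree_C, zero_add]
      refine (totalDegree_add _ _).trans (max_le (by simp) ?_)
      refine (totalDegree_mul _ _).trans ?_
      rw [totalDegree_C, totalDegree_X]
    · change (C σ1 + C (1 / δ / ((n : ℝ) + 1)) * MvPolynomial.X 0 : A).totalDegree ≤ 1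
      refine (totalDegree_add _ _).trans (max_le (by simp) ?_)
      refine (totalDegree_mul _ _).trans ?_
      rw [totalDegree_C, totalDegree_X]
  have haffe : ∀ n (w : Fin 2 → ℝ) (P : A), eval w (aeval (aff n) P) =
      eval ![V n * zt t.e w n, sg σ1 δ w n] P := by
    intro n w P
    rw [eval_aeval']
    congr 2
    ext i
    fin_cases i
    · change eval w (C (V n) * (1 + C (1 / (t.e : ℝ) / ((n : ℝ) + 1)) * MvPolynomial.X 1)) =
        V n * zt t.e w n
      simp only [map_mul, map_add, map_one, eval_C, eval_X, zt]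
      ring
    · change eval w (C σ1 + C (1 / δ / ((n : ℝ) + 1)) * MvPolynomial.X 0) = sg σ1 δ w n
      simp only [map_mul, map_add, eval_C, eval_X, sg]
      ring
  have hV0 : ∀ n, 0 < V n := fun n => lt_of_lt_of_le one_pos (hV1 n)
  set κ : ℕ → ℝ := fun n => 1 / (V n ^ (2 * (t.r * L) + ng + Jf) * U n ^ (2 * X.k)) with hκ
  have hU0 : ∀ n, 0 < U n := fun n => pow_pos (hV0 n) _
  have hκ0 : ∀ n, 0 < κ n := fun n => by
    have := hV0 n
    have := hU0 n
    simp only [hκ]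
    positivity
  set K := (nf + ng) + 2 * (L * (t.e + t.Y.totalDegree + t.r)) with hK
  set a' : ℕ → A := fun n => C (κ n) * aeval (aff n) (MvPolynomial.X 0 ^ (nf + ng) * α1 n) with ha'
  set b' : ℕ → A := fun n => C (κ n * V n ^ Jg) * aeval (aff n) (MvPolynomial.X 0 ^ nf * β1 n) with hb'
  have hnf2 : nf = 2 * (t.r * f.totalDegree) := by rw [hnf]; ring
  have hng2 : ng = 2 * (t.r * g.totalDegree) := by rw [hng]; ring
  have ha'ss : ∀ n, IsSumSq (a' n) := fun n => by
    refine IsSumSq.mul (isSumSq_C (hκ0 n).le) (IsSumSq.aeval (IsSumSq.mul ?_ (hα1 n)) _)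
    rw [hnf2, hng2, ← mul_add]
    exact even_X_pow _
  have hb'ss : ∀ n, IsSumSq (b' n) := fun n => by
    refine IsSumSq.mul (isSumSq_C (mul_nonneg (hκ0 n).le (pow_nonneg (hV0 n).le _)))
      (IsSumSq.aeval (IsSumSq.mul ?_ (hβ1 n)) _)
    rw [hnf2]
    exact even_X_pow _
  have ha'd : ∀ n, (a' n).totalDegree ≤ 2 * K := fun n => by
    refine (totalDegree_mul _ _).trans ?_
    rw [totalDegree_C, zero_add]
    refine (deg_aeval _ 1 (haffd n) _).trans ?_
    rw [one_mul]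
    refine (totalDegree_mul _ _).trans ?_
    rw [totalDegree_X_pow]
    have := hα1d n
    omega
  have hb'd : ∀ n, (b' n).totalDegree ≤ 2 * K := fun n => by
    refine (totalDegree_mul _ _).trans ?_
    rw [totalDegree_C, zero_add]
    refine (deg_aeval _ 1 (haffd n) _).trans ?_
    rw [one_mul]
    refine (totalDegree_mul _ _).trans ?_
    rw [totalDegree_X_pow]
    have := hβ1d n
    omega
  -- limits
  have hVtop : Tendsto V atTop atTop := by
    refine tendsto_atTop_mono (fun n => hV2 n) ?_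
    have h1 : Tendsto (fun n : ℕ => (n : ℝ) + 1) atTop atTop :=
      tendsto_atTop_add_const_right _ _ tendsto_natCast_atTop_atTop
    exact (tendsto_pow_atTop two_ne_zero).comp h1
  have hvtop : ∀ w : Fin 2 → ℝ, Tendsto (fun n => V n * zt t.e w n) atTop atTop := fun w =>
    hVtop.atTop_mul_pos one_pos (tendsto_zt t.e w)
  -- dividing by a power of `V` instead of a power of `v`
  have hscale : ∀ (w : Fin 2 → ℝ) (Q : A) (J : ℕ) (c : ℝ),
      Tendsto (fun n => eval ![V n * zt t.e w n, sg σ1 δ w n] Q / (V n * zt t.e w n) ^ J) atTop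
        (𝓝 c) →
      Tendsto (fun n => eval ![V n * zt t.e w n, sg σ1 δ w n] Q / V n ^ J) atTop (𝓝 c) := by
    intro w Q J c hc
    have h4 := hc.mul ((tendsto_zt t.e w).pow J)
    rw [one_pow, mul_one] at h4
    refine h4.congr' ?_
    filter_upwards [(tendsto_zt t.e w).eventually (lt_mem_nhds one_pos)] with n hn
    have h5 : zt t.e w n ^ J ≠ 0 := pow_ne_zero _ hn.ne'
    have h6 : V n ^ J ≠ 0 := pow_ne_zero _ (hV0 n).ne'
    rw [mul_pow]
    field_simp
  have hG : ∀ w : Fin 2 → ℝ, Tendsto (fun n => eval ![V n * zt t.e w n, sg σ1 δ w n] Qg /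
      V n ^ Jg) atTop (𝓝 γ) := fun w =>
    hscale w _ _ _ (asym Qg Jg le_rfl _ _ σ1 (hvtop w) (tendsto_sg σ1 δ w))
  have hFf : ∀ w : Fin 2 → ℝ, Tendsto (fun n => eval ![V n * zt t.e w n, sg σ1 δ w n] Qf /
      V n ^ Jf) atTop (𝓝 φ) := fun w =>
    hscale w _ _ _ (asym Qf Jf le_rfl _ _ σ1 (hvtop w) (tendsto_sg σ1 δ w))
  have hgood : ∀ w : Fin 2 → ℝ, ∀ᶠ n in atTop,
      0 < eval (t.pt (V n * zt t.e w n) (sg σ1 δ w n)) g ∧
      0 < eval (t.pt (V n * zt t.e w n) (sg σ1 δ w n)) f := by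
    intro w
    filter_upwards [(hG w).eventually (lt_mem_nhds hγp), (hFf w).eventually (lt_mem_nhds hφp),
      (hvtop w).eventually_gt_atTop 0] with n hn1 hn2 hn3
    have h4 : 0 < V n ^ Jg := pow_pos (hV0 n) _
    have h5 : 0 < V n ^ Jf := pow_pos (hV0 n) _
    rw [lt_div_iff₀ h4, zero_mul, hQg _ _ hn3.ne'] at hn1
    rw [lt_div_iff₀ h5, zero_mul, hQf _ _ hn3.ne'] at hn2
    exact ⟨(mul_pos_iff_of_pos_left (pow_pos hn3 _)).1 hn1,
      (mul_pos_iff_of_pos_left (pow_pos hn3 _)).1 hn2⟩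
  have hF : ∀ w : Fin 2 → ℝ, Tendsto (fun n => eval w (a' n) + eval w (b' n) *
      (eval ![V n * zt t.e w n, sg σ1 δ w n] Qg / V n ^ Jg)) atTop
      (𝓝 (φ * mot (w 0) (w 1))) := by
    intro w
    have h4 := (((tendsto_zt t.e w).pow (2 * (t.r * L) + ng)).mul (hFf w)).mul
      (X.PP_lim hK' t q σ1 hδ0 hseq V hV1 hV2 hV3 w (hgood w))
    rw [one_pow, one_mul] at h4
    refine h4.congr' ?_
    filter_upwards [(hvtop w).eventually_gt_atTop 0,
      (tendsto_zt t.e w).eventually (lt_mem_nhds one_pos)] with n hn hz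
    set v := V n * zt t.e w n with hv
    set σ := sg σ1 δ w n with hσ
    have hv0' : (![v, σ] : Fin 2 → ℝ) 0 = v := rfl
    have hA : eval w (a' n) = κ n * (v ^ (nf + ng) * (v ^ (2 * (t.r * L)) *
        eval (t.pt v σ) (α n))) := by
      change eval w (C (κ n) * aeval (aff n) (MvPolynomial.X 0 ^ (nf + ng) * α1 n)) = _
      rw [RingHom.map_mul (eval w), eval_C, haffe, RingHom.map_mul (eval _),
        RingHom.map_pow (eval _), eval_X, hα1e n _ _ hn.ne']
      rfl
    have hB : eval w (b' n) = κ n * V n ^ Jg * (v ^ nf * (v ^ (2 * (t.r * L)) *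
        eval (t.pt v σ) (β n))) := by
      change eval w (C (κ n * V n ^ Jg) * aeval (aff n) (MvPolynomial.X 0 ^ nf * β1 n)) = _
      rw [RingHom.map_mul (eval w), eval_C, haffe, RingHom.map_mul (eval _),
        RingHom.map_pow (eval _), eval_X, hβ1e n _ _ hn.ne']
      rfl
    rw [hA, hB, hQg _ _ hn.ne', hQf _ _ hn.ne']
    have h5 := congrArg (eval (t.pt v σ)) (hαβ n)
    rw [map_mul, map_add, map_mul] at h5
    have hVne : V n ≠ 0 := (hV0 n).ne'
    have hUne : U n ≠ 0 := (hU0 n).ne'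
    have hzt : zt t.e w n ^ (2 * (t.r * L) + ng) = v ^ (2 * (t.r * L) + ng) /
        V n ^ (2 * (t.r * L) + ng) := by
      rw [hv, mul_pow]
      have : V n ^ (2 * (t.r * L) + ng) ≠ 0 := pow_ne_zero _ hVne
      field_simp
    have hVJg : V n ^ Jg ≠ 0 := pow_ne_zero _ hVne
    have hVJf : V n ^ Jf ≠ 0 := pow_ne_zero _ hVne
    have hVL : V n ^ (2 * (t.r * L) + ng) ≠ 0 := pow_ne_zero _ hVne
    have hUk : U n ^ (2 * X.k) ≠ 0 := pow_ne_zero _ hUne
    rw [hzt]
    have hPP : eval (t.pt v σ) f * eval (t.pt v σ) (X.PP s0 U n) =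
      eval (t.pt v σ) (α n) + eval (t.pt v σ) (β n) * eval (t.pt v σ) g := h5
    have hκn : κ n * (V n ^ (2 * (t.r * L) + ng) * V n ^ Jf * U n ^ (2 * X.k)) = 1 := by
      simp only [hκ]
      rw [pow_add _ (2 * (t.r * L) + ng) Jf]
      field_simp
    have e1 : v ^ (2 * (t.r * L) + ng) / V n ^ (2 * (t.r * L) + ng) *
        (v ^ nf * eval (t.pt v σ) f / V n ^ Jf) *
        (eval (t.pt v σ) (X.PP s0 U n) / U n ^ (2 * X.k)) =
        (v ^ (2 * (t.r * L) + ng) * v ^ nf) * (eval (t.pt v σ) f *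
          eval (t.pt v σ) (X.PP s0 U n)) * κ n := by
      have e2 : κ n = 1 / (V n ^ (2 * (t.r * L) + ng) * V n ^ Jf * U n ^ (2 * X.k)) := by
        rw [eq_div_iff (by positivity)]
        exact hκn
      rw [e2]
      field_simp
    have e3 : v ^ (2 * (t.r * L) + ng) = v ^ (2 * (t.r * L)) * v ^ ng := pow_add _ _ _
    have e4 : v ^ (nf + ng) = v ^ nf * v ^ ng := pow_add _ _ _
    refine e1.trans ?_
    rw [hPP, e3, e4]
    field_simp
  -- the grid
  have hgrid : ∃ S : Fin 2 → Finset ℝ, ∀ i, K < (S i).card := by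
    obtain ⟨s, -, hs⟩ := (Set.Ioo_infinite (show (0 : ℝ) < 1 by norm_num)).exists_subset_card_eq
      (K + 1)
    exact ⟨fun _ => s, fun _ => by rw [hs]; omega⟩
  obtain ⟨S, hS⟩ := hgrid
  obtain ⟨s, τ, hs, hτ, hlim⟩ := limit K a' b' ha'ss hb'ss ha'd hb'd
    (fun n w => eval ![V n * zt t.e w n, sg σ1 δ w n] Qg / V n ^ Jg)
    (fun n w => eval w (a' n) + eval w (b' n) *
      (eval ![V n * zt t.e w n, sg σ1 δ w n] Qg / V n ^ Jg))
    (fun _ => γ) (fun w => φ * mot (w 0) (w 1)) hG hF (fun _ _ => rfl) S hS (fun _ _ => hγp)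
  refine mot_not_sos 1 0 (Or.inl one_ne_zero) (C (1 / φ) * (s + C γ * τ)) ?_ ?_
  · exact (isSumSq_C (by positivity)).mul (hs.add ((isSumSq_C hγp.le).mul hτ))
  · intro w
    have h4 := hlim w
    rw [map_mul, map_add, map_mul, eval_C, eval_C]
    have h5 : mot (1 * w 0 + 0 * w 1) (-0 * w 0 + 1 * w 1) = mot (w 0) (w 1) := by
      congr 1 <;> ring
    rw [h5]
    have h6 : mot (w 0) (w 1) = 1 / φ * (φ * mot (w 0) (w 1)) := by
      field_simp
    rw [h6, h4]
    ring

end Pool.Agent.Helper10.TI
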