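import Pool.Agent.Helper10.TI.Lin

set_option autoImplicit false

/-!
# MP_63c74b: families of polynomials with a parameter `w = 1 / U`
-/

open MvPolynomial Pool.Agent.Helper68.QM

namespace Pool.Agent.Helper10.TI

variable {M : A → Prop}

/-- `ℝ[x][y][w]` -/
abbrev P3 : Type := Polynomial P2
/-- `ℝ(x)[y][w]` -/
abbrev Q3 : Type := Polynomial Q2

/-- inclusion -/
noncomputable abbrev ι3 : P3 →+* Q3 := Polynomial.mapRingHom ι

/-- evaluation at `w = 1 / U` -/
noncomputable def Ev (U : ℝ) : P3 →+* A :=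
  Φ.comp (Polynomial.evalRingHom (Polynomial.C (Polynomial.C U⁻¹)))

theorem Ev_C (U : ℝ) (E : P2) : Ev U (Polynomial.C E) = Φ E := by
  simp [Ev]

theorem Ev_X (U : ℝ) : Ev U Polynomial.X = C U⁻¹ := by
  simp [Ev, Φ_C, ax]

theorem Ev_sum (U : ℝ) (Q : P3) (n : ℕ) (h : Q.natDegree < n) :
    Ev U Q = ∑ m ∈ Finset.range n, C (U⁻¹ ^ m) * Φ (Q.coeff m) := by
  conv_lhs => rw [Q.as_sum_range_C_mul_X_pow' h]
  rw [map_sum]
  refine Finset.sum_congr rfl fun m _ => ?_
  rw [map_mul, map_pow, Ev_C, Ev_X, C_pow, mul_comm]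

namespace Dat

variable (D : Dat)

/-- `FF` for all coefficients -/
def F3 (N : ℕ) (r : ℤ) (G : Q3) : Prop := ∀ m, D.FF N r (G.coeff m)

variable {D}

theorem F3.add {N : ℕ} {r : ℤ} {G H : Q3} (h1 : D.F3 N r G) (h2 : D.F3 N r H) :
    D.F3 N r (G + H) := fun m => by
  rw [Polynomial.coeff_add]; exact (h1 m).add (h2 m)

theorem F3.sub {N : ℕ} {r : ℤ} {G H : Q3} (h1 : D.F3 N r G) (h2 : D.F3 N r H) :
    D.F3 N r (G - H) := fun m => by
  rw [Polynomial.coeff_sub]; exact (h1 m).sub (h2 m)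

theorem F3.mono {N N' : ℕ} {r r' : ℤ} (hN : N ≤ N') (hr : r ≤ r') {G : Q3} (h : D.F3 N r G) :
    D.F3 N' r' G := fun m => (h m).mono hN hr

theorem F3.mul {N N' : ℕ} {r r' : ℤ} {G G' : Q3} (h : D.F3 N r G) (h' : D.F3 N' r' G') :
    D.F3 (N + N') (r + r') (G * G') := fun m => by
  rw [Polynomial.coeff_mul]
  exact FF.sum _ _ fun p _ => (h p.1).mul (h' p.2)

theorem F3.mulC {N : ℕ} {r d : ℤ} {G : Q3} (h : D.F3 N r G) {φ : Kx} (hφ : Dle φ d) :
    D.F3 N (r + d) (Polynomial.C (Polynomial.C φ) * G) := fun m => by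
  rw [Polynomial.coeff_C_mul]
  exact (h m).mulC hφ

variable (D)

/-- substitution `s ↦ S / T` -/
noncomputable def sv : P1 →+* Q2 := (Polynomial.aeval D.s : Polynomial ℝ →ₐ[ℝ] Q2).toRingHom

/-- substitution `s ↦ S / T`, `z ↦ x w` -/
noncomputable def τ : P2 →+* Q3 :=
  Polynomial.eval₂RingHom ((Polynomial.C : Q2 →+* Q3).comp D.sv)
    (Polynomial.C (Polynomial.C (ix Polynomial.X)) * Polynomial.X)

theorem τ_coeff (f : P2) (m : ℕ) :
    (D.τ f).coeff m = Polynomial.C (ix (Polynomial.X ^ m)) * D.sv (f.coeff m) := by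
  have h1 : D.τ f = ∑ i ∈ Finset.range (f.natDegree + 1),
      Polynomial.C (Polynomial.C (ix (Polynomial.X ^ i)) * D.sv (f.coeff i)) * Polynomial.X ^ i := by
    conv_lhs => rw [f.as_sum_range_C_mul_X_pow]
    rw [map_sum]
    refine Finset.sum_congr rfl fun i _ => ?_
    have e1 : D.τ (Polynomial.C (f.coeff i)) = Polynomial.C (D.sv (f.coeff i)) := by
      simp [τ]
    have e2 : D.τ Polynomial.X = Polynomial.C (Polynomial.C (ix Polynomial.X)) * Polynomial.X := by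
      simp [τ]
    rw [map_mul, map_pow, e1, e2, mul_pow, map_pow, Polynomial.C_mul, Polynomial.C_pow,
      Polynomial.C_pow]
    ring
  rw [h1, Polynomial.finsetSum_coeff]
  by_cases hm : m < f.natDegree + 1
  · rw [Finset.sum_eq_single m]
    · rw [Polynomial.coeff_C_mul, Polynomial.coeff_X_pow, if_pos rfl, mul_one]
    · intro i _ hi
      rw [Polynomial.coeff_C_mul, Polynomial.coeff_X_pow, if_neg (Ne.symm hi), mul_zero]
    · intro h
      exact absurd (Finset.mem_range.2 hm) h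
  · rw [Polynomial.coeff_eq_zero_of_natDegree_lt (p := f) (by omega), map_zero, mul_zero]
    refine Finset.sum_eq_zero fun i hi => ?_
    rw [Finset.mem_range] at hi
    rw [Polynomial.coeff_C_mul, Polynomial.coeff_X_pow, if_neg (by omega), mul_zero]

theorem FF_one : D.FF 1 0 1 := by
  have h1 : (1 : Q2) = Polynomial.C 1 * D.bb 0 := by
    simp [bb]
  rw [h1]
  refine FF.gen (by omega) ?_
  have : Dle (1 : Kx) 0 := Or.inr (by simp)
  simpa using this

theorem dle_C (r : ℝ) : Dle (ix (Polynomial.C r)) 0 := by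
  have := Dle.poly (Polynomial.C r) (d := 0) (by simp)
  simpa using this

theorem sv_C (r : ℝ) : D.sv (Polynomial.C r) = Polynomial.C (ix (Polynomial.C r)) := by
  have h1 : D.sv (Polynomial.C r) = algebraMap ℝ Q2 r := by
    simp [sv]
  rw [h1]
  rfl

theorem sv_X : D.sv Polynomial.X = D.s := by
  simp [sv]

theorem sv_FF (q : P1) : ∃ N, D.FF N 0 (D.sv q) := by
  induction q using Polynomial.induction_on' with
  | add a b ha hb =>
    obtain ⟨N1, h1⟩ := ha
    obtain ⟨N2, h2⟩ := hb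
    refine ⟨max N1 N2, ?_⟩
    rw [map_add]
    exact (h1.mono (le_max_left _ _) le_rfl).add (h2.mono (le_max_right _ _) le_rfl)
  | monomial n r =>
    have h1 : ∀ n : ℕ, D.FF (1 + n * D.p) 0 (D.s ^ n) := by
      intro n
      induction n with
      | zero => simpa using D.FF_one
      | succ n ih =>
        rw [pow_succ']
        refine ih.mul_s.mono (by rw [add_mul, one_mul]; omega) le_rfl
    refine ⟨1 + n * D.p, ?_⟩
    rw [← Polynomial.C_mul_X_pow_eq_monomial, map_mul, map_pow, sv_C, sv_X]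
    have := (h1 n).mulC (dle_C r)
    simpa using this

theorem τ_F3 (f : P2) {d : ℕ} (hf : f.natDegree ≤ d) : ∃ N, D.F3 N (d : ℕ) (D.τ f) := by
  choose Nm hNm using D.sv_FF
  refine ⟨(Finset.range (d + 1)).sup fun m => Nm (f.coeff m), fun m => ?_⟩
  rw [τ_coeff]
  by_cases hm : m ≤ d
  · have h1 := (hNm (f.coeff m)).mulC (dle_X_pow m)
    refine h1.mono (Finset.le_sup (f := fun m => Nm (f.coeff m)) (Finset.mem_range.2 (by omega))) ?_
    rw [zero_add]
    exact_mod_cast hm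
  · rw [Polynomial.coeff_eq_zero_of_natDegree_lt (p := f) (by omega), map_zero, mul_zero]
    exact FF.zero _ _

/-- lifting of families -/
theorem exists_lift3 (N : ℕ) (G : Q3) (hG : ∀ m j, N ≤ j → (G.coeff m).coeff j = 0) :
    ∃ Q : P3, (∀ m j, N ≤ j → (Q.coeff m).coeff j = 0) ∧
      D.F3 N (D.lam * D.p : ℕ) (G - ι3 Q) := by
  choose f hf hfF using fun m => D.exists_lift_FF N (G.coeff m) (hG m)
  have hc : ∀ m, (∑ i ∈ Finset.range (G.natDegree + 1), Polynomial.C (f i) * Polynomial.X ^ i :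
      P3).coeff m = if m < G.natDegree + 1 then f m else 0 := by
    intro m
    rw [Polynomial.finsetSum_coeff]
    split_ifs with hm
    · rw [Finset.sum_eq_single m]
      · rw [Polynomial.coeff_C_mul, Polynomial.coeff_X_pow, if_pos rfl, mul_one]
      · intro i _ hi
        rw [Polynomial.coeff_C_mul, Polynomial.coeff_X_pow, if_neg (Ne.symm hi), mul_zero]
      · intro h
        exact absurd (Finset.mem_range.2 hm) h
    · refine Finset.sum_eq_zero fun i hi => ?_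
      rw [Finset.mem_range] at hi
      rw [Polynomial.coeff_C_mul, Polynomial.coeff_X_pow, if_neg (by omega), mul_zero]
  refine ⟨∑ i ∈ Finset.range (G.natDegree + 1), Polynomial.C (f i) * Polynomial.X ^ i,
    fun m j hj => ?_, fun m => ?_⟩
  · rw [hc]
    split_ifs
    · exact hf m j hj
    · exact Polynomial.coeff_zero _
  · have h1 : (ι3 (∑ i ∈ Finset.range (G.natDegree + 1), Polynomial.C (f i) *
        Polynomial.X ^ i)).coeff m = ι ((∑ i ∈ Finset.range (G.natDegree + 1),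
          Polynomial.C (f i) * Polynomial.X ^ i : P3).coeff m) := Polynomial.coeff_map _ _
    rw [Polynomial.coeff_sub, h1, hc]
    split_ifs with hm
    · exact hfF m
    · rw [Polynomial.coeff_eq_zero_of_natDegree_lt (p := G) (by omega), map_zero, sub_zero]
      exact FF.zero _ _

theorem FF_coeff {N : ℕ} {r : ℤ} {G : Q2} (h : D.FF N r G) {j : ℕ} (hj : N ≤ j) :
    G.coeff j = 0 := by
  obtain ⟨c, rfl, -⟩ := h
  rw [Polynomial.finsetSum_coeff]
  refine Finset.sum_eq_zero fun i hi => ?_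
  rw [Finset.mem_range] at hi
  rw [Polynomial.coeff_C_mul, Polynomial.coeff_eq_zero_of_natDegree_lt, mul_zero]
  rw [bb_natDegree]
  omega

/-- `η (U ^ (2 k) + x ^ (2 k))` -/
noncomputable def Wt (k : ℕ) (U η : ℝ) : A := C η * (C (U ^ (2 * k)) + X 0 ^ (2 * k))

/-- eventually positive -/
def Pos (M : A → Prop) (k : ℕ) (Q : P3) : Prop :=
  ∀ η : ℝ, 0 < η → ∃ U0 : ℝ, 1 ≤ U0 ∧ ∀ U, U0 ≤ U → M (Ev U Q + Wt k U η)

theorem Pos.add (hM : QMod M) {k : ℕ} {Q R : P3} (h1 : Pos M k Q) (h2 : Pos M k R) :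
    Pos M k (Q + R) := by
  intro η hη
  obtain ⟨U1, hU1, h1⟩ := h1 (η / 2) (by positivity)
  obtain ⟨U2, hU2, h2⟩ := h2 (η / 2) (by positivity)
  refine ⟨max U1 U2, hU1.trans (le_max_left _ _), fun U hU => ?_⟩
  have h3 := hM.add (h1 U ((le_max_left _ _).trans hU)) (h2 U ((le_max_right _ _).trans hU))
  have h4 : Ev U (Q + R) + Wt k U η = Ev U Q + Wt k U (η / 2) + (Ev U R + Wt k U (η / 2)) := by
    have h5 : (C η : A) = C (η / 2) + C (η / 2) := by
      rw [← C_add]; congr 1; ring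
    rw [map_add, Wt, Wt, h5]
    ring
  rw [h4]
  exact h3

theorem small_real (k K : ℕ) (hK : K < k) (c η : ℝ) (hc : 0 ≤ c) (hη : 0 < η) :
    ∃ U0 : ℝ, 1 ≤ U0 ∧ ∀ U : ℝ, U0 ≤ U → ∀ x : ℝ,
      0 < η * (U ^ (2 * k) + x ^ (2 * k)) - c * (1 + x ^ (2 * K)) := by
  set R : ℝ := max 1 (4 * c / η) with hR
  have hR1 : 1 ≤ R := le_max_left _ _
  have hR2 : 4 * c / η ≤ R := le_max_right _ _
  have hR0 : 0 < R := by linarith
  refine ⟨R, hR1, fun U hU x => ?_⟩
  have hU0 : 0 < U := by linarith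
  rw [pow_mul x, pow_mul x]
  have hx : 0 ≤ x ^ 2 := sq_nonneg x
  have hc4 : 4 * c ≤ η * R := by
    rw [div_le_iff₀ hη] at hR2
    linarith
  have hxk : 0 ≤ (x ^ 2) ^ k := by positivity
  have hUk : R ≤ U ^ (2 * k) := by
    calc R ≤ U := hU
      _ ≤ U ^ (2 * k) := le_self_pow₀ (by linarith) (by omega)
  have h0 : 0 < η * U ^ (2 * k) := by positivity
  rcases le_total (x ^ 2) R with h | h
  · -- `x ^ 2 ≤ R ≤ U`
    have h1 : (x ^ 2) ^ K ≤ U ^ K := pow_le_pow_left₀ hx (h.trans hU) K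
    have h2 : (1 : ℝ) ≤ U ^ K := one_le_pow₀ (by linarith)
    have h3 : U ^ K * R ≤ U ^ (2 * k) := by
      calc U ^ K * R ≤ U ^ K * U := mul_le_mul_of_nonneg_left hU (by positivity)
        _ = U ^ (K + 1) := (pow_succ _ _).symm
        _ ≤ U ^ (2 * k) := pow_le_pow_right₀ (by linarith) (by omega)
    have h4 : c * (1 + (x ^ 2) ^ K) ≤ c * (2 * U ^ K) := mul_le_mul_of_nonneg_left (by linarith) hc
    have h5 : c * (2 * U ^ K) ≤ η * (U ^ K * R) / 2 := by
      have : 4 * c * U ^ K ≤ η * R * U ^ K := mul_le_mul_of_nonneg_right hc4 (by positivity)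
      linarith
    have h6 : η * (U ^ K * R) ≤ η * U ^ (2 * k) := mul_le_mul_of_nonneg_left h3 hη.le
    have h7 : 0 ≤ η * (x ^ 2) ^ k := by positivity
    linarith
  · -- `x ^ 2 ≥ R ≥ 1`
    have h1 : 1 ≤ x ^ 2 := hR1.trans h
    have h2 : (1 : ℝ) ≤ (x ^ 2) ^ K := one_le_pow₀ h1
    have h3 : (x ^ 2) ^ K * R ≤ (x ^ 2) ^ k := by
      calc (x ^ 2) ^ K * R ≤ (x ^ 2) ^ K * (x ^ 2) := mul_le_mul_of_nonneg_left h (by positivity)
        _ = (x ^ 2) ^ (K + 1) := (pow_succ _ _).symm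
        _ ≤ (x ^ 2) ^ k := pow_le_pow_right₀ h1 (by omega)
    have h4 : c * (1 + (x ^ 2) ^ K) ≤ c * (2 * (x ^ 2) ^ K) :=
      mul_le_mul_of_nonneg_left (by linarith) hc
    have h5 : c * (2 * (x ^ 2) ^ K) ≤ η * ((x ^ 2) ^ K * R) / 2 := by
      have : 4 * c * (x ^ 2) ^ K ≤ η * R * (x ^ 2) ^ K :=
        mul_le_mul_of_nonneg_right hc4 (by positivity)
      linarith
    have h6 : η * ((x ^ 2) ^ K * R) ≤ η * (x ^ 2) ^ k := mul_le_mul_of_nonneg_left h3 hη.le
    have h7 : 0 ≤ η * (x ^ 2) ^ k := by positivity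
    linarith

theorem small_ss (k K : ℕ) (hK : K < k) (c η : ℝ) (hc : 0 ≤ c) (hη : 0 < η) :
    ∃ U0 : ℝ, 1 ≤ U0 ∧ ∀ U : ℝ, U0 ≤ U →
      IsSumSq (Wt k U η - C c * (1 + X 0 ^ (2 * K)) : A) := by
  obtain ⟨U0, hU0, h⟩ := small_real k K hK c η hc hη
  refine ⟨U0, hU0, fun U hU => ?_⟩
  have h1 := pos_sos (X 0) _ (Polynomial.C η * (Polynomial.C (U ^ (2 * k)) +
    Polynomial.X ^ (2 * k)) - Polynomial.C c * (1 + Polynomial.X ^ (2 * K))) rfl (fun x => by
    have := h U hU x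
    simpa using this)
  simp only [map_sub, map_mul, map_add, map_pow, Polynomial.aeval_X, map_one,
    Polynomial.aeval_C] at h1
  rw [Wt, C_pow]
  exact h1

/-- small families are negligible -/
theorem small (hM : QMod M) {k K : ℕ} (hK : K < k) (Q : P3) (h : ∀ m, Ld M K (Φ (-(Q.coeff m)))) :
    Pos M k Q := by
  intro η hη
  choose c hc hcM using h
  set n := Q.natDegree + 1 with hn
  obtain ⟨U0, hU0, h1⟩ := small_ss k K hK (∑ m ∈ Finset.range n, c m) η
    (Finset.sum_nonneg fun m _ => hc m) hη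
  refine ⟨U0, hU0, fun U hU => ?_⟩
  have hU1 : 1 ≤ U := hU0.trans hU
  have hUi : U⁻¹ ≤ 1 := inv_le_one_of_one_le₀ hU1
  have hUi0 : 0 ≤ U⁻¹ := by positivity
  rw [Ev_sum U Q n (Nat.lt_succ_self _)]
  have h2 : M (∑ m ∈ Finset.range n, (C (c m) * (1 + X 0 ^ (2 * K)) +
      C (U⁻¹ ^ m) * Φ (Q.coeff m))) := by
    have : ∀ s : Finset ℕ, M (∑ m ∈ s, (C (c m) * (1 + X 0 ^ (2 * K)) +
        C (U⁻¹ ^ m) * Φ (Q.coeff m))) := by
      intro s
      classical
      induction s using Finset.induction_on with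
      | empty => rw [Finset.sum_empty]; exact hM.zero
      | insert a s ha ih =>
        rw [Finset.sum_insert ha]
        refine hM.add ?_ ih
        have e1 := hM.smul (show (0 : ℝ) ≤ U⁻¹ ^ a by positivity) (hcM a)
        have e2 := hM.smul (show (0 : ℝ) ≤ (1 - U⁻¹ ^ a) * c a from
          mul_nonneg (by linarith [pow_le_one₀ (n := a) hUi0 hUi]) (hc a)) (hM.ss (one_add_ss' K))
        have e3 := hM.add e1 e2
        have e4 : C (c a) * (1 + X 0 ^ (2 * K)) + C (U⁻¹ ^ a) * Φ (Q.coeff a) =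
            C (U⁻¹ ^ a) * (C (c a) * (1 + X 0 ^ (2 * K)) - Φ (-Q.coeff a)) +
            C ((1 - U⁻¹ ^ a) * c a) * (1 + X 0 ^ (2 * K)) := by
          rw [C_mul, C_sub, C_1, map_neg]
          ring
        rw [e4]
        exact e3
    exact this _
  have h3 := hM.add h2 (hM.ss (h1 U hU))
  have h4 : ∑ m ∈ Finset.range n, C (U⁻¹ ^ m) * Φ (Q.coeff m) + Wt k U η =
      ∑ m ∈ Finset.range n, (C (c m) * (1 + X 0 ^ (2 * K)) + C (U⁻¹ ^ m) * Φ (Q.coeff m)) +
      (Wt k U η - C (∑ m ∈ Finset.range n, c m) * (1 + X 0 ^ (2 * K))) := by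
    rw [Finset.sum_add_distrib, ← Finset.sum_mul, map_sum]
    ring
  rw [h4]
  exact h3

end Dat

end Pool.Agent.Helper10.TI
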