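import Pool.Agent.Helper10.TI.ThmA

set_option autoImplicit false

/-!
# MP_63c74b: the family, instability
-/

open MvPolynomial Pool.Agent.Helper68.QM Filter Topology

namespace Pool.Agent.Helper10.TI

/-- `x ^ a (y ^ 2 - x ^ q) - κ y` -/
noncomputable def sA (a q : ℕ) (κ : ℝ) : A := X 0 ^ a * (X 1 ^ 2 - X 0 ^ q) - C κ * X 1

/-- `c ^ 2 x ^ (2 k) - 1 - (x ^ a (y ^ 2 - x ^ q) - κ y) ^ 2` -/
noncomputable def gA (a k q : ℕ) (c κ : ℝ) : A := C (c ^ 2) * X 0 ^ (2 * k) - 1 - sA a q κ ^ 2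

/-- `x ^ a (y ^ 2 - x ^ q) - κ y` in `ℝ[x][y]` -/
noncomputable def Sf (a q : ℕ) (κ : ℝ) : P2 :=
  Polynomial.C (Polynomial.X ^ a) * Polynomial.X ^ 2 + (Polynomial.C (-Polynomial.C κ) * Polynomial.X +
    Polynomial.C (-Polynomial.X ^ (a + q)))

theorem Sf_low (a q : ℕ) (κ : ℝ) : (Polynomial.C (-Polynomial.C κ) * Polynomial.X +
    Polynomial.C (-Polynomial.X ^ (a + q)) : P2).natDegree ≤ 1 := by
  compute_degree

theorem Sf_natDegree (a q : ℕ) (κ : ℝ) : (Sf a q κ).natDegree = 2 := by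
  have h1 : (Polynomial.C (Polynomial.X ^ a) * Polynomial.X ^ 2 : P2).natDegree = 2 :=
    Polynomial.natDegree_C_mul_X_pow _ _ (pow_ne_zero _ Polynomial.X_ne_zero)
  rw [Sf, Polynomial.natDegree_add_eq_left_of_natDegree_lt, h1]
  rw [h1]
  have := Sf_low a q κ
  omega

theorem Sf_lead (a q : ℕ) (κ : ℝ) : (Sf a q κ).leadingCoeff = Polynomial.X ^ a := by
  rw [Polynomial.leadingCoeff, Sf_natDegree, Sf, Polynomial.coeff_add,
    Polynomial.coeff_C_mul_X_pow, if_pos rfl,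
    Polynomial.coeff_eq_zero_of_natDegree_lt (lt_of_le_of_lt (Sf_low a q κ) (by norm_num)), add_zero]

theorem Φ_Sf (a q : ℕ) (κ : ℝ) : Φ (Sf a q κ) = sA a q κ := by
  have h1 : Φ (Polynomial.X ^ 2) = X 1 ^ 2 := by rw [RingHom.map_pow Φ, Φ_X]
  rw [Sf, sA, RingHom.map_add Φ, RingHom.map_mul Φ, RingHom.map_add Φ, RingHom.map_mul Φ, h1, Φ_C,
    Φ_C, Φ_C, Φ_X]
  simp only [ax, map_pow, map_neg, Polynomial.aeval_X, Polynomial.aeval_C,
    MvPolynomial.algebraMap_eq]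
  ring

/-- the tentacle -/
noncomputable def tA (a k q : ℕ) (c κ : ℝ) : Tent where
  e := 2
  r := 2 * a + q
  Y := X 0 ^ (2 * a + 2 * q) + C (1 / 2) * (C κ * X 0 ^ q + C c * X 1 * X 0 ^ (2 * k))
  he := by norm_num

theorem tA_S (a k q : ℕ) (c κ : ℝ) (v σ : ℝ) (hv : v ≠ 0) :
    eval ((tA a k q c κ).pt v σ) (sA a q κ) = c * v ^ (2 * k) * σ +
      (1 / 4 * (κ * v ^ q + c * σ * v ^ (2 * k)) ^ 2 / v ^ (2 * a + 2 * q) -
        κ / 2 * (κ * v ^ q + c * σ * v ^ (2 * k)) / v ^ (2 * a + q)) := by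
  have h0 : (![v, σ] : Fin 2 → ℝ) 0 = v := rfl
  have h1 : (![v, σ] : Fin 2 → ℝ) 1 = σ := rfl
  simp only [sA, map_sub, map_mul, map_pow, eval_X, eval_C, Tent.pt_zero, Tent.pt_one]
  have hY : eval ![v, σ] (tA a k q c κ).Y = v ^ (2 * a + 2 * q) +
      1 / 2 * (κ * v ^ q + c * σ * v ^ (2 * k)) := by
    simp only [tA, map_add, map_mul, map_pow, eval_X, eval_C, h0, h1]
  have he : (tA a k q c κ).e = 2 := rfl
  have hr : (tA a k q c κ).r = 2 * a + q := rfl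
  rw [hY, he, hr]
  set m := κ * v ^ q + c * σ * v ^ (2 * k) with hm
  have e1 : v ^ (2 * a + 2 * q) = (v ^ a) ^ 2 * (v ^ q) ^ 2 := by ring
  have e2 : v ^ (2 * a + q) = (v ^ a) ^ 2 * v ^ q := by ring
  have e3 : (v ^ 2) ^ a = (v ^ a) ^ 2 := by ring
  have e4 : (v ^ 2) ^ q = (v ^ q) ^ 2 := by ring
  have ha : v ^ a ≠ 0 := pow_ne_zero _ hv
  have hq : v ^ q ≠ 0 := pow_ne_zero _ hv
  rw [e1, e2, e3, e4]
  have e5 : c * v ^ (2 * k) * σ = m - κ * v ^ q := by rw [hm]; ring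
  rw [e5]
  field_simp
  ring

theorem tA_ratio (a k q : ℕ) (c κ : ℝ) (hk : 1 ≤ k) (hka : k ≤ a) (hq : 1 ≤ q) (hc : c ≠ 0)
    (σ : ℝ) :
    Tendsto (fun v => eval ((tA a k q c κ).pt v σ) (sA a q κ) / (c * (v ^ 2) ^ k)) atTop
      (𝓝 σ) := by
  have hu : Tendsto (fun v : ℝ => v⁻¹) atTop (𝓝 0) := tendsto_inv_atTop_zero
  have hp : ∀ n : ℕ, 0 < n → Tendsto (fun v : ℝ => v⁻¹ ^ n) atTop (𝓝 0) := by
    intro n hn
    have := hu.pow n
    rwa [zero_pow hn.ne'] at this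
  have h1 := ((((hp (a + k) (by omega)).const_mul κ).add
    ((hp (a + q - k) (by omega)).const_mul (c * σ))).pow 2).const_mul (1 / 4 / c)
  have h2 := (((hp (2 * a + 2 * k) (by omega)).const_mul κ).add
    ((hp (2 * a + q) (by omega)).const_mul (c * σ))).const_mul (κ / 2 / c)
  have h3 := (tendsto_const_nhds (x := σ)).add (h1.sub h2)
  have h4 : σ + (1 / 4 / c * (κ * 0 + c * σ * 0) ^ 2 - κ / 2 / c * (κ * 0 + c * σ * 0)) = σ := by
    ring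
  rw [h4] at h3
  refine h3.congr' ?_
  filter_upwards [eventually_gt_atTop 0] with v hv
  rw [tA_S a k q c κ v σ hv.ne']
  obtain ⟨d, hd⟩ := Nat.exists_eq_add_of_le hka
  have e0 : a + q - k = d + q := by omega
  rw [e0]
  simp only [inv_pow]
  have hva : v ^ a = v ^ k * v ^ d := by rw [hd, pow_add]
  have hk0 : v ^ k ≠ 0 := pow_ne_zero _ hv.ne'
  have hd0 : v ^ d ≠ 0 := pow_ne_zero _ hv.ne'
  have hq0 : v ^ q ≠ 0 := pow_ne_zero _ hv.ne'
  have e1 : v ^ (2 * a + 2 * q) = (v ^ k * v ^ d) ^ 2 * (v ^ q) ^ 2 := by rw [← hva]; ring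
  have e2 : v ^ (2 * a + q) = (v ^ k * v ^ d) ^ 2 * v ^ q := by rw [← hva]; ring
  have e3 : v ^ (a + k) = v ^ k * v ^ d * v ^ k := by rw [← hva]; ring
  have e4 : v ^ (2 * a + 2 * k) = (v ^ k * v ^ d) ^ 2 * (v ^ k) ^ 2 := by rw [← hva]; ring
  have e5 : v ^ (d + q) = v ^ d * v ^ q := pow_add _ _ _
  have e6 : v ^ (2 * k) = (v ^ k) ^ 2 := by ring
  have e7 : (v ^ 2) ^ k = (v ^ k) ^ 2 := by ring
  rw [e1, e2, e3, e4, e5, e6, e7]
  field_simp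

/-- the numerator `T` -/
noncomputable def Tf (k : ℕ) (c : ℝ) : P1 := Polynomial.C c * Polynomial.X ^ k

theorem Tf_ne {k : ℕ} {c : ℝ} (hc : c ≠ 0) : Tf k c ≠ 0 :=
  mul_ne_zero (by simpa using hc) (pow_ne_zero _ Polynomial.X_ne_zero)

theorem Tf_deg {k : ℕ} {c : ℝ} (hc : c ≠ 0) : (Tf k c).natDegree = k :=
  Polynomial.natDegree_C_mul_X_pow _ _ hc

theorem ax_Tf (k : ℕ) (c : ℝ) : ax (Tf k c) = C c * X 0 ^ k := by
  simp [ax, Tf]

theorem Tf_eval (k : ℕ) (c x : ℝ) : (Tf k c).eval x = c * x ^ k := by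
  simp [Tf]

/-- **The family is unstable for `k ≤ a`.** -/
theorem family_unstable (a k q : ℕ) (c κ : ℝ) (hk : 1 ≤ k) (hka : k ≤ a) (hq : 1 ≤ q)
    (hc : c ≠ 0) : ¬ Stable (gA a k q c κ) := by
  have hT2 : (C c * X 0 ^ k : A) ^ 2 = C (c ^ 2) * X 0 ^ (2 * k) := by
    rw [mul_pow, ← C_pow, ← pow_mul, mul_comm k 2]
  refine not_stable_of_tentacle (gA a k q c κ) 1 (Sf a q κ) (Tf k c) 1 a (tA a k q c κ)
    (-1) 1 (fun σ => σ) one_ne_zero (InM.of_sq IsSumSq.one) ?_ (Tf_ne hc) ?_ ?_ ?_ ?_ (by norm_num)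
    ?_ ?_ ?_
  · rw [Sf_natDegree]; norm_num
  · rw [Sf_lead, Tf_deg hc, Polynomial.natDegree_X_pow]
    exact hka
  · rw [Sf_lead, Tf, mul_pow, ← pow_mul]
    refine Dvd.dvd.mul_left (pow_dvd_pow _ ?_) _
    exact Nat.le_mul_of_pos_left _ hk
  · rw [one_mul, ax_Tf, hT2]
    have h1 : C (c ^ 2) * X 0 ^ (2 * k) - 1 = sA a q κ ^ 2 + gA a k q c κ := by
      rw [gA]; ring
    rw [h1]
    exact (InM.sq _).add InM.gen
  · rw [one_mul, ax_Tf, hT2, Φ_Sf, C_1, one_mul]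
    have h1 : C (c ^ 2) * X 0 ^ (2 * k) - sA a q κ ^ 2 = 1 + gA a k q c κ := by
      rw [gA]; ring
    rw [h1]
    exact (InM.of_sq IsSumSq.one).add InM.gen
  · intro σ _ _
    refine (tA_ratio a k q c κ hk hka hq hc σ).congr fun v => ?_
    rw [Φ_Sf, Tf_eval]
    rfl
  · exact ⟨0, 1 / 2, ⟨by norm_num, by norm_num⟩, ⟨by norm_num, by norm_num⟩, by norm_num⟩
  · intro σ h1 h2
    -- `g = T ^ 2 (1 - (S / T) ^ 2) - 1`
    have hlim := tA_ratio a k q c κ hk hka hq hc σ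
    have h3 := ((tendsto_const_nhds (x := (1 : ℝ))).sub (hlim.pow 2))
    have h4 : 0 < 1 - σ ^ 2 := by nlinarith
    have h5 : Tendsto (fun v : ℝ => (c * (v ^ 2) ^ k) ^ 2) atTop atTop := by
      have h6 : (fun v : ℝ => (c * (v ^ 2) ^ k) ^ 2) = fun v => c ^ 2 * v ^ (4 * k) := by
        funext v; ring
      rw [h6]
      exact (tendsto_pow_atTop (by omega)).const_mul_atTop (by positivity)
    have h7 := h5.atTop_mul_pos h4 h3
    filter_upwards [h7.eventually_gt_atTop 1, eventually_gt_atTop 0] with v hv hv0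
    have h8 : eval ((tA a k q c κ).pt v σ) (gA a k q c κ) =
        (c * (v ^ 2) ^ k) ^ 2 - 1 - eval ((tA a k q c κ).pt v σ) (sA a q κ) ^ 2 := by
      rw [gA]
      simp only [map_sub, map_mul, map_pow, map_one, eval_C, eval_X, Tent.pt_zero]
      have he : (tA a k q c κ).e = 2 := rfl
      rw [he]
      ring
    rw [h8]
    have hT0 : c * (v ^ 2) ^ k ≠ 0 := mul_ne_zero hc (by positivity)
    have h9 : (c * (v ^ 2) ^ k) ^ 2 * (1 - (eval ((tA a k q c κ).pt v σ) (sA a q κ) /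
        (c * (v ^ 2) ^ k)) ^ 2) = (c * (v ^ 2) ^ k) ^ 2 -
        eval ((tA a k q c κ).pt v σ) (sA a q κ) ^ 2 := by
      rw [div_pow]
      field_simp
    rw [h9] at hv
    linarith

end Pool.Agent.Helper10.TI
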