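import Pool.Agent.Helper10.TI.FamA

set_option autoImplicit false

/-!
# MP_63c74b: the family, growth of polynomials
-/

open MvPolynomial Pool.Agent.Helper68.QM Filter Topology

namespace Pool.Agent.Helper10.TI

/-- interpolation -/
theorem interp (N : ℕ) (s : Fin N → ℝ) (hs : Function.Injective s) :
    ∃ Λ : ℝ, 0 ≤ Λ ∧ ∀ (B : Fin N → ℝ) (H : ℝ), 0 ≤ H → (∀ j, |∑ n, B n * s j ^ (n : ℕ)| ≤ H) →
      ∀ n, |B n| ≤ Λ * H := by
  set V := Matrix.vandermonde s with hV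
  have hdet : IsUnit V.det := by
    rw [isUnit_iff_ne_zero, hV, Matrix.det_vandermonde_ne_zero_iff]
    exact hs
  refine ⟨∑ n, ∑ j, |V⁻¹ n j|, Finset.sum_nonneg fun _ _ => Finset.sum_nonneg fun _ _ =>
    abs_nonneg _, fun B H hH hB n => ?_⟩
  have h1 : V.mulVec B = fun j => ∑ n, B n * s j ^ (n : ℕ) := by
    funext j
    rw [Matrix.mulVec, dotProduct]
    refine Finset.sum_congr rfl fun n _ => ?_
    rw [hV, Matrix.vandermonde_apply, mul_comm]
  have h2 : B n = ∑ j, V⁻¹ n j * ∑ n, B n * s j ^ (n : ℕ) := by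
    have h3 : V⁻¹.mulVec (V.mulVec B) = B := by
      rw [Matrix.mulVec_mulVec, Matrix.nonsing_inv_mul _ hdet, Matrix.one_mulVec]
    have h4 := congrFun h3 n
    rw [h1] at h4
    rw [← h4]
    rfl
  rw [h2]
  refine (Finset.abs_sum_le_sum_abs _ _).trans ?_
  have h5 : ∑ j, |V⁻¹ n j * ∑ n, B n * s j ^ (n : ℕ)| ≤ ∑ j, |V⁻¹ n j| * H := by
    refine Finset.sum_le_sum fun j _ => ?_
    rw [abs_mul]
    exact mul_le_mul_of_nonneg_left (hB j) (abs_nonneg _)
  refine h5.trans ?_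
  rw [← Finset.sum_mul]
  refine mul_le_mul_of_nonneg_right ?_ hH
  exact Finset.single_le_sum (f := fun n => ∑ j, |V⁻¹ n j|)
    (fun _ _ => Finset.sum_nonneg fun _ _ => abs_nonneg _) (Finset.mem_univ n)

/-- comparison of degrees -/
theorem deg_of_bound (U : P1) (i j : ℕ) (C R : ℝ) (h : ∀ x, R ≤ x → (U.eval x) ^ 2 * x ^ i ≤ C * x ^ j) :
    U = 0 ∨ 2 * U.natDegree + i ≤ j := by
  by_contra hcon
  push Not at hcon
  obtain ⟨hU, hd⟩ := hcon
  set Q : P1 := U ^ 2 * Polynomial.X ^ i with hQ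
  have hQ0 : Q ≠ 0 := mul_ne_zero (pow_ne_zero 2 hU) (pow_ne_zero _ Polynomial.X_ne_zero)
  have hQd : Q.natDegree = 2 * U.natDegree + i := by
    rw [hQ, Polynomial.natDegree_mul (pow_ne_zero 2 hU) (pow_ne_zero _ Polynomial.X_ne_zero),
      Polynomial.natDegree_pow, Polynomial.natDegree_X_pow]
  have hdeg : (Polynomial.C C * Polynomial.X ^ j : P1).degree < Q.degree := by
    apply Polynomial.degree_lt_degree
    rw [hQd]
    exact lt_of_le_of_lt (Polynomial.natDegree_C_mul_X_pow_le _ _) hd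
  have h1 := Polynomial.div_tendsto_atTop_zero_of_degree_lt _ Q hdeg
  have h2 := h1.eventually (gt_mem_nhds (show (0 : ℝ) < 1 by norm_num))
  have h3 := Polynomial.eventually_atTop_not_isRoot Q hQ0
  obtain ⟨x, h4, h5, h6, h7⟩ :=
    (h2.and (h3.and ((eventually_ge_atTop R).and (eventually_gt_atTop 0)))).exists
  have h8 : 0 < Q.eval x := by
    have h9 : 0 ≤ Q.eval x := by
      rw [hQ, Polynomial.eval_mul, Polynomial.eval_pow, Polynomial.eval_pow, Polynomial.eval_X]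
      positivity
    exact lt_of_le_of_ne h9 (Ne.symm h5)
  rw [div_lt_one h8] at h4
  have h9 := h x h6
  rw [hQ] at h4
  simp only [Polynomial.eval_mul, Polynomial.eval_pow, Polynomial.eval_X, Polynomial.eval_C] at h4
  linarith

/-! ### expansions in powers of `S` -/

/-- the basis -/
noncomputable def bS (a q : ℕ) (κ : ℝ) (j : ℕ) : P2 := Sf a q κ ^ (j / 2) * Polynomial.X ^ (j % 2)

theorem Sf_ne (a q : ℕ) (κ : ℝ) : Sf a q κ ≠ 0 := by
  intro h
  have := Sf_natDegree a q κ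
  rw [h, Polynomial.natDegree_zero] at this
  omega

theorem bS_natDegree (a q : ℕ) (κ : ℝ) (j : ℕ) : (bS a q κ j).natDegree = j := by
  rw [bS, Polynomial.natDegree_mul (pow_ne_zero _ (Sf_ne a q κ))
    (pow_ne_zero _ Polynomial.X_ne_zero), Polynomial.natDegree_pow, Polynomial.natDegree_X_pow,
    Sf_natDegree]
  omega

theorem bS_coeff (a q : ℕ) (κ : ℝ) (j : ℕ) : (bS a q κ j).coeff j = Polynomial.X ^ (a * (j / 2)) := by
  have h : (bS a q κ j).leadingCoeff = Polynomial.X ^ (a * (j / 2)) := by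
    rw [bS, Polynomial.leadingCoeff_mul, Polynomial.leadingCoeff_pow, Sf_lead,
      Polynomial.leadingCoeff_X_pow, mul_one, ← pow_mul]
  rw [Polynomial.leadingCoeff, bS_natDegree] at h
  exact h

theorem exists_exp (a q : ℕ) (κ : ℝ) : ∀ (m : ℕ) (E : P2), (∀ j, m ≤ j → E.coeff j = 0) →
    ∃ (M : ℕ) (p : ℕ → P1), Polynomial.C (Polynomial.X ^ M) * E =
      ∑ j ∈ Finset.range m, Polynomial.C (p j) * bS a q κ j := by
  intro m
  induction m with
  | zero =>
    intro E hE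
    refine ⟨0, fun _ => 0, ?_⟩
    have h1 : E = 0 := by
      ext1 j
      rw [hE j (by omega), Polynomial.coeff_zero]
    rw [h1]
    simp
  | succ m ih =>
    intro E hE
    obtain ⟨M, p, h⟩ := ih (Polynomial.C (Polynomial.X ^ (a * (m / 2))) * E -
      Polynomial.C (E.coeff m) * bS a q κ m) (fun j hj => by
        rw [Polynomial.coeff_sub, Polynomial.coeff_C_mul, Polynomial.coeff_C_mul]
        rcases eq_or_lt_of_le hj with h | h
        · rw [← h, bS_coeff]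
          ring
        · rw [hE j (by omega), Polynomial.coeff_eq_zero_of_natDegree_lt (p := bS a q κ m)
            (by rw [bS_natDegree]; exact h)]
          ring)
    refine ⟨M + a * (m / 2), fun j => if j = m then Polynomial.X ^ M * E.coeff m else p j, ?_⟩
    rw [Finset.sum_range_succ]
    have h2 : ∑ j ∈ Finset.range m, Polynomial.C (if j = m then Polynomial.X ^ M * E.coeff m
        else p j) * bS a q κ j = ∑ j ∈ Finset.range m, Polynomial.C (p j) * bS a q κ j := by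
      refine Finset.sum_congr rfl fun j hj => ?_
      rw [Finset.mem_range] at hj
      rw [if_neg (by omega)]
    rw [h2, ← h]
    simp only [if_true]
    rw [pow_add, Polynomial.C_mul, Polynomial.C_mul]
    ring

theorem sum_pairs (N : ℕ) (F : ℕ → ℝ) : ∑ j ∈ Finset.range (2 * N), F j =
    ∑ n ∈ Finset.range N, (F (2 * n) + F (2 * n + 1)) := by
  induction N with
  | zero => simp
  | succ N ih =>
    rw [Finset.sum_range_succ, ← ih, show 2 * (N + 1) = 2 * N + 1 + 1 by ring,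
      Finset.sum_range_succ, Finset.sum_range_succ]
    ring

theorem exp_eval (a q : ℕ) (κ : ℝ) (M N : ℕ) (p : ℕ → P1) (E : P2)
    (h : Polynomial.C (Polynomial.X ^ M) * E =
      ∑ j ∈ Finset.range (2 * N), Polynomial.C (p j) * bS a q κ j) (z : Fin 2 → ℝ) :
    z 0 ^ M * eval z (Φ E) = ∑ n ∈ Finset.range N, eval z (sA a q κ) ^ n *
      ((p (2 * n)).eval (z 0) + (p (2 * n + 1)).eval (z 0) * z 1) := by
  have h1 := congrArg (fun F => eval z (Φ F)) h
  simp only [map_mul, map_sum, Φ_C] at h1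
  have h2 : eval z (ax (Polynomial.X ^ M)) = z 0 ^ M := by
    rw [eval_ax, Polynomial.eval_pow, Polynomial.eval_X]
  rw [h2, sum_pairs] at h1
  rw [h1]
  refine Finset.sum_congr rfl fun n _ => ?_
  have h3 : eval z (Φ (bS a q κ (2 * n))) = eval z (sA a q κ) ^ n := by
    rw [bS, show 2 * n / 2 = n by omega, show 2 * n % 2 = 0 by omega, pow_zero, mul_one,
      RingHom.map_pow Φ, Φ_Sf, map_pow]
  have h4 : eval z (Φ (bS a q κ (2 * n + 1))) = eval z (sA a q κ) ^ n * z 1 := by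
    rw [bS, show (2 * n + 1) / 2 = n by omega, show (2 * n + 1) % 2 = 1 by omega, pow_one,
      RingHom.map_mul Φ, RingHom.map_pow Φ, Φ_Sf, Φ_X, map_mul, map_pow, eval_X]
  rw [h3, h4, eval_ax, eval_ax]
  ring

/-! ### real points -/

/-- the two roots -/
theorem two_roots (a q : ℕ) (κ x τ : ℝ) (hx : 1 ≤ x) (hτ : 0 ≤ τ) : ∃ y1 y2 : ℝ,
    x ^ a * (y1 ^ 2 - x ^ q) - κ * y1 = τ ∧ x ^ a * (y2 ^ 2 - x ^ q) - κ * y2 = τ ∧
      4 * x ^ q ≤ (y1 - y2) ^ 2 := by
  have hx0 : 0 < x := by linarith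
  have ha : 0 < x ^ a := by positivity
  have hq : 0 < x ^ q := by positivity
  set disc := κ ^ 2 + 4 * x ^ a * (x ^ a * x ^ q + τ) with hd
  have hdisc : 0 ≤ disc := by positivity
  have hsq := Real.sq_sqrt hdisc
  refine ⟨(κ + Real.sqrt disc) / (2 * x ^ a), (κ - Real.sqrt disc) / (2 * x ^ a), ?_, ?_, ?_⟩
  · field_simp
    rw [hd] at hsq ⊢
    nlinarith
  · field_simp
    rw [hd] at hsq ⊢
    nlinarith
  · have h1 : (κ + Real.sqrt disc) / (2 * x ^ a) - (κ - Real.sqrt disc) / (2 * x ^ a) =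
        Real.sqrt disc / x ^ a := by
      field_simp
      ring
    rw [h1, div_pow, hsq, le_div_iff₀ (by positivity), hd]
    have h2 : 0 ≤ κ ^ 2 := sq_nonneg _
    have h3 : 0 ≤ x ^ a * τ := by positivity
    nlinarith

/-- the size of `y` -/
theorem y_bound (a k q : ℕ) (c κ x y : ℝ) (hx : 1 ≤ x)
    (h : |x ^ a * (y ^ 2 - x ^ q) - κ * y| ≤ |c| * x ^ k) :
    y ^ 2 ≤ (κ ^ 2 + 2 + 2 * |c|) * x ^ (q + (k - a)) := by
  have hx0 : 0 < x := by linarith
  have ha : 1 ≤ x ^ a := one_le_pow₀ hx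
  have ha0 : 0 < x ^ a := by positivity
  have hq : 1 ≤ x ^ q := one_le_pow₀ hx
  have hka : 1 ≤ x ^ (k - a) := one_le_pow₀ hx
  have h1 : x ^ k ≤ x ^ a * x ^ (k - a) := by
    rw [← pow_add]
    exact pow_le_pow_right₀ hx (by omega)
  have h2 : x ^ (q + (k - a)) = x ^ q * x ^ (k - a) := pow_add _ _ _
  have h3 := (abs_le.1 h).2
  have hc := abs_nonneg c
  have h4 : x ^ a * y ^ 2 ≤ x ^ a * x ^ q + |c| * (x ^ a * x ^ (k - a)) + κ * y := by
    have := mul_le_mul_of_nonneg_left h1 hc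
    linarith
  have h5 : κ * y ≤ x ^ a * (κ ^ 2 / 2 + y ^ 2 / 2) := by
    have h6 : κ * y ≤ κ ^ 2 / 2 + y ^ 2 / 2 := by nlinarith [sq_nonneg (κ - y)]
    have h7 : 0 ≤ κ ^ 2 / 2 + y ^ 2 / 2 := by positivity
    nlinarith
  have h6 : x ^ a * (y ^ 2 / 2) ≤ x ^ a * (x ^ q + |c| * x ^ (k - a) + κ ^ 2 / 2) := by
    linarith
  have h7 : y ^ 2 / 2 ≤ x ^ q + |c| * x ^ (k - a) + κ ^ 2 / 2 := le_of_mul_le_mul_left h6 ha0
  rw [h2]
  have e1 : x ^ q ≤ x ^ q * x ^ (k - a) := le_mul_of_one_le_right (by positivity) hka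
  have e2 : x ^ (k - a) ≤ x ^ q * x ^ (k - a) := le_mul_of_one_le_left (by positivity) hq
  have e3 : 1 ≤ x ^ q * x ^ (k - a) := hq.trans e1
  have e4 := mul_le_mul_of_nonneg_left e2 hc
  have e5 : κ ^ 2 ≤ κ ^ 2 * (x ^ q * x ^ (k - a)) := le_mul_of_one_le_right (sq_nonneg _) e3
  nlinarith

theorem sA_eval (a q : ℕ) (κ : ℝ) (z : Fin 2 → ℝ) :
    eval z (sA a q κ) = z 0 ^ a * (z 1 ^ 2 - z 0 ^ q) - κ * z 1 := by
  simp only [sA, map_sub, map_mul, map_pow, eval_X, eval_C]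

theorem gA_eval (a k q : ℕ) (c κ : ℝ) (z : Fin 2 → ℝ) :
    eval z (gA a k q c κ) = (c * z 0 ^ k) ^ 2 - 1 - eval z (sA a q κ) ^ 2 := by
  rw [gA]
  simp only [map_sub, map_mul, map_pow, map_one, eval_X, eval_C]
  ring

/-- **Growth and degrees.** -/
theorem growth_deg (a k q : ℕ) (c κ : ℝ) (hk : 1 ≤ k) (hc : c ≠ 0) (E : P2) (B : ℝ) (t : ℕ)
    (hB : ∀ z : Fin 2 → ℝ, 1 ≤ z 0 → 0 ≤ eval z (gA a k q c κ) → |eval z (Φ E)| ≤ B * z 0 ^ t)
    (M N : ℕ) (p : ℕ → P1) (hp : Polynomial.C (Polynomial.X ^ M) * E =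
      ∑ j ∈ Finset.range (2 * N), Polynomial.C (p j) * bS a q κ j) (n : ℕ) (hn : n < N) :
    (p (2 * n + 1) = 0 ∨ 2 * (p (2 * n + 1)).natDegree + (2 * (k * n) + q) ≤ 2 * (t + M)) ∧
    (p (2 * n) = 0 ∨ 2 * (p (2 * n)).natDegree + 2 * (k * n) ≤ 2 * (t + M) + (k - a)) := by
  -- the nodes
  have hc0 : 0 < |c| := abs_pos.2 hc
  set s : Fin N → ℝ := fun j => |c| / c / (2 * ((j : ℕ) + 2)) with hs
  have hsign : |c| / c ≠ 0 := div_ne_zero hc0.ne' hc
  have hsinj : Function.Injective s := by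
    intro i j hij
    simp only [hs] at hij
    have hi : (0 : ℝ) < 2 * ((i : ℕ) + 2) := by positivity
    have hj : (0 : ℝ) < 2 * ((j : ℕ) + 2) := by positivity
    rw [div_eq_div_iff hi.ne' hj.ne'] at hij
    have h1 := mul_left_cancel₀ hsign hij
    have h2 : ((i : ℕ) : ℝ) = ((j : ℕ) : ℝ) := by linarith
    exact Fin.ext (by exact_mod_cast h2)
  have hcs : ∀ j, c * s j = |c| / (2 * ((j : ℕ) + 2)) := by
    intro j
    simp only [hs]
    field_simp
  have hcs0 : ∀ j, 0 ≤ c * s j := fun j => by rw [hcs]; positivity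
  have hcs1 : ∀ j, (c * s j) ^ 2 ≤ c ^ 2 / 4 := fun j => by
    rw [hcs, div_pow, sq_abs]
    apply div_le_div_of_nonneg_left (by positivity) (by norm_num)
    have : (0 : ℝ) ≤ (j : ℕ) := Nat.cast_nonneg _
    nlinarith
  obtain ⟨Λ, hΛ, hint⟩ := interp N s hsinj
  set C1 := κ ^ 2 + 2 + 2 * |c| with hC1
  have hC10 : 0 ≤ C1 := by positivity
  set R : ℝ := max 1 (2 / c ^ 2) with hR
  set B' := |B| with hB'
  have hc2 : 0 < c ^ 2 := by positivity
  -- points of the set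
  have hmain : ∀ x, R ≤ x → ∀ j : Fin N, ∃ y1 y2 : ℝ,
      x ^ a * (y1 ^ 2 - x ^ q) - κ * y1 = (c * x ^ k) * s j ∧
      x ^ a * (y2 ^ 2 - x ^ q) - κ * y2 = (c * x ^ k) * s j ∧
      4 * x ^ q ≤ (y1 - y2) ^ 2 ∧ y1 ^ 2 ≤ C1 * x ^ (q + (k - a)) ∧
      |eval ![x, y1] (Φ E)| ≤ B' * x ^ t ∧ |eval ![x, y2] (Φ E)| ≤ B' * x ^ t := by
    intro x hx j
    have hx1 : 1 ≤ x := (le_max_left _ _).trans hx
    have hx2 : 2 / c ^ 2 ≤ x := (le_max_right _ _).trans hx
    have hx0 : 0 < x := by linarith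
    have hτ : 0 ≤ (c * x ^ k) * s j := by
      have h1 : (c * x ^ k) * s j = (c * s j) * x ^ k := by ring
      rw [h1]
      exact mul_nonneg (hcs0 j) (by positivity)
    obtain ⟨y1, y2, h1, h2, h3⟩ := two_roots a q κ x _ hx1 hτ
    have hmem : ∀ y, x ^ a * (y ^ 2 - x ^ q) - κ * y = (c * x ^ k) * s j →
        |eval ![x, y] (Φ E)| ≤ B' * x ^ t := by
      intro y hy
      have hz : 0 ≤ eval ![x, y] (gA a k q c κ) := by
        rw [gA_eval, sA_eval]
        have e0 : (![x, y] : Fin 2 → ℝ) 0 = x := rfl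
        have e1 : (![x, y] : Fin 2 → ℝ) 1 = y := rfl
        rw [e0, e1, hy]
        have e2 : ((c * x ^ k) * s j) ^ 2 = (c * s j) ^ 2 * (x ^ k) ^ 2 := by ring
        rw [e2, mul_pow]
        have e3 : x ≤ x ^ k := le_self_pow₀ hx1 (by omega)
        have e4 : x ≤ (x ^ k) ^ 2 := by nlinarith
        have e5 : 2 ≤ c ^ 2 * (x ^ k) ^ 2 := by
          rw [div_le_iff₀ hc2] at hx2
          nlinarith
        have e6 := mul_le_mul_of_nonneg_right (hcs1 j) (show 0 ≤ (x ^ k) ^ 2 by positivity)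
        nlinarith
      have h4 := hB ![x, y] hx1 hz
      refine h4.trans ?_
      exact mul_le_mul_of_nonneg_right (le_abs_self B) (by positivity)
    refine ⟨y1, y2, h1, h2, h3, ?_, hmem y1 h1, hmem y2 h2⟩
    apply y_bound a k q c κ x y1 hx1
    rw [h1]
    have h4 : (c * x ^ k) * s j = (c * s j) * x ^ k := by ring
    rw [h4, abs_mul, abs_of_nonneg (hcs0 j), abs_of_pos (show 0 < x ^ k by positivity)]
    refine mul_le_mul_of_nonneg_right ?_ (by positivity)
    have h5 : (c * s j) ^ 2 ≤ |c| ^ 2 := by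
      rw [sq_abs]
      have := hcs1 j
      nlinarith
    exact (abs_le_of_sq_le_sq' h5 hc0.le).2
  -- the coefficients
  have hkey : ∀ x, R ≤ x →
      ((p (2 * n + 1)).eval x * (c * x ^ k) ^ n) ^ 2 * x ^ q ≤ (Λ * B') ^ 2 * x ^ (2 * (t + M)) ∧
      ((p (2 * n)).eval x * (c * x ^ k) ^ n) ^ 2 ≤
        (Λ * (B' * (1 + Real.sqrt C1))) ^ 2 * x ^ (2 * (t + M) + (k - a)) := by
    intro x hx
    have hx1 : 1 ≤ x := (le_max_left _ _).trans hx
    have hx0 : 0 < x := by linarith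
    set r := Real.sqrt (x ^ q) with hr
    have hr2 : r ^ 2 = x ^ q := Real.sq_sqrt (by positivity)
    have hr0 : 0 < r := Real.sqrt_pos.2 (by positivity)
    set ρ := Real.sqrt (x ^ (k - a)) with hρ
    have hρ2 : ρ ^ 2 = x ^ (k - a) := Real.sq_sqrt (by positivity)
    have hρ1 : 1 ≤ ρ := by
      rw [hρ]
      exact Real.one_le_sqrt.2 (one_le_pow₀ hx1)
    have hB0 : 0 ≤ B' := abs_nonneg B
    set H := B' * x ^ (t + M) / r with hH
    have hH0 : 0 ≤ H := by positivity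
    -- expansions
    have hexp : ∀ (j : Fin N) (y : ℝ), x ^ a * (y ^ 2 - x ^ q) - κ * y = (c * x ^ k) * s j →
        x ^ M * eval ![x, y] (Φ E) =
        ∑ n : Fin N, ((p (2 * (n : ℕ))).eval x * (c * x ^ k) ^ (n : ℕ)) * s j ^ (n : ℕ) +
        y * ∑ n : Fin N, ((p (2 * (n : ℕ) + 1)).eval x * (c * x ^ k) ^ (n : ℕ)) *
          s j ^ (n : ℕ) := by
      intro j y hy
      have h1 := exp_eval a q κ M N p E hp ![x, y]
      rw [sA_eval] at h1
      have e0 : (![x, y] : Fin 2 → ℝ) 0 = x := rfl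
      have e1 : (![x, y] : Fin 2 → ℝ) 1 = y := rfl
      rw [e0, e1, hy] at h1
      rw [h1, Finset.mul_sum, ← Finset.sum_add_distrib, ← Fin.sum_univ_eq_sum_range
        (fun n => ((c * x ^ k) * s j) ^ n * ((p (2 * n)).eval x + (p (2 * n + 1)).eval x * y)) N]
      refine Finset.sum_congr rfl fun n _ => ?_
      rw [mul_pow]
      ring
    have hQ : ∀ j : Fin N, |∑ n : Fin N, ((p (2 * (n : ℕ) + 1)).eval x * (c * x ^ k) ^ (n : ℕ)) *
        s j ^ (n : ℕ)| ≤ H := by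
      intro j
      obtain ⟨y1, y2, h1, h2, h3, -, h5, h6⟩ := hmain x hx j
      have e1 := hexp j y1 h1
      have e2 := hexp j y2 h2
      set σ := ∑ n : Fin N, ((p (2 * (n : ℕ) + 1)).eval x * (c * x ^ k) ^ (n : ℕ)) *
        s j ^ (n : ℕ) with hσ
      have e3 : (y1 - y2) * σ = x ^ M * (eval ![x, y1] (Φ E) - eval ![x, y2] (Φ E)) := by
        linear_combination e2 - e1
      have e4 : |y1 - y2| * |σ| ≤ 2 * (B' * x ^ (t + M)) := by
        rw [← abs_mul, e3, abs_mul, abs_of_pos (show 0 < x ^ M by positivity), pow_add]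
        have e5 := abs_sub (eval ![x, y1] (Φ E)) (eval ![x, y2] (Φ E))
        have e6 : 0 < x ^ M := by positivity
        nlinarith
      have e5 : 2 * r ≤ |y1 - y2| := by
        apply le_of_sq_le_sq _ (abs_nonneg _)
        rw [mul_pow, hr2, sq_abs]
        linarith
      rw [hH, le_div_iff₀ hr0]
      have e6 := mul_le_mul_of_nonneg_right e5 (abs_nonneg σ)
      linarith
    have hP : ∀ j : Fin N, |∑ n : Fin N, ((p (2 * (n : ℕ))).eval x * (c * x ^ k) ^ (n : ℕ)) *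
        s j ^ (n : ℕ)| ≤ B' * (1 + Real.sqrt C1) * x ^ (t + M) * ρ := by
      intro j
      obtain ⟨y1, y2, h1, h2, h3, h4, h5, h6⟩ := hmain x hx j
      have e1 := hexp j y1 h1
      have e2 := hQ j
      set σ := ∑ n : Fin N, ((p (2 * (n : ℕ) + 1)).eval x * (c * x ^ k) ^ (n : ℕ)) *
        s j ^ (n : ℕ) with hσ
      set π := ∑ n : Fin N, ((p (2 * (n : ℕ))).eval x * (c * x ^ k) ^ (n : ℕ)) *
        s j ^ (n : ℕ) with hπ
      have e3 : π = x ^ M * eval ![x, y1] (Φ E) - y1 * σ := by linarith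
      have e4 : |y1| ≤ Real.sqrt C1 * (r * ρ) := by
        apply abs_le_of_sq_le_sq _ (by positivity)
        rw [mul_pow, mul_pow, hr2, hρ2, Real.sq_sqrt hC10, ← pow_add]
        exact h4
      rw [e3]
      refine (abs_sub _ _).trans ?_
      rw [abs_mul, abs_mul, abs_of_pos (show 0 < x ^ M by positivity)]
      have e5 : x ^ M * |eval ![x, y1] (Φ E)| ≤ B' * x ^ (t + M) * ρ := by
        calc x ^ M * |eval ![x, y1] (Φ E)| ≤ x ^ M * (B' * x ^ t) :=
              mul_le_mul_of_nonneg_left h5 (by positivity)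
          _ = B' * x ^ (t + M) * 1 := by rw [pow_add]; ring
          _ ≤ B' * x ^ (t + M) * ρ := mul_le_mul_of_nonneg_left hρ1 (by positivity)
      have e6 : |y1| * |σ| ≤ Real.sqrt C1 * B' * x ^ (t + M) * ρ := by
        calc |y1| * |σ| ≤ (Real.sqrt C1 * (r * ρ)) * H := by gcongr
          _ = Real.sqrt C1 * B' * x ^ (t + M) * ρ := by
            rw [hH]
            field_simp
      linarith
    have hQn := hint (fun n : Fin N => (p (2 * (n : ℕ) + 1)).eval x * (c * x ^ k) ^ (n : ℕ)) H hH0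
      hQ ⟨n, hn⟩
    have hPn := hint (fun n : Fin N => (p (2 * (n : ℕ))).eval x * (c * x ^ k) ^ (n : ℕ))
      (B' * (1 + Real.sqrt C1) * x ^ (t + M) * ρ) (by positivity) hP ⟨n, hn⟩
    simp only at hQn hPn
    constructor
    · have e1 : ((p (2 * n + 1)).eval x * (c * x ^ k) ^ n) ^ 2 ≤ (Λ * H) ^ 2 := by
        rw [← sq_abs]
        exact pow_le_pow_left₀ (abs_nonneg _) hQn 2
      have e2 := mul_le_mul_of_nonneg_right e1 (show 0 ≤ x ^ q by positivity)
      refine e2.trans (le_of_eq ?_)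
      rw [hH, ← hr2]
      have e3 : x ^ (2 * (t + M)) = (x ^ (t + M)) ^ 2 := by rw [← pow_mul, mul_comm]
      rw [e3]
      field_simp
    · have e1 : ((p (2 * n)).eval x * (c * x ^ k) ^ n) ^ 2 ≤
          (Λ * (B' * (1 + Real.sqrt C1) * x ^ (t + M) * ρ)) ^ 2 := by
        rw [← sq_abs]
        exact pow_le_pow_left₀ (abs_nonneg _) hPn 2
      refine e1.trans (le_of_eq ?_)
      have e3 : x ^ (2 * (t + M) + (k - a)) = (x ^ (t + M)) ^ 2 * ρ ^ 2 := by
        rw [hρ2, pow_add, mul_comm 2 (t + M), pow_mul]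
      rw [e3]
      ring
  have hcn : 0 < (c ^ n) ^ 2 := by positivity
  constructor
  · refine deg_of_bound _ _ _ ((Λ * B') ^ 2 / (c ^ n) ^ 2) R fun x hx => ?_
    have h1 := (hkey x hx).1
    rw [div_mul_eq_mul_div, le_div_iff₀ hcn]
    refine le_trans (le_of_eq ?_) h1
    rw [pow_add, mul_comm 2 (k * n), pow_mul x (k * n), pow_mul x k]
    ring
  · refine deg_of_bound _ _ _ ((Λ * (B' * (1 + Real.sqrt C1))) ^ 2 / (c ^ n) ^ 2) R fun x hx => ?_
    have h1 := (hkey x hx).2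
    rw [div_mul_eq_mul_div, le_div_iff₀ hcn]
    refine le_trans (le_of_eq ?_) h1
    rw [mul_comm 2 (k * n), pow_mul x (k * n), pow_mul x k]
    ring

end Pool.Agent.Helper10.TI
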