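import Pool.Agent.Helper10.TI.FamB

set_option autoImplicit false

/-!
# MP_63c74b: the family, stability for `a < k`, bounded polynomials for `k = a`
-/

open MvPolynomial Pool.Agent.Helper68.QM Filter Topology

namespace Pool.Agent.Helper10.TI

theorem exists_Φ (f : A) : ∃ E : P2, Φ E = f := by
  induction f using MvPolynomial.induction_on with
  | C c =>
    refine ⟨Polynomial.C (Polynomial.C c), ?_⟩
    rw [Φ_C]
    simp [ax]
  | add p q hp hq =>
    obtain ⟨E, rfl⟩ := hp
    obtain ⟨F, rfl⟩ := hq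
    exact ⟨E + F, map_add _ _ _⟩
  | mul_X p i hp =>
    obtain ⟨E, rfl⟩ := hp
    fin_cases i
    · refine ⟨E * Polynomial.C Polynomial.X, ?_⟩
      rw [map_mul, Φ_C]
      simp [ax]
    · refine ⟨E * Polynomial.X, ?_⟩
      rw [map_mul, Φ_X]
      rfl

/-- expansion with the right number of terms -/
theorem exists_exp2 (a q : ℕ) (κ : ℝ) (E : P2) : ∃ (M : ℕ) (p : ℕ → P1),
    (∀ j, E.natDegree < j → p j = 0) ∧ Polynomial.C (Polynomial.X ^ M) * E =
      ∑ j ∈ Finset.range (2 * (E.natDegree + 1)), Polynomial.C (p j) * bS a q κ j := by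
  obtain ⟨M, p, h⟩ := exists_exp a q κ (E.natDegree + 1) E
    (fun j hj => Polynomial.coeff_eq_zero_of_natDegree_lt hj)
  refine ⟨M, fun j => if j ≤ E.natDegree then p j else 0, fun j hj => ?_, ?_⟩
  · simp only
    rw [if_neg (by omega)]
  · rw [h]
    refine Finset.sum_subset_zero_on_sdiff (Finset.range_mono (by omega)) (fun j hj => ?_)
      (fun j hj => ?_)
    · rw [Finset.mem_sdiff, Finset.mem_range, Finset.mem_range] at hj
      simp only
      rw [if_neg (by omega), Polynomial.C_0, zero_mul]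
    · rw [Finset.mem_range] at hj
      simp only
      rw [if_pos (by omega)]

/-- the top coefficient -/
theorem exp_top (a q : ℕ) (κ : ℝ) (E : P2) (M : ℕ) (p : ℕ → P1)
    (hp0 : ∀ j, E.natDegree < j → p j = 0) (hp : Polynomial.C (Polynomial.X ^ M) * E =
      ∑ j ∈ Finset.range (2 * (E.natDegree + 1)), Polynomial.C (p j) * bS a q κ j) :
    Polynomial.X ^ M * E.coeff E.natDegree =
      p E.natDegree * Polynomial.X ^ (a * (E.natDegree / 2)) := by
  have h := congrArg (fun F => F.coeff E.natDegree) hp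
  simp only [Polynomial.finsetSum_coeff, Polynomial.coeff_C_mul] at h
  rw [h, Finset.sum_eq_single E.natDegree, bS_coeff]
  · intro j _ hj
    rcases Nat.lt_or_gt_of_ne hj with h1 | h1
    · rw [Polynomial.coeff_eq_zero_of_natDegree_lt (p := bS a q κ j)
        (by rw [bS_natDegree]; exact h1), mul_zero]
    · rw [hp0 j h1, zero_mul]
  · intro h1
    exact absurd (Finset.mem_range.2 (by omega)) h1

/-- degree of `X ^ a * q` -/
theorem natDegree_X_pow_mul' (n : ℕ) {u : P1} (hu : u ≠ 0) :
    (Polynomial.X ^ n * u).natDegree = n + u.natDegree := by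
  rw [Polynomial.natDegree_mul (pow_ne_zero _ Polynomial.X_ne_zero) hu, Polynomial.natDegree_X_pow]

theorem natDegree_mul_X_pow' (n : ℕ) {u : P1} (hu : u ≠ 0) :
    (u * Polynomial.X ^ n).natDegree = u.natDegree + n := by
  rw [Polynomial.natDegree_mul hu (pow_ne_zero _ Polynomial.X_ne_zero), Polynomial.natDegree_X_pow]

theorem BD_Sf (a q : ℕ) (κ : ℝ) : Ctx.BD 2 (a + q) (Sf a q κ) := by
  rw [Sf]
  refine Ctx.BD.add ?_ (Ctx.BD.add ?_ ?_)
  · have h1 : Ctx.BD 0 (a + q) (Polynomial.C (Polynomial.X ^ a)) :=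
      Ctx.BD.cc _ (by rw [Polynomial.natDegree_X_pow]; omega)
    exact (h1.mul (Ctx.BD.varX.pow 2)).mono (by omega) (by omega)
  · have h1 : Ctx.BD 0 0 (Polynomial.C (-Polynomial.C κ)) :=
      Ctx.BD.cc _ (by rw [Polynomial.natDegree_neg, Polynomial.natDegree_C])
    exact (h1.mul Ctx.BD.varX).mono (by omega) (by omega)
  · have h1 : Ctx.BD 0 (a + q) (Polynomial.C (-Polynomial.X ^ (a + q))) :=
      Ctx.BD.cc _ (by rw [Polynomial.natDegree_neg, Polynomial.natDegree_X_pow])
    exact h1.mono (by omega) le_rfl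

theorem BD_bS (a q : ℕ) (κ : ℝ) (j : ℕ) : Ctx.BD (2 * (j / 2) + j % 2) (j / 2 * (a + q))
    (bS a q κ j) := by
  rw [bS]
  have h1 := ((BD_Sf a q κ).pow (j / 2)).mul (Ctx.BD.varX.pow (j % 2))
  exact h1.mono (by omega) (by omega)

theorem degree_of_coeffs (E : P2) (m d : ℕ) (h : Ctx.BD m d E) : (Φ E).totalDegree ≤ d + m := by
  rw [Φ_sum E (m + 1) (by have := h.1; omega)]
  refine totalDegree_finsetSum_le fun i hi => ?_
  rw [Finset.mem_range] at hi
  refine (totalDegree_mul _ _).trans ?_
  rw [totalDegree_X_pow]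
  have h1 : (ax (E.coeff i)).totalDegree ≤ (E.coeff i).natDegree := by
    rw [ax, Polynomial.aeval_eq_sum_range]
    refine totalDegree_finsetSum_le fun j hj => ?_
    rw [Finset.mem_range] at hj
    refine (totalDegree_smul_le _ _).trans ?_
    rw [totalDegree_X_pow]
    omega
  have h2 := h.2 i
  omega

/-- **The family is stable for `a < k`.** -/
theorem family_stable (a k q : ℕ) (c κ : ℝ) (hka : a < k) (hc : c ≠ 0) :
    Stable (gA a k q c κ) := by
  refine stable_of_growth _ fun μ => ?_
  -- degree bound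
  obtain ⟨D, hD⟩ : ∃ D : ℕ, ∀ f ∈ growthSpace (gA a k q c κ) μ, f.totalDegree ≤ D := by
    set t := (q + k) * μ with ht
    refine ⟨(t + k + (t + k) * (a + q)) + (2 * (t + k) + 1), fun f hf => ?_⟩
    obtain ⟨K, hK⟩ := hf
    obtain ⟨E, rfl⟩ := exists_Φ f
    by_cases hE0 : E = 0
    · rw [hE0]; simp
    set C1 := κ ^ 2 + 2 + 2 * |c| with hC1
    have hC10 : 0 ≤ C1 := by positivity
    have hB : ∀ z : Fin 2 → ℝ, 1 ≤ z 0 → 0 ≤ eval z (gA a k q c κ) →
        |eval z (Φ E)| ≤ (|K| * (2 + Real.sqrt C1) ^ μ) * z 0 ^ t := by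
      intro z hz hg
      have hz0 : 0 < z 0 := by linarith
      have h1 : |eval z (sA a q κ)| ≤ |c| * z 0 ^ k := by
        rw [gA_eval] at hg
        apply abs_le_of_sq_le_sq _ (by positivity)
        rw [mul_pow, sq_abs]
        nlinarith
      rw [sA_eval] at h1
      have h2 := y_bound a k q c κ (z 0) (z 1) hz h1
      have h3 : (1 : ℝ) ≤ z 0 ^ (q + k) := one_le_pow₀ hz
      have h4 : |z 1| ≤ Real.sqrt C1 * z 0 ^ (q + k) := by
        apply abs_le_of_sq_le_sq _ (by positivity)
        rw [mul_pow, Real.sq_sqrt hC10, ← pow_mul]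
        refine h2.trans (mul_le_mul_of_nonneg_left ?_ hC10)
        exact pow_le_pow_right₀ hz (by omega)
      have h5 : z 0 ≤ z 0 ^ (q + k) := le_self_pow₀ hz (by omega)
      have h6 : ‖z‖ ≤ (1 + Real.sqrt C1) * z 0 ^ (q + k) := by
        rw [pi_norm_le_iff_of_nonneg (by positivity)]
        intro i
        have hs : 0 ≤ Real.sqrt C1 * z 0 ^ (q + k) := by positivity
        fin_cases i
        · change |z 0| ≤ _
          rw [abs_of_pos hz0]
          linarith
        · change |z 1| ≤ _
          linarith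
      have h7 : 1 + ‖z‖ ≤ (2 + Real.sqrt C1) * z 0 ^ (q + k) := by linarith
      have h8 := norm_nonneg z
      calc |eval z (Φ E)| ≤ K * (1 + ‖z‖) ^ μ := hK z hg
        _ ≤ |K| * (1 + ‖z‖) ^ μ := mul_le_mul_of_nonneg_right (le_abs_self _) (by positivity)
        _ ≤ |K| * ((2 + Real.sqrt C1) * z 0 ^ (q + k)) ^ μ := by gcongr
        _ = (|K| * (2 + Real.sqrt C1) ^ μ) * z 0 ^ t := by
          rw [mul_pow, ht, pow_mul]
          ring
    obtain ⟨M, p, hp0, hp⟩ := exists_exp2 a q κ E
    have hgd := fun n hn => growth_deg a k q c κ (by omega) hc E _ t hB M (E.natDegree + 1) p hp n hn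
    have hpd : ∀ j, p j = 0 ∨ (p j).natDegree + k * (j / 2) ≤ t + k + M := by
      intro j
      by_cases hj : E.natDegree < j
      · exact Or.inl (hp0 j hj)
      · have hn : j / 2 < E.natDegree + 1 := by omega
        obtain ⟨h1, h2⟩ := hgd (j / 2) hn
        rcases Nat.even_or_odd' j with ⟨n, hn' | hn'⟩
        · have e1 : j / 2 = n := by omega
          rw [e1, ← hn'] at h2
          rw [e1]
          rcases h2 with h2 | h2
          · exact Or.inl h2
          · right; omega
        · have e1 : j / 2 = n := by omega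
          rw [e1, ← hn'] at h1
          rw [e1]
          rcases h1 with h1 | h1
          · exact Or.inl h1
          · right; omega
    -- degree in `y`
    have htop := exp_top a q κ E M p hp0 hp
    have hlead : E.coeff E.natDegree ≠ 0 := Polynomial.leadingCoeff_ne_zero.2 hE0
    have hpt : p E.natDegree ≠ 0 := by
      intro h0
      rw [h0, zero_mul] at htop
      exact mul_ne_zero (pow_ne_zero _ Polynomial.X_ne_zero) hlead htop
    have hdt := congrArg Polynomial.natDegree htop
    rw [natDegree_X_pow_mul' _ hlead, natDegree_mul_X_pow' _ hpt] at hdt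
    have hm2 : E.natDegree / 2 ≤ t + k := by
      rcases hpd E.natDegree with h1 | h1
      · exact absurd h1 hpt
      · have h2 : (a + 1) * (E.natDegree / 2) ≤ k * (E.natDegree / 2) :=
          Nat.mul_le_mul_right _ hka
        have h3 : (a + 1) * (E.natDegree / 2) = a * (E.natDegree / 2) + E.natDegree / 2 := by ring
        omega
    -- degrees of the coefficients
    have hcoef : ∀ i, (E.coeff i).natDegree ≤ t + k + (t + k) * (a + q) := by
      intro i
      by_cases hi : E.coeff i = 0
      · rw [hi]; simp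
      have h := congrArg (fun F => F.coeff i) hp
      simp only [Polynomial.finsetSum_coeff, Polynomial.coeff_C_mul] at h
      have h1 : (Polynomial.X ^ M * E.coeff i).natDegree ≤ t + k + M + (t + k) * (a + q) := by
        rw [h]
        refine Polynomial.natDegree_sum_le_of_forall_le _ _ fun j _ => ?_
        by_cases hj : E.natDegree < j
        · rw [hp0 j hj, zero_mul]; simp
        · refine Polynomial.natDegree_mul_le.trans ?_
          have e1 : (p j).natDegree ≤ t + k + M := by
            rcases hpd j with h2 | h2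
            · rw [h2]; simp
            · omega
          have e2 := (BD_bS a q κ j).2 i
          have e3 : j / 2 * (a + q) ≤ (t + k) * (a + q) := Nat.mul_le_mul_right _ (by omega)
          omega
      rw [natDegree_X_pow_mul' _ hi] at h1
      omega
    refine (degree_of_coeffs E (2 * (t + k) + 1) _ ⟨by omega, hcoef⟩)
  have hle : growthSpace (gA a k q c κ) μ ≤ LinearMap.range (Phi D) := by
    intro f hf
    obtain ⟨c, hc⟩ := exists_Phi (hD f hf)
    exact ⟨c, hc⟩
  exact Submodule.finiteDimensional_of_le hle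

/-- the second coefficient of `S ^ n` -/
theorem Sf_pow_coeff (a q : ℕ) (κ : ℝ) (n : ℕ) : (Sf a q κ ^ n).coeff (2 * n) = Polynomial.X ^ (a * n) ∧
    (Sf a q κ ^ (n + 1)).coeff (2 * n + 1) =
      Polynomial.C (-(((n : ℝ) + 1) * κ)) * Polynomial.X ^ (a * n) := by
  have hd : ∀ n, (Sf a q κ ^ n).natDegree ≤ 2 * n := by
    intro n
    refine Polynomial.natDegree_pow_le.trans ?_
    rw [Sf_natDegree, mul_comm]
  have hstep : ∀ n i, (Sf a q κ ^ (n + 1)).coeff (i + 2) = Polynomial.X ^ a * (Sf a q κ ^ n).coeff i +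
      (-Polynomial.C κ * (Sf a q κ ^ n).coeff (i + 1) +
        -Polynomial.X ^ (a + q) * (Sf a q κ ^ n).coeff (i + 2)) := by
    intro n i
    have h1 : Sf a q κ ^ (n + 1) = Polynomial.C (Polynomial.X ^ a) * (Polynomial.X ^ 2 * Sf a q κ ^ n) +
        (Polynomial.C (-Polynomial.C κ) * (Polynomial.X * Sf a q κ ^ n) +
          Polynomial.C (-Polynomial.X ^ (a + q)) * Sf a q κ ^ n) := by
      rw [pow_succ']
      have key : ∀ P : P2, Sf a q κ * P = Polynomial.C (Polynomial.X ^ a) * (Polynomial.X ^ 2 * P) +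
          (Polynomial.C (-Polynomial.C κ) * (Polynomial.X * P) +
            Polynomial.C (-Polynomial.X ^ (a + q)) * P) := by
        intro P
        rw [Sf]
        ring
      exact key _
    rw [h1]
    simp only [Polynomial.coeff_add, Polynomial.coeff_C_mul]
    rw [Polynomial.coeff_X_pow_mul, show i + 2 = (i + 1) + 1 by ring, Polynomial.coeff_X_mul]
  have htop : ∀ n, (Sf a q κ ^ n).coeff (2 * n) = Polynomial.X ^ (a * n) := by
    intro n
    induction n with
    | zero => simp
    | succ n ih =>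
      rw [show 2 * (n + 1) = 2 * n + 2 by ring, hstep, ih,
        Polynomial.coeff_eq_zero_of_natDegree_lt (p := Sf a q κ ^ n) (by have := hd n; omega),
        Polynomial.coeff_eq_zero_of_natDegree_lt (p := Sf a q κ ^ n) (by have := hd n; omega)]
      ring
  refine ⟨htop n, ?_⟩
  induction n with
  | zero =>
    rw [zero_add, pow_one, mul_zero, zero_add, Sf]
    rw [Polynomial.coeff_add, Polynomial.coeff_add, Polynomial.coeff_C_mul, Polynomial.coeff_C_mul,
      Polynomial.coeff_X_pow, Polynomial.coeff_X_one, Polynomial.coeff_C, if_neg (by norm_num),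
      if_neg (by norm_num)]
    simp
  | succ n ih =>
    rw [show 2 * (n + 1) + 1 = (2 * n + 1) + 2 by ring, hstep, ih,
      show 2 * n + 1 + 1 = 2 * (n + 1) by ring, htop (n + 1),
      Polynomial.coeff_eq_zero_of_natDegree_lt (p := Sf a q κ ^ (n + 1))
        (by have := hd (n + 1); omega)]
    simp only [Polynomial.C_neg, Polynomial.C_mul, Polynomial.C_add, Polynomial.C_1, Nat.cast_add,
      Nat.cast_one]
    ring

/-- **Bounded polynomials are constant for `k = a ≤ m`, `q = 2 m + 1`, `κ ≠ 0`.** -/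
theorem family_bounded (a m : ℕ) (c κ : ℝ) (ha : 1 ≤ a) (ham : a ≤ m) (hc : c ≠ 0) (hκ : κ ≠ 0)
    (f : A) (B : ℝ) (hB : ∀ z : Fin 2 → ℝ, 0 ≤ eval z (gA a a (2 * m + 1) c κ) → |eval z f| ≤ B) :
    ∃ r : ℝ, f = C r := by
  set q := 2 * m + 1 with hq
  obtain ⟨E, rfl⟩ := exists_Φ f
  by_cases hE0 : E = 0
  · refine ⟨0, ?_⟩
    rw [hE0, map_zero, C_0]
  obtain ⟨M, p, hp0, hp⟩ := exists_exp2 a q κ E
  have hgd := fun n hn => growth_deg a a q c κ ha hc E B 0 (fun z _ hz => by
    rw [pow_zero, mul_one]; exact hB z hz) M (E.natDegree + 1) p hp n hn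
  have htop := exp_top a q κ E M p hp0 hp
  have hlead : E.coeff E.natDegree ≠ 0 := Polynomial.leadingCoeff_ne_zero.2 hE0
  have hpt : p E.natDegree ≠ 0 := by
    intro h0
    rw [h0, zero_mul] at htop
    exact mul_ne_zero (pow_ne_zero _ Polynomial.X_ne_zero) hlead htop
  have hdt := congrArg Polynomial.natDegree htop
  rw [natDegree_X_pow_mul' _ hlead, natDegree_mul_X_pow' _ hpt] at hdt
  obtain ⟨h1, h2⟩ := hgd (E.natDegree / 2) (by omega)
  rcases Nat.even_or_odd' E.natDegree with ⟨n, hn | hn⟩
  swap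
  · -- odd degree
    exfalso
    have e1 : E.natDegree / 2 = n := by omega
    rw [e1, ← hn] at h1
    rw [e1] at hdt
    rcases h1 with h1 | h1
    · exact hpt h1
    · omega
  -- even degree
  have e1 : E.natDegree / 2 = n := by omega
  rw [e1, ← hn] at h2
  rw [e1] at hdt htop
  have hlead0 : (E.coeff E.natDegree).natDegree = 0 := by
    rcases h2 with h2 | h2
    · exact absurd h2 hpt
    · omega
  obtain ⟨ε, hε⟩ := Polynomial.natDegree_eq_zero.1 hlead0
  have hε0 : ε ≠ 0 := by
    rintro rfl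
    rw [Polynomial.C_0] at hε
    exact hlead hε.symm
  rcases Nat.eq_zero_or_pos n with hn0 | hn0
  · -- constant
    have hE : E.natDegree = 0 := by omega
    refine ⟨ε, ?_⟩
    have h3 := Polynomial.eq_C_of_natDegree_eq_zero hE
    rw [hE] at hε
    rw [h3, ← hε, Φ_C]
    simp [ax]
  -- the next coefficient
  exfalso
  obtain ⟨n, rfl⟩ : ∃ n', n = n' + 1 := ⟨n - 1, by omega⟩
  have h3 := congrArg (fun F => F.coeff (2 * n + 1)) hp
  simp only [Polynomial.finsetSum_coeff, Polynomial.coeff_C_mul] at h3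
  have h4 : ∑ j ∈ Finset.range (2 * (E.natDegree + 1)), p j * (bS a q κ j).coeff (2 * n + 1) =
      p (2 * n + 1) * Polynomial.X ^ (a * n) + p (2 * (n + 1)) *
        (Polynomial.C (-(((n : ℝ) + 1) * κ)) * Polynomial.X ^ (a * n)) := by
    rw [← Finset.sum_subset (s₁ := {2 * n + 1, 2 * (n + 1)})]
    · rw [Finset.sum_pair (by omega), bS_coeff, show (2 * n + 1) / 2 = n by omega]
      congr 2
      rw [bS, show 2 * (n + 1) / 2 = n + 1 by omega, show 2 * (n + 1) % 2 = 0 by omega, pow_zero,
        mul_one]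
      exact (Sf_pow_coeff a q κ n).2
    · intro j hj
      rw [Finset.mem_insert, Finset.mem_singleton] at hj
      rw [Finset.mem_range]
      omega
    · intro j _ hj
      rw [Finset.mem_insert, Finset.mem_singleton, not_or] at hj
      rcases Nat.lt_or_ge j (2 * n + 1) with h | h
      · rw [Polynomial.coeff_eq_zero_of_natDegree_lt (p := bS a q κ j)
          (by rw [bS_natDegree]; exact h), mul_zero]
      · rw [hp0 j (by omega), zero_mul]
  rw [h4] at h3
  have h5 : Polynomial.X ^ (M + a) * E.coeff (2 * n + 1) =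
      p (2 * n + 1) * Polynomial.X ^ (a * (n + 1)) +
        Polynomial.C (-(((n : ℝ) + 1) * κ) * ε) * Polynomial.X ^ M := by
    have h6 : Polynomial.X ^ M * Polynomial.C ε = p (2 * (n + 1)) * Polynomial.X ^ (a * (n + 1)) := by
      rw [hε, ← hn]
      exact htop
    rw [pow_add, mul_comm (Polynomial.X ^ M) (Polynomial.X ^ a), mul_assoc, h3, mul_add a n 1,
      mul_one, pow_add, Polynomial.C_mul]
    rw [mul_add a n 1, mul_one, pow_add] at h6
    linear_combination (-Polynomial.C (-(((n : ℝ) + 1) * κ))) * h6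
  have h6 := congrArg (fun F => F.coeff M) h5
  simp only [Polynomial.coeff_add, Polynomial.coeff_C_mul, Polynomial.coeff_X_pow, if_true,
    mul_one] at h6
  rw [Polynomial.coeff_X_pow_mul', if_neg (by omega)] at h6
  have h7 : (p (2 * n + 1) * Polynomial.X ^ (a * (n + 1))).coeff M = 0 := by
    by_cases hpn : p (2 * n + 1) = 0
    · rw [hpn, zero_mul, Polynomial.coeff_zero]
    apply Polynomial.coeff_eq_zero_of_natDegree_lt
    rw [natDegree_mul_X_pow' _ hpn]
    obtain ⟨h8, -⟩ := hgd n (by omega)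
    rcases h8 with h8 | h8
    · exact absurd h8 hpn
    · have h9 : a * (n + 1) = a * n + a := by ring
      omega
  rw [h7, zero_add] at h6
  have hn1 : (0 : ℝ) < (n : ℝ) + 1 := by positivity
  exact mul_ne_zero (neg_ne_zero.2 (mul_ne_zero hn1.ne' hκ)) hε0 h6.symm

end Pool.Agent.Helper10.TI
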