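import Pool.Agent.Helper10.TI.Fam

set_option autoImplicit false

/-!
# MP_63c74b: positive polynomials in `(s, z)` lift to `M`
-/

open MvPolynomial Pool.Agent.Helper68.QM

namespace Pool.Agent.Helper10.TI

/-- all the hypotheses and constants -/
structure Ctx (M : A → Prop) (D : Dat) where
  hM : QMod M
  hT : M (ax D.T ^ 2 - 1)
  /-- the bound for `(S / T) ^ 2` -/
  c0 : ℝ
  hc0 : 0 < c0
  hS : M (C c0 * ax D.T ^ 2 - Φ D.S ^ 2)
  /-- power of `T` divisible by the leading coefficient -/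
  r0 : ℕ
  hL : D.L ∣ D.T ^ r0
  /-- growth of `y ^ i` -/
  K0 : ℕ
  hK0 : ∀ i < D.p, Bd M K0 ((X 1 : A) ^ i)
  /-- half of the order of negligible elements -/
  r : ℕ
  /-- the exponent -/
  k : ℕ
  hr : D.kk r0 ≤ r
  hk : 2 * r = k + (D.T.natDegree + 2 + D.lam * D.p)
  hK : K0 + r + D.lam * D.p < k

namespace Ctx

variable {M : A → Prop} {D : Dat} (X : Ctx M D)

theorem e0_le : D.lam * D.p ≤ X.r := by
  have : (X.r0 + 1) * D.T.natDegree + D.L.natDegree + D.lam * D.p ≤ X.r := X.hr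
  omega

theorem t_le : D.T.natDegree + D.lam * D.p ≤ X.r := by
  have : (X.r0 + 1) * D.T.natDegree + D.L.natDegree + D.lam * D.p ≤ X.r := X.hr
  have h2 : D.T.natDegree ≤ (X.r0 + 1) * D.T.natDegree := Nat.le_mul_of_pos_left _ (by omega)
  omega

/-- the family `Q` lifts `x ^ (2 k) f (S / T, x w)` -/
def Lf (f : P2) (Q : P3) : Prop :=
  ∃ N, (∀ m j, N ≤ j → (Q.coeff m).coeff j = 0) ∧
    D.F3 N (2 * X.r : ℕ) (Polynomial.C (Polynomial.C (ix (Polynomial.X ^ (2 * X.k)))) * D.τ f - ι3 Q)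

theorem coeff_ι3 (Q : P3) (m : ℕ) : (ι3 Q).coeff m = ι (Q.coeff m) := Polynomial.coeff_map _ _

theorem small_of (E : P3) (N : ℕ) (h0 : ∀ m j, N ≤ j → (E.coeff m).coeff j = 0)
    (h1 : D.F3 N (2 * X.r : ℕ) (ι3 E)) : Dat.Pos M X.k E := by
  refine Dat.small X.hM X.hK E fun m => ?_
  refine D.lin X.hM X.hT X.hc0.le X.hS X.hL X.hK0 X.hr N _ (fun j hj => ?_) ?_
  · rw [Polynomial.coeff_neg, h0 m j hj, neg_zero]
  · rw [map_neg, ← coeff_ι3]
    exact (h1 m).neg

theorem exists_Lf (f : P2) : ∃ Q, X.Lf f Q := by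
  obtain ⟨N, hN⟩ := D.τ_F3 f le_rfl
  obtain ⟨Q, hQ, hQF⟩ := D.exists_lift3 N
    (Polynomial.C (Polynomial.C (ix (Polynomial.X ^ (2 * X.k)))) * D.τ f) (fun m j hj => by
      have h1 := (hN m).mulC (Dat.dle_X_pow (2 * X.k))
      rw [Polynomial.coeff_C_mul]
      exact D.FF_coeff h1 hj)
  refine ⟨Q, N, hQ, hQF.mono le_rfl ?_⟩
  have := X.e0_le
  exact_mod_cast (by omega : D.lam * D.p ≤ 2 * X.r)

/-- `f` is positive -/
def good (f : P2) : Prop := ∀ Q, X.Lf f Q → Dat.Pos M X.k Q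

theorem good_of_one {f : P2} {Q : P3} (hQ : X.Lf f Q) (h : Dat.Pos M X.k Q) : X.good f := by
  intro R hR
  obtain ⟨N1, a1, b1⟩ := hQ
  obtain ⟨N2, a2, b2⟩ := hR
  have h1 : Dat.Pos M X.k (R - Q) := by
    refine X.small_of _ (max N1 N2) (fun m j hj => ?_) ?_
    · rw [Polynomial.coeff_sub, Polynomial.coeff_sub, a1 m j ((le_max_left _ _).trans hj),
        a2 m j ((le_max_right _ _).trans hj), sub_zero]
    · have h2 := (b1.mono (le_max_left N1 N2) le_rfl).sub (b2.mono (le_max_right N1 N2) le_rfl)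
      have h3 : ι3 (R - Q) = Polynomial.C (Polynomial.C (ix (Polynomial.X ^ (2 * X.k)))) * D.τ f -
        ι3 Q - (Polynomial.C (Polynomial.C (ix (Polynomial.X ^ (2 * X.k)))) * D.τ f - ι3 R) := by
        have h4 : ι3 (R - Q) = ι3 R - ι3 Q := map_sub ι3 R Q
        rw [h4]
        ring
      rw [h3]
      exact h2
  have h2 := h.add X.hM h1
  rwa [show Q + (R - Q) = R by ring] at h2

theorem good_add {f g : P2} (hf : X.good f) (hg : X.good g) : X.good (f + g) := by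
  obtain ⟨Q, hQ⟩ := X.exists_Lf f
  obtain ⟨R, hR⟩ := X.exists_Lf g
  have p1 := hf Q hQ
  have p2 := hg R hR
  obtain ⟨N1, a1, b1⟩ := hQ
  obtain ⟨N2, a2, b2⟩ := hR
  refine X.good_of_one (Q := Q + R) ⟨max N1 N2, fun m j hj => ?_, ?_⟩ (p1.add X.hM p2)
  · rw [Polynomial.coeff_add, Polynomial.coeff_add, a1 m j ((le_max_left _ _).trans hj),
      a2 m j ((le_max_right _ _).trans hj), add_zero]
  · have h2 := (b1.mono (le_max_left N1 N2) le_rfl).add (b2.mono (le_max_right N1 N2) le_rfl)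
    rw [map_add, map_add]
    have h3 : Polynomial.C (Polynomial.C (ix (Polynomial.X ^ (2 * X.k)))) * (D.τ f + D.τ g) -
        (ι3 Q + ι3 R) = Polynomial.C (Polynomial.C (ix (Polynomial.X ^ (2 * X.k)))) * D.τ f -
        ι3 Q + (Polynomial.C (Polynomial.C (ix (Polynomial.X ^ (2 * X.k)))) * D.τ g - ι3 R) := by
      ring
    rw [h3]
    exact h2

theorem good_zero : X.good 0 := by
  refine X.good_of_one (Q := 0) ⟨0, fun m j _ => by simp, ?_⟩ ?_
  · intro m
    simp only [map_zero, mul_zero, sub_zero, Polynomial.coeff_zero]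
    exact Dat.FF.zero _ _
  · refine X.small_of 0 0 (fun m j _ => by simp) ?_
    intro m
    simp only [map_zero, Polynomial.coeff_zero]
    exact Dat.FF.zero _ _

theorem wt_ss (k : ℕ) (U : ℝ) {η : ℝ} (hη : 0 ≤ η) : IsSumSq (Dat.Wt k U η) := by
  rw [Dat.Wt]
  refine IsSumSq.mul (isSumSq_C hη) (IsSumSq.add (isSumSq_C ?_) ?_)
  · rw [pow_mul]; positivity
  · rw [mul_comm 2 k, pow_mul]
    exact isSumSq_sq _

theorem τ_C' (q : P1) : D.τ (Polynomial.C q) = Polynomial.C (D.sv q) := by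
  simp [Dat.τ]

theorem good_smul {f : P2} (hf : X.good f) {r : ℝ} (hr : 0 ≤ r) :
    X.good (Polynomial.C (Polynomial.C r) * f) := by
  obtain ⟨Q, hQ⟩ := X.exists_Lf f
  have p1 := hf Q hQ
  obtain ⟨N1, a1, b1⟩ := hQ
  refine X.good_of_one (Q := Polynomial.C (Polynomial.C (Polynomial.C r)) * Q)
    ⟨N1, fun m j hj => ?_, ?_⟩ ?_
  · rw [Polynomial.coeff_C_mul, Polynomial.coeff_C_mul, a1 m j hj, mul_zero]
  · have e1 : D.τ (Polynomial.C (Polynomial.C r)) =
        Polynomial.C (Polynomial.C (ix (Polynomial.C r))) := by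
      have : D.τ (Polynomial.C (Polynomial.C r)) = Polynomial.C (D.sv (Polynomial.C r)) := by
        simp [Dat.τ]
      rw [this, Dat.sv_C]
    have e2 : ι3 (Polynomial.C (Polynomial.C (Polynomial.C r))) =
        Polynomial.C (Polynomial.C (ix (Polynomial.C r))) := by
      change Polynomial.map _ (Polynomial.C _) = _
      rw [Polynomial.map_C]
      congr 1
      exact Polynomial.map_C ix
    have h1 := b1.mulC (Dat.dle_C r)
    rw [add_zero] at h1
    have h3 : Polynomial.C (Polynomial.C (ix (Polynomial.X ^ (2 * X.k)))) *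
        D.τ (Polynomial.C (Polynomial.C r) * f) -
        ι3 (Polynomial.C (Polynomial.C (Polynomial.C r)) * Q) =
        Polynomial.C (Polynomial.C (ix (Polynomial.C r))) *
        (Polynomial.C (Polynomial.C (ix (Polynomial.X ^ (2 * X.k)))) * D.τ f - ι3 Q) := by
      rw [map_mul, map_mul, e1, e2]
      ring
    rw [h3]
    exact h1
  · intro η hη
    obtain ⟨U0, hU0, h⟩ := p1 (η / (r + 1)) (by positivity)
    refine ⟨U0, hU0, fun U hU => ?_⟩
    have h1 := X.hM.smul hr (h U hU)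
    have h2 := X.hM.add h1 (X.hM.ss (wt_ss X.k U (η := η - r * (η / (r + 1))) (by
      have : r * (η / (r + 1)) = η * (r / (r + 1)) := by ring
      rw [this]
      have h3 : r / (r + 1) ≤ 1 := (div_le_one (by positivity)).2 (by linarith)
      nlinarith)))
    have h4 : Ev U (Polynomial.C (Polynomial.C (Polynomial.C r)) * Q) + Dat.Wt X.k U η =
        C r * (Ev U Q + Dat.Wt X.k U (η / (r + 1))) + Dat.Wt X.k U (η - r * (η / (r + 1))) := by
      rw [map_mul, Ev_C, Φ_C, Dat.Wt, Dat.Wt, Dat.Wt, C_sub, C_mul]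
      have : ax (Polynomial.C r) = C r := by simp [ax]
      rw [this]
      ring
    rw [h4]
    exact h2

theorem coeff_mul_zero {Q R : P3} {N N' : ℕ} (h1 : ∀ m j, N ≤ j → (Q.coeff m).coeff j = 0)
    (h2 : ∀ m j, N' ≤ j → (R.coeff m).coeff j = 0) (m j : ℕ) (hj : N + N' ≤ j) :
    ((Q * R).coeff m).coeff j = 0 := by
  rw [Polynomial.coeff_mul, Polynomial.finsetSum_coeff]
  refine Finset.sum_eq_zero fun p _ => ?_
  rw [Polynomial.coeff_mul]
  refine Finset.sum_eq_zero fun q hq => ?_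
  rw [Finset.HasAntidiagonal.mem_antidiagonal] at hq
  rcases le_or_gt N q.1 with h | h
  · rw [h1 _ _ h, zero_mul]
  · rw [h2 _ _ (by omega), mul_zero]

theorem ix_pow2 (k : ℕ) : (Polynomial.C (Polynomial.C (ix (Polynomial.X ^ (2 * k)))) : Q3) =
    Polynomial.C (Polynomial.C (ix (Polynomial.X ^ k))) *
    Polynomial.C (Polynomial.C (ix (Polynomial.X ^ k))) := by
  rw [← Polynomial.C_mul, ← Polynomial.C_mul, ← map_mul, ← pow_add]
  congr 5
  ring

theorem good_sq {a : P2} (ha : a.natDegree ≤ 2) : X.good (a ^ 2) := by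
  obtain ⟨N, hN⟩ := D.τ_F3 a ha
  set G : Q3 := Polynomial.C (Polynomial.C (ix (Polynomial.X ^ X.k))) * D.τ a with hG
  have hGF : D.F3 N (2 + X.k) G := fun m => by
    rw [hG, Polynomial.coeff_C_mul]
    exact (hN m).mulC (Dat.dle_X_pow X.k)
  obtain ⟨Q, hQ, hQF⟩ := D.exists_lift3 N G (fun m j hj => D.FF_coeff (hGF m) hj)
  set δ : Q3 := G - ι3 Q with hδ
  have he0 := X.e0_le
  have hk := X.hk
  refine X.good_of_one (Q := Q ^ 2) ⟨N + N, fun m j hj => ?_, ?_⟩ ?_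
  · rw [pow_two]
    exact coeff_mul_zero hQ hQ m j hj
  · have h1 : Polynomial.C (Polynomial.C (ix (Polynomial.X ^ (2 * X.k)))) * D.τ (a ^ 2) -
        ι3 (Q ^ 2) = G * δ + δ * G - δ * δ := by
      rw [RingHom.map_pow D.τ, RingHom.map_pow ι3, ix_pow2, hδ, hG]
      ring
    rw [h1]
    refine ((F3r (hGF.mul hQF) ?_).add (F3r (hQF.mul hGF) ?_)).sub (F3r (hQF.mul hQF) ?_)
    · exact_mod_cast (by omega : 2 + X.k + D.lam * D.p ≤ 2 * X.r)
    · exact_mod_cast (by omega : D.lam * D.p + (2 + X.k) ≤ 2 * X.r)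
    · exact_mod_cast (by omega : D.lam * D.p + D.lam * D.p ≤ 2 * X.r)
  · intro η hη
    refine ⟨1, le_rfl, fun U _ => ?_⟩
    rw [map_pow]
    exact X.hM.add (X.hM.ss (isSumSq_sq _)) (X.hM.ss (wt_ss X.k U hη.le))
where
  F3r {N : ℕ} {r r' : ℤ} {G : Q3} (h : D.F3 N r G) (hr : r ≤ r') : D.F3 N r' G := h.mono le_rfl hr

theorem τ_mul_sq (q : P1) (b : P2) : D.τ (Polynomial.C q * b ^ 2) =
    Polynomial.C (D.sv q) * D.τ b ^ 2 := by
  rw [map_mul, map_pow, τ_C']

theorem ι3_mul_sq (W : P2) (Q : P3) : ι3 (Polynomial.C W * Q ^ 2) =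
    Polynomial.C (ι W) * ι3 Q ^ 2 := by
  have h1 := map_mul ι3 (Polynomial.C W) (Q ^ 2)
  have h2 := map_pow ι3 Q 2
  have h3 : ι3 (Polynomial.C W) = Polynomial.C (ι W) := Polynomial.map_C _
  rw [h1, h2, h3]

theorem alg_aux (t x : Kx) (q : Q2) (b G δ Q : Q3)
    (hG : G = Polynomial.C (Polynomial.C x) * b) (hδ : δ = G - Q) :
    Polynomial.C (Polynomial.C t) * (Polynomial.C (Polynomial.C x) * Polynomial.C (Polynomial.C x)) *
      (Polynomial.C q * b ^ 2) - Polynomial.C (Polynomial.C t * q) * Q ^ 2 =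
    Polynomial.C (Polynomial.C t * q) * (G * δ + δ * G - δ * δ) := by
  subst hδ hG
  rw [Polynomial.C_mul]
  ring

theorem good_S {b : P2} (hb : b.natDegree ≤ 2) :
    X.good (Polynomial.C (Polynomial.C X.c0 - Polynomial.X ^ 2) * b ^ 2) := by
  obtain ⟨N, hN⟩ := D.τ_F3 b hb
  set G : Q3 := Polynomial.C (Polynomial.C (ix (Polynomial.X ^ X.k) * (ix D.T)⁻¹)) * D.τ b with hG
  have hd : Dle (ix (Polynomial.X ^ X.k) * (ix D.T)⁻¹) ((X.k : ℤ) + -(D.T.natDegree : ℤ)) :=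
    (Dat.dle_X_pow X.k).mul (Dle.inv D.hT)
  have hGF : D.F3 N (2 + ((X.k : ℤ) + -(D.T.natDegree : ℤ))) G := fun m => by
    rw [hG, Polynomial.coeff_C_mul]
    exact (hN m).mulC hd
  obtain ⟨Q, hQ, hQF⟩ := D.exists_lift3 N G (fun m j hj => D.FF_coeff (hGF m) hj)
  set δ : Q3 := G - ι3 Q with hδ
  -- the factor
  set W : P2 := Polynomial.C (Polynomial.C X.c0 * D.T ^ 2) - D.S ^ 2 with hW
  have hsv : ι W = Polynomial.C (ix (D.T ^ 2)) * D.sv (Polynomial.C X.c0 - Polynomial.X ^ 2) := by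
    rw [hW, RingHom.map_sub, RingHom.map_pow ι, Dat.ιS, Dat.ι_C, RingHom.map_sub D.sv,
      RingHom.map_pow D.sv, Dat.sv_C, Dat.sv_X, RingHom.map_mul ix, Polynomial.C_mul,
      RingHom.map_pow ix, Polynomial.C_pow]
    ring
  obtain ⟨N2, hN2⟩ := D.sv_FF (Polynomial.C X.c0 - Polynomial.X ^ 2)
  have hWF : D.FF N2 ((2 * D.T.natDegree : ℕ) : ℤ) (ι W) := by
    rw [hsv]
    have := hN2.mulC (Dle.poly (D.T ^ 2) (d := 2 * D.T.natDegree) Polynomial.natDegree_pow_le)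
    rwa [zero_add] at this
  have hWz : ∀ j, N2 ≤ j → W.coeff j = 0 := by
    intro j hj
    have h1 := D.FF_coeff hWF hj
    rw [Dat.coeff_ι] at h1
    exact ix_inj (by rw [h1, map_zero])
  have hWF3 : D.F3 N2 ((2 * D.T.natDegree : ℕ) : ℤ) (Polynomial.C (ι W)) := fun m => by
    rw [Polynomial.coeff_C]
    split_ifs
    · exact hWF
    · exact Dat.FF.zero _ _
  have hTT : (Polynomial.C (Polynomial.C (ix (D.T ^ 2))) : Q3) *
      (Polynomial.C (Polynomial.C (ix (Polynomial.X ^ X.k) * (ix D.T)⁻¹)) *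
      Polynomial.C (Polynomial.C (ix (Polynomial.X ^ X.k) * (ix D.T)⁻¹))) =
      Polynomial.C (Polynomial.C (ix (Polynomial.X ^ (2 * X.k)))) := by
    rw [← Polynomial.C_mul, ← Polynomial.C_mul, ← Polynomial.C_mul, ← Polynomial.C_mul]
    congr 2
    have h0 := ix_ne D.hT
    rw [map_pow, show 2 * X.k = X.k + X.k by ring, pow_add, map_mul]
    field_simp
  have ht := X.t_le
  have hk := X.hk
  refine X.good_of_one (Q := Polynomial.C W * Q ^ 2) ⟨N2 + (N + N), fun m j hj => ?_, ?_⟩ ?_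
  · refine coeff_mul_zero (fun m j hj => ?_) (fun m j hj => ?_) m j hj
    · rw [Polynomial.coeff_C]
      split_ifs
      · exact hWz j hj
      · exact Polynomial.coeff_zero _
    · rw [pow_two]
      exact coeff_mul_zero hQ hQ m j hj
  · have h1 : Polynomial.C (Polynomial.C (ix (Polynomial.X ^ (2 * X.k)))) *
        D.τ (Polynomial.C (Polynomial.C X.c0 - Polynomial.X ^ 2) * b ^ 2) -
        ι3 (Polynomial.C W * Q ^ 2) = Polynomial.C (ι W) * (G * δ + δ * G - δ * δ) := by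
      rw [τ_mul_sq, ι3_mul_sq, ← hTT, hsv]
      exact alg_aux _ _ _ _ _ _ _ hG hδ
    rw [h1]
    have hk' : (2 : ℤ) * X.r = X.k + (D.T.natDegree + 2 + D.lam * D.p) := by exact_mod_cast hk
    have ht' : (D.T.natDegree : ℤ) + D.lam * D.p ≤ X.r := by exact_mod_cast ht
    have g1 : D.F3 (N + N) ((2 : ℤ) * X.r - 2 * D.T.natDegree) (G * δ) := by
      refine F3r (hGF.mul hQF) ?_
      push_cast
      linarith
    have g2 : D.F3 (N + N) ((2 : ℤ) * X.r - 2 * D.T.natDegree) (δ * G) := by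
      refine F3r (hQF.mul hGF) ?_
      push_cast
      linarith
    have g3 : D.F3 (N + N) ((2 : ℤ) * X.r - 2 * D.T.natDegree) (δ * δ) := by
      refine F3r (hQF.mul hQF) ?_
      push_cast
      linarith
    have g4 : D.F3 (N + N) ((2 : ℤ) * X.r - 2 * D.T.natDegree) (G * δ + δ * G - δ * δ) :=
      (g1.add g2).sub g3
    refine F3r (hWF3.mul g4) ?_
    push_cast
    linarith
  · intro η hη
    refine ⟨1, le_rfl, fun U _ => ?_⟩
    rw [map_mul, map_pow, Ev_C]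
    have h1 : Φ W = C X.c0 * ax D.T ^ 2 - Φ D.S ^ 2 := by
      rw [hW, map_sub, map_pow, Φ_C]
      simp [ax]
    rw [h1, mul_comm]
    exact X.hM.add (X.hM.sq _ X.hS) (X.hM.ss (wt_ss X.k U hη.le))
where
  F3r {N : ℕ} {r r' : ℤ} {G : Q3} (h : D.F3 N r G) (hr : r ≤ r') : D.F3 N r' G := h.mono le_rfl hr

end Ctx

end Pool.Agent.Helper10.TI
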