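import Pool.Agent.Helper10.TI.Base

set_option autoImplicit false

/-!
# MP_63c74b: a monic polynomial relation bounds `y`
-/

open MvPolynomial Pool.Agent.Helper68.QM

namespace Pool.Agent.Helper10.TI

variable {M : A → Prop}

theorem pow_le_ss (Y : A) {i p : ℕ} (h : i ≤ p) : IsSumSq (C 2 + Y ^ (2 * p) - Y ^ (2 * i) : A) := by
  have h1 := pos_sos Y _ (Polynomial.C 2 + Polynomial.X ^ (2 * p) - Polynomial.X ^ (2 * i)) rfl
    (fun x => by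
    simp only [Polynomial.eval_sub, Polynomial.eval_add,
      Polynomial.eval_pow, Polynomial.eval_X, Polynomial.eval_C]
    rw [pow_mul, pow_mul]
    have h0 : 0 ≤ x ^ 2 := sq_nonneg x
    generalize x ^ 2 = t at h0
    rcases le_total t 1 with h2 | h2
    · have h4 := pow_le_one₀ (n := i) h0 h2
      have h5 : 0 ≤ t ^ p := by positivity
      linarith
    · have h3 := pow_le_pow_right₀ h2 h
      linarith)
  simp only [map_sub, map_add, map_pow, Polynomial.aeval_X, Polynomial.aeval_C] at h1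
  exact h1

theorem raise {K K' : ℕ} (h : K ≤ K') :
    ∃ b : ℝ, 0 < b ∧ IsSumSq (C b * (1 + X 0 ^ (2 * K')) - (1 + X 0 ^ (2 * K)) : A) := by
  obtain ⟨b, hb, h1⟩ := dominated_ss (1 + Polynomial.X ^ (2 * K)) K' (by
    have e1 : (1 + Polynomial.X ^ (2 * K) : Polynomial ℝ).natDegree ≤ 2 * K := by
      compute_degree
    omega)
  refine ⟨b, hb, ?_⟩
  simpa only [ax, map_add, map_pow, map_one, Polynomial.aeval_X] using h1

/-- `E ^ 2` is at most `δ Y ^ (2 p)` plus a polynomial in `x`, for every `δ > 0` -/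
def Sm (M : A → Prop) (p : ℕ) (Y E : A) : Prop :=
  ∀ δ : ℝ, 0 < δ → ∃ (K : ℕ) (c : ℝ), 0 ≤ c ∧
    M (C δ * Y ^ (2 * p) + C c * (1 + X 0 ^ (2 * K)) - E ^ 2)

theorem Sm.add (hM : QMod M) {p : ℕ} {Y E F : A} (hE : Sm M p Y E) (hF : Sm M p Y F) :
    Sm M p Y (E + F) := by
  intro δ hδ
  obtain ⟨K1, c1, hc1, h1⟩ := hE (δ / 4) (by positivity)
  obtain ⟨K2, c2, hc2, h2⟩ := hF (δ / 4) (by positivity)
  obtain ⟨b1, hb1, r1⟩ := raise (le_max_left K1 K2)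
  obtain ⟨b2, hb2, r2⟩ := raise (le_max_right K1 K2)
  refine ⟨max K1 K2, 2 * c1 * b1 + 2 * c2 * b2, by positivity, ?_⟩
  have e1 := hM.smul (show (0 : ℝ) ≤ 2 by norm_num) h1
  have e2 := hM.smul (show (0 : ℝ) ≤ 2 by norm_num) h2
  have e3 := hM.smul (show (0 : ℝ) ≤ 2 * c1 by positivity) (hM.ss r1)
  have e4 := hM.smul (show (0 : ℝ) ≤ 2 * c2 by positivity) (hM.ss r2)
  have e5 := hM.sq (E - F) hM.one
  have e6 := hM.add (hM.add (hM.add e1 e2) (hM.add e3 e4)) e5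
  have e7 : (C δ : A) = 4 * C (δ / 4) := by
    rw [show (4 : A) = C 4 from rfl, ← C_mul]
    congr 1
    ring
  have e8 : C δ * Y ^ (2 * p) + C (2 * c1 * b1 + 2 * c2 * b2) * (1 + X 0 ^ (2 * max K1 K2)) -
      (E + F) ^ 2 = C 2 * (C (δ / 4) * Y ^ (2 * p) + C c1 * (1 + X 0 ^ (2 * K1)) - E ^ 2) +
        C 2 * (C (δ / 4) * Y ^ (2 * p) + C c2 * (1 + X 0 ^ (2 * K2)) - F ^ 2) +
        (C (2 * c1) * (C b1 * (1 + X 0 ^ (2 * max K1 K2)) - (1 + X 0 ^ (2 * K1))) +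
        C (2 * c2) * (C b2 * (1 + X 0 ^ (2 * max K1 K2)) - (1 + X 0 ^ (2 * K2)))) +
        (E - F) ^ 2 * 1 := by
    rw [e7, show (C 2 : A) = 2 from rfl]
    simp only [C_add, C_mul]
    rw [show (C 2 : A) = 2 from rfl]
    ring
  rw [e8]
  exact e6

theorem Sm.zero (hM : QMod M) (p : ℕ) (Y : A) : Sm M p Y 0 := by
  intro δ hδ
  refine ⟨0, 0, le_rfl, ?_⟩
  have h := hM.smul hδ.le (hM.ss (isSumSq_sq (Y ^ p)))
  have h2 : C δ * Y ^ (2 * p) + C 0 * (1 + X 0 ^ (2 * 0)) - 0 ^ 2 = C δ * (Y ^ p) ^ 2 := by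
    rw [← pow_mul, mul_comm p 2]
    simp
  rw [h2]
  exact h

theorem Sm.sum (hM : QMod M) {p : ℕ} {Y : A} (n : ℕ) (f : ℕ → A)
    (h : ∀ i < n, Sm M p Y (f i)) : Sm M p Y (∑ i ∈ Finset.range n, f i) := by
  induction n with
  | zero => rw [Finset.sum_range_zero]; exact Sm.zero hM p Y
  | succ n ih =>
    rw [Finset.sum_range_succ]
    exact (ih fun i hi => h i (by omega)).add hM (h n (by omega))

theorem sm_pow (hM : QMod M) (p : ℕ) (Y : A) : ∀ j < p, ∀ W : Polynomial ℝ,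
    Sm M p Y (ax W * Y ^ j) := by
  intro j
  induction j with
  | zero =>
    intro hp W δ hδ
    obtain ⟨c, hc, h1⟩ := dominated_ss (W ^ 2) W.natDegree (Polynomial.natDegree_pow_le)
    refine ⟨W.natDegree, c, hc.le, ?_⟩
    have h2 := hM.add (hM.smul hδ.le (hM.ss (isSumSq_sq (Y ^ p)))) (hM.ss h1)
    have h3 : C δ * Y ^ (2 * p) + C c * (1 + X 0 ^ (2 * W.natDegree)) - (ax W * Y ^ 0) ^ 2 =
        C δ * (Y ^ p) ^ 2 + (C c * (1 + X 0 ^ (2 * W.natDegree)) - ax (W ^ 2)) := by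
      rw [← pow_mul, mul_comm p 2]
      simp only [ax, map_pow]
      ring
    rw [h3]
    exact h2
  | succ j ih =>
    intro hj W δ hδ
    obtain ⟨K, c, hc, h1⟩ := ih (by omega) (W ^ 2) (δ ^ 2) (by positivity)
    have hC : ∀ K : ℕ, IsSumSq (1 + X 0 ^ (2 * K) : A) := by
      intro K
      refine IsSumSq.add IsSumSq.one ?_
      rw [mul_comm 2 K, pow_mul]
      exact isSumSq_sq _
    -- `(W Y^{j+1})^2 ≤ (δ/2) Y^{2(j+2)} + (1/(2δ)) (W^2 Y^j)^2`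
    refine ⟨K, δ + 1 / (2 * δ) * c, by positivity, ?_⟩
    have e1 := hM.sq (C δ * Y ^ (j + 2) - ax (W ^ 2) * Y ^ j) hM.one
    have e2 := hM.ss (pow_le_ss Y (show j + 2 ≤ p by omega))
    have e3 := hM.smul (show (0 : ℝ) ≤ 1 / (2 * δ) by positivity) e1
    have e4 := hM.smul (show (0 : ℝ) ≤ δ / 2 by positivity) e2
    have e5 := hM.smul (show (0 : ℝ) ≤ 1 / (2 * δ) by positivity) h1
    have e6 := hM.smul hδ.le (hM.ss (isSumSq_sq (X 0 ^ K : A)))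
    have e7 := hM.add (hM.add (hM.add e3 e4) e5) e6
    have f1 : (C (1 / (2 * δ)) * C δ : A) = C (1 / 2) := by
      rw [← C_mul]; congr 1; field_simp
    have f2 : (C (δ / 2) : A) = C (1 / 2) * C δ := by
      rw [← C_mul]; congr 1; ring
    have f3 : (C (1 / 2) * 2 : A) = 1 := by
      rw [show (2 : A) = C 2 from rfl, ← C_mul, ← C_1]; congr 1; norm_num
    have e8 : C δ * Y ^ (2 * p) + C (δ + 1 / (2 * δ) * c) * (1 + X 0 ^ (2 * K)) -
        (ax W * Y ^ (j + 1)) ^ 2 =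
        C (1 / (2 * δ)) * ((C δ * Y ^ (j + 2) - ax (W ^ 2) * Y ^ j) ^ 2 * 1) +
        C (δ / 2) * (C 2 + Y ^ (2 * p) - Y ^ (2 * (j + 2))) +
        C (1 / (2 * δ)) * (C (δ ^ 2) * Y ^ (2 * p) + C c * (1 + X 0 ^ (2 * K)) -
          (ax (W ^ 2) * Y ^ j) ^ 2) + C δ * (X 0 ^ K) ^ 2 := by
      rw [show (C 2 : A) = 2 from rfl]
      simp only [ax, map_pow, C_add, C_mul, f2]
      have g1 : (C (1 / (2 * δ)) * C δ ^ 2 : A) = C (1 / 2) * C δ := by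
        rw [pow_two, ← mul_assoc, f1]
      have p1 : (Y ^ (j + 2)) ^ 2 = Y ^ (2 * (j + 2)) := by ring
      have p2 : Y ^ (j + 2) * Y ^ j = (Y ^ (j + 1)) ^ 2 := by ring
      have p3 : (X 0 ^ K : A) ^ 2 = X 0 ^ (2 * K) := by ring
      linear_combination (-(Y ^ (j + 2)) ^ 2 - Y ^ (2 * p)) * g1 +
        (2 * Y ^ (j + 2) * Y ^ j * (Polynomial.aeval (X 0 : A) W) ^ 2) * f1 -
        C (1 / 2) * C δ * p1 + (2 * C (1 / 2) * (Polynomial.aeval (X 0 : A) W) ^ 2) * p2 -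
        C δ * p3 + ((Y ^ (j + 1)) ^ 2 * (Polynomial.aeval (X 0 : A) W) ^ 2 - C δ * Y ^ (2 * p) - C δ) * f3
    rw [e8]
    exact e7

/-- **Growth lemma.** -/
theorem growth_pow (hM : QMod M) (p : ℕ) (Y : A) (R : ℕ → Polynomial ℝ) (K1 : ℕ)
    (hN : Bd M K1 (Y ^ p + ∑ i ∈ Finset.range p, ax (R i) * Y ^ i)) :
    ∃ K2, ∀ i ≤ p, Bd M K2 (Y ^ i) := by
  obtain ⟨c1, hc1, h1⟩ := hN
  set G := ∑ i ∈ Finset.range p, ax (R i) * Y ^ i with hG
  obtain ⟨K, c2, hc2, h2⟩ := Sm.sum hM p (fun i => ax (R i) * Y ^ i)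
    (fun i hi => sm_pow hM p Y i hi (R i)) (1 / 4) (by norm_num)
  rw [← hG] at h2
  obtain ⟨b1, hb1, r1⟩ := raise (le_max_left K1 K)
  obtain ⟨b2, hb2, r2⟩ := raise (le_max_right K1 K)
  have key : M (C (4 * c1 * b1 + 4 * c2 * b2) * (1 + X 0 ^ (2 * max K1 K)) - Y ^ (2 * p)) := by
    have e1 := hM.smul (show (0 : ℝ) ≤ 4 by norm_num) h1
    have e2 := hM.smul (show (0 : ℝ) ≤ 4 by norm_num) h2
    have e3 := hM.smul (show (0 : ℝ) ≤ 4 * c1 by positivity) (hM.ss r1)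
    have e4 := hM.smul (show (0 : ℝ) ≤ 4 * c2 by positivity) (hM.ss r2)
    have e5 := hM.smul (show (0 : ℝ) ≤ 2 by norm_num) (hM.sq (Y ^ p + G + G) hM.one)
    have e6 := hM.add (hM.add (hM.add e1 e2) (hM.add e3 e4)) e5
    have f1 : (4 * C (1 / 4) : A) = 1 := by
      rw [show (4 : A) = C 4 from rfl, ← C_mul, ← C_1]; congr 1; norm_num
    have e7 : C (4 * c1 * b1 + 4 * c2 * b2) * (1 + X 0 ^ (2 * max K1 K)) - Y ^ (2 * p) =
        C 4 * (C c1 * (1 + X 0 ^ (2 * K1)) - (Y ^ p + G) ^ 2) +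
        C 4 * (C (1 / 4) * Y ^ (2 * p) + C c2 * (1 + X 0 ^ (2 * K)) - G ^ 2) +
        (C (4 * c1) * (C b1 * (1 + X 0 ^ (2 * max K1 K)) - (1 + X 0 ^ (2 * K1))) +
        C (4 * c2) * (C b2 * (1 + X 0 ^ (2 * max K1 K)) - (1 + X 0 ^ (2 * K)))) +
        C 2 * ((Y ^ p + G + G) ^ 2 * 1) := by
      simp only [C_add, C_mul]
      rw [show (C 2 : A) = 2 from rfl, show (C 4 : A) = 4 from rfl]
      have p1 : (Y ^ p) ^ 2 = Y ^ (2 * p) := by ring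
      linear_combination (2 : A) * p1 - Y ^ (2 * p) * f1
    rw [e7]
    exact e6
  refine ⟨max K1 K, fun i hi => ⟨4 * c1 * b1 + 4 * c2 * b2 + 2, by positivity, ?_⟩⟩
  have e1 := hM.ss (pow_le_ss Y hi)
  have e2 := hM.smul (show (0 : ℝ) ≤ 2 by norm_num) (hM.ss (isSumSq_sq (X 0 ^ (max K1 K) : A)))
  have e3 := hM.add (hM.add key e1) e2
  have e4 : C (4 * c1 * b1 + 4 * c2 * b2 + 2) * (1 + X 0 ^ (2 * max K1 K)) - (Y ^ i) ^ 2 =
      C (4 * c1 * b1 + 4 * c2 * b2) * (1 + X 0 ^ (2 * max K1 K)) - Y ^ (2 * p) +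
      (C 2 + Y ^ (2 * p) - Y ^ (2 * i)) + C 2 * (X 0 ^ max K1 K) ^ 2 := by
    simp only [C_add, C_mul]
    have p3 : (X 0 ^ max K1 K : A) ^ 2 = X 0 ^ (2 * max K1 K) := by ring
    rw [p3]
    ring
  rw [e4]
  exact e3

end Pool.Agent.Helper10.TI
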