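import Pool.Agent.Helper10.TI.Tent

set_option autoImplicit false

/-!
# MP_63c74b: the behaviour of `S / T` along a tentacle
-/

open MvPolynomial Pool.Agent.Helper68.QM Filter Topology

namespace Pool.Agent.Helper10.TI

theorem poly_zero_of_Ioo (q : P1) (a b : ℝ) (hab : a < b) (h : ∀ σ, a < σ → σ < b → q.eval σ = 0) :
    q = 0 := by
  refine Polynomial.eq_zero_of_infinite_isRoot q ?_
  refine (Set.Ioo_infinite hab).mono fun σ hσ => ?_
  exact h σ hσ.1 hσ.2

/-- the numerator `v ^ l T (v ^ e)` -/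
noncomputable def QT (T : P1) (e l : ℕ) : A := X 0 ^ l * Polynomial.aeval (X 0 ^ e : A) T

theorem QT_eval (T : P1) (e l : ℕ) (v σ : ℝ) :
    eval ![v, σ] (QT T e l) = v ^ l * T.eval (v ^ e) := by
  rw [QT, map_mul, map_pow, eval_X]
  have h : eval ![v, σ] (Polynomial.aeval (X 0 ^ e : A) T) = T.eval (v ^ e) := by
    rw [Polynomial.aeval_def, Polynomial.hom_eval₂]
    have h1 : (eval ![v, σ]).comp (algebraMap ℝ A) = RingHom.id ℝ := by
      ext x
      simp [MvPolynomial.algebraMap_eq]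
    rw [h1, map_pow, eval_X]
    rfl
  rw [h]
  rfl

theorem QT_Ψ (T : P1) (e l : ℕ) :
    Ψ (QT T e l) = Polynomial.X ^ l * (T.map Polynomial.C).comp (Polynomial.X ^ e) := by
  have h0 : Ψ (X 0) = Polynomial.X := by simp [Ψ]
  rw [QT, map_mul, map_pow, h0]
  congr 1
  have h1 := Polynomial.aeval_algHom_apply Ψ (X 0 ^ e : A) T
  rw [map_pow, h0] at h1
  rw [← h1, Polynomial.aeval_def, Polynomial.comp, Polynomial.eval₂_map]
  rfl

theorem QT_natDegree (T : P1) (hT : T ≠ 0) (e l : ℕ) (he : 0 < e) :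
    (Ψ (QT T e l)).natDegree = l + e * T.natDegree := by
  have hinj : Function.Injective (Polynomial.C : ℝ →+* P1) := Polynomial.C_injective
  have h1 : (T.map (Polynomial.C : ℝ →+* P1)) ≠ 0 := by
    rwa [Ne, Polynomial.map_eq_zero_iff hinj]
  have h2 : ((T.map (Polynomial.C : ℝ →+* P1)).comp (Polynomial.X ^ e)).natDegree =
      e * T.natDegree := by
    rw [Polynomial.natDegree_comp, Polynomial.natDegree_map_eq_of_injective hinj,
      Polynomial.natDegree_X_pow, mul_comm]
  have h3 : (T.map (Polynomial.C : ℝ →+* P1)).comp (Polynomial.X ^ e) ≠ 0 := by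
    rw [← Polynomial.leadingCoeff_ne_zero, Polynomial.leadingCoeff_comp (by
      rw [Polynomial.natDegree_X_pow]; omega), Polynomial.leadingCoeff_X_pow, one_pow, mul_one]
    exact Polynomial.leadingCoeff_ne_zero.2 h1
  rw [QT_Ψ, Polynomial.natDegree_mul (pow_ne_zero _ Polynomial.X_ne_zero) h3,
    Polynomial.natDegree_X_pow, h2]

theorem QT_coeff (T : P1) (hT : T ≠ 0) (e l : ℕ) (he : 0 < e) :
    (Ψ (QT T e l)).coeff (l + e * T.natDegree) = Polynomial.C T.leadingCoeff := by
  have hinj : Function.Injective (Polynomial.C : ℝ →+* P1) := Polynomial.C_injective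
  have h0 : (Ψ (QT T e l)).leadingCoeff = Polynomial.C T.leadingCoeff := by
    rw [QT_Ψ, Polynomial.leadingCoeff_mul, Polynomial.leadingCoeff_X_pow, one_mul,
      Polynomial.leadingCoeff_comp (by rw [Polynomial.natDegree_X_pow]; omega),
      Polynomial.leadingCoeff_X_pow, one_pow, mul_one, Polynomial.leadingCoeff_map_of_injective hinj]
  rw [← h0, Polynomial.leadingCoeff, QT_natDegree T hT e l he]

/-- `S / T` tends to a polynomial in `σ`, with an error `O (1 / v)` -/
theorem ratio (D : Dat) (t : Tent) (a b : ℝ) (hab : a < b) (h : ℝ → ℝ)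
    (hconv : ∀ σ, a < σ → σ < b →
      Tendsto (fun v => eval (t.pt v σ) (Φ D.S) / D.T.eval (v ^ t.e)) atTop (𝓝 (h σ))) :
    ∃ q : P1, (∀ σ, a < σ → σ < b → q.eval σ = h σ) ∧
      ∀ (v σ c : ℕ → ℝ) (σ1 : ℝ), Tendsto v atTop atTop → Tendsto σ atTop (𝓝 σ1) →
        Tendsto (fun n => c n / v n) atTop (𝓝 0) →
        Tendsto (fun n => c n * (eval (t.pt (v n) (σ n)) (Φ D.S) / D.T.eval (v n ^ t.e) -
          q.eval (σ n))) atTop (𝓝 0) := by
  obtain ⟨QS, -, hQS⟩ := t.lift (Φ D.S) _ le_rfl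
  set l := t.r * (Φ D.S).totalDegree with hl
  set J := l + t.e * D.T.natDegree with hJ
  set lt := D.T.leadingCoeff with hlt
  have hlt0 : lt ≠ 0 := Polynomial.leadingCoeff_ne_zero.2 D.hT
  have hTd : (Ψ (QT D.T t.e l)).natDegree = J := QT_natDegree D.T D.hT t.e l t.he
  have hTc : (Ψ (QT D.T t.e l)).coeff J = Polynomial.C lt := QT_coeff D.T D.hT t.e l t.he
  -- the degree of the numerator
  have hSd : (Ψ QS).natDegree ≤ J := by
    by_contra hcon
    push Not at hcon
    set J' := (Ψ QS).natDegree with hJ'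
    have h0 : (Ψ QS).coeff J' = 0 := by
      refine poly_zero_of_Ioo _ a b hab fun σ h1 h2 => ?_
      have e1 := asym QS J' le_rfl (fun v : ℝ => v) (fun _ => σ) σ tendsto_id tendsto_const_nhds
      have e2 := asym (QT D.T t.e l) J' (by rw [hTd]; exact hcon.le) (fun v : ℝ => v) (fun _ => σ) σ
        tendsto_id tendsto_const_nhds
      have e3 : (Ψ (QT D.T t.e l)).coeff J' = 0 :=
        Polynomial.coeff_eq_zero_of_natDegree_lt (by rw [hTd]; exact hcon)
      rw [e3, Polynomial.eval_zero] at e2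
      have e4 := (hconv σ h1 h2).mul e2
      rw [mul_zero] at e4
      refine tendsto_nhds_unique e1 (e4.congr' ?_)
      have hT0 : ∀ᶠ v : ℝ in atTop, D.T.eval (v ^ t.e) ≠ 0 :=
        (tendsto_pow_atTop t.he.ne').eventually (Polynomial.eventually_atTop_not_isRoot D.T D.hT)
      filter_upwards [eventually_gt_atTop 0, hT0] with v hv hv2
      rw [hQS v σ hv.ne', QT_eval]
      have hv3 : v ^ J' ≠ 0 := pow_ne_zero _ hv.ne'
      field_simp
    have h1 : (Ψ QS).leadingCoeff = 0 := h0
    rw [Polynomial.leadingCoeff_eq_zero] at h1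
    rw [h1, Polynomial.natDegree_zero] at hJ'
    omega
  set q : P1 := Polynomial.C (1 / lt) * (Ψ QS).coeff J with hq
  have hqlt : q * Polynomial.C lt = (Ψ QS).coeff J := by
    rw [hq, mul_comm, ← mul_assoc, ← Polynomial.C_mul, mul_one_div_cancel hlt0, Polynomial.C_1,
      one_mul]
  refine ⟨q, fun σ h1 h2 => ?_, fun v σ c σ1 hv hσ hc => ?_⟩
  · have e1 := asym QS J hSd (fun v : ℝ => v) (fun _ => σ) σ tendsto_id tendsto_const_nhds
    have e2 := asym (QT D.T t.e l) J hTd.le (fun v : ℝ => v) (fun _ => σ) σ tendsto_id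
      tendsto_const_nhds
    rw [hTc, Polynomial.eval_C] at e2
    have e3 := e1.div e2 hlt0
    have e4 : ((Ψ QS).coeff J).eval σ / lt = q.eval σ := by
      rw [hq, Polynomial.eval_mul, Polynomial.eval_C]
      ring
    rw [e4] at e3
    refine tendsto_nhds_unique e3 ((hconv σ h1 h2).congr' ?_)
    filter_upwards [eventually_gt_atTop 0] with v hv
    change _ = eval ![v, σ] QS / v ^ J / (eval ![v, σ] (QT D.T t.e l) / v ^ J)
    rw [hQS v σ hv.ne', QT_eval]
    have hv3 : v ^ J ≠ 0 := pow_ne_zero _ hv.ne'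
    have hv4 : v ^ l ≠ 0 := pow_ne_zero _ hv.ne'
    rw [div_div_div_cancel_right₀ hv3, mul_div_mul_left _ _ hv4]
  · set R : A := X 0 * (QS - Polynomial.aeval (X 1 : A) q * QT D.T t.e l) with hR
    have hΨ0 : Ψ (X 0) = Polynomial.X := by simp [Ψ]
    have hΨ1 : Ψ (Polynomial.aeval (X 1 : A) q) = Polynomial.C q := by
      rw [← Polynomial.aeval_algHom_apply]
      have : Ψ (X 1) = Polynomial.C Polynomial.X := by simp [Ψ]
      rw [this]
      have h3 : Polynomial.aeval (Polynomial.C Polynomial.X : P2) q =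
          Polynomial.C (Polynomial.aeval (Polynomial.X : P1) q) := by
        have := Polynomial.aeval_algebraMap_apply (A := P1) P2 (Polynomial.X : P1) q
        rw [Polynomial.algebraMap_eq] at this
        exact this
      rw [h3, Polynomial.aeval_X_left_apply]
    have hRΨ : Ψ R = Polynomial.X * (Ψ QS - Polynomial.C q * Ψ (QT D.T t.e l)) := by
      rw [hR, map_mul, map_sub, map_mul, hΨ0, hΨ1]
    have hRd : (Ψ R).natDegree ≤ J := by
      rw [hRΨ, Polynomial.natDegree_le_iff_coeff_eq_zero]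
      intro N hN
      obtain ⟨N, rfl⟩ : ∃ m, N = m + 1 := ⟨N - 1, by omega⟩
      rw [Polynomial.coeff_X_mul, Polynomial.coeff_sub, Polynomial.coeff_C_mul]
      rcases eq_or_lt_of_le (show J ≤ N by omega) with h4 | h4
      · rw [← h4, hTc, hqlt, sub_self]
      · rw [Polynomial.coeff_eq_zero_of_natDegree_lt (p := Ψ QS) (by omega),
          Polynomial.coeff_eq_zero_of_natDegree_lt (p := Ψ (QT D.T t.e l)) (by omega), mul_zero,
          sub_zero]
    have e1 := asym R J hRd v σ σ1 hv hσ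
    have e2 := asym (QT D.T t.e l) J hTd.le v σ σ1 hv hσ
    rw [hTc, Polynomial.eval_C] at e2
    have e3 := hc.mul (e1.div e2 hlt0)
    rw [zero_mul] at e3
    refine e3.congr' ?_
    have hT0 : ∀ᶠ n in atTop, D.T.eval (v n ^ t.e) ≠ 0 :=
      ((tendsto_pow_atTop t.he.ne').comp hv).eventually
        (Polynomial.eventually_atTop_not_isRoot D.T D.hT)
    filter_upwards [hv.eventually_gt_atTop 0, hT0] with n hn hn2
    have hv3 : v n ^ J ≠ 0 := pow_ne_zero _ hn.ne'
    have hv4 : v n ^ l ≠ 0 := pow_ne_zero _ hn.ne'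
    have h5 : eval ![v n, σ n] R = v n * (v n ^ l * eval (t.pt (v n) (σ n)) (Φ D.S) -
        q.eval (σ n) * (v n ^ l * D.T.eval (v n ^ t.e))) := by
      rw [hR, map_mul, map_sub, map_mul, eval_X, hQS _ _ hn.ne', QT_eval]
      have h6 : eval ![v n, σ n] (Polynomial.aeval (X 1 : A) q) = q.eval (σ n) := by
        rw [Polynomial.aeval_def, Polynomial.hom_eval₂]
        have h1 : (eval ![v n, σ n]).comp (algebraMap ℝ A) = RingHom.id ℝ := by
          ext x
          simp [MvPolynomial.algebraMap_eq]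
        rw [h1, eval_X]
        rfl
      rw [h6]
      rfl
    change c n / v n * (eval ![v n, σ n] R / v n ^ J / (eval ![v n, σ n] (QT D.T t.e l) / v n ^ J)) = _
    rw [div_div_div_cancel_right₀ hv3, h5, QT_eval]
    field_simp

end Pool.Agent.Helper10.TI
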