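import Pool.Agent.Helper10.TI.Claim

set_option autoImplicit false

/-!
# MP_63c74b: linear bounds with certificates
-/

open MvPolynomial Pool.Agent.Helper68.QM

namespace Pool.Agent.Helper10.TI

variable {M : A → Prop}

/-- `E ≤ c (1 + x ^ (2 K))` with a certificate -/
def Ld (M : A → Prop) (K : ℕ) (E : A) : Prop :=
  ∃ c : ℝ, 0 ≤ c ∧ M (C c * (1 + X 0 ^ (2 * K)) - E)

theorem Ld.add (hM : QMod M) {K : ℕ} {E F : A} (hE : Ld M K E) (hF : Ld M K F) :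
    Ld M K (E + F) := by
  obtain ⟨c, hc, h1⟩ := hE
  obtain ⟨d, hd, h2⟩ := hF
  refine ⟨c + d, by positivity, ?_⟩
  have h3 := hM.add h1 h2
  have h4 : C (c + d) * (1 + X 0 ^ (2 * K)) - (E + F) = C c * (1 + X 0 ^ (2 * K)) - E +
      (C d * (1 + X 0 ^ (2 * K)) - F) := by
    rw [C_add]
    ring
  rw [h4]
  exact h3

theorem Ld.mono (hM : QMod M) {K K' : ℕ} (h : K ≤ K') {E : A} (hE : Ld M K E) : Ld M K' E := by
  obtain ⟨c, hc, h1⟩ := hE
  obtain ⟨b, hb, h2⟩ := raise h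
  refine ⟨c * b, by positivity, ?_⟩
  have h3 := hM.add h1 (hM.smul hc (hM.ss h2))
  have h4 : C (c * b) * (1 + X 0 ^ (2 * K')) - E = C c * (1 + X 0 ^ (2 * K)) - E +
      C c * (C b * (1 + X 0 ^ (2 * K')) - (1 + X 0 ^ (2 * K))) := by
    rw [C_mul]
    ring
  rw [h4]
  exact h3

theorem half_two : (C (1 / 2) * 2 : A) = 1 := by
  rw [show (2 : A) = C 2 from rfl, ← C_mul, ← C_1]; congr 1; norm_num

/-- `F E ≤ (F ^ 2 + E ^ 2) / 2` -/
theorem Ld.of_mul (hM : QMod M) {K : ℕ} {E F : A} (hE : Bd M K E) (hF : Bd M K F) :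
    Ld M K (F * E) := by
  obtain ⟨c, hc, h1⟩ := hE
  obtain ⟨d, hd, h2⟩ := hF
  refine ⟨1 / 2 * c + 1 / 2 * d, by positivity, ?_⟩
  have h3 := hM.smul (show (0 : ℝ) ≤ 1 / 2 by norm_num) (hM.add (hM.add h1 h2) (hM.sq (F - E) hM.one))
  have h4 : C (1 / 2 * c + 1 / 2 * d) * (1 + X 0 ^ (2 * K)) - F * E =
      C (1 / 2) * (C c * (1 + X 0 ^ (2 * K)) - E ^ 2 + (C d * (1 + X 0 ^ (2 * K)) - F ^ 2) +
        (F - E) ^ 2 * 1) := by
    simp only [C_add, C_mul]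
    linear_combination (F * E) * half_two
  rw [h4]
  exact h3

namespace Dat

variable (D : Dat)

theorem dle_X_pow (r : ℕ) : Dle (ix (Polynomial.X ^ r)) (r : ℤ) :=
  Dle.poly _ (Polynomial.natDegree_X_pow_le r)

theorem dle_X_pow_inv (r : ℕ) : Dle (ix (Polynomial.X ^ r))⁻¹ (-(r : ℤ)) := by
  have := Dle.inv (q := (Polynomial.X ^ r : P1)) (pow_ne_zero _ Polynomial.X_ne_zero)
  rwa [Polynomial.natDegree_X_pow] at this

/-- existence of lifts, in terms of `FF` -/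
theorem exists_lift_FF (N : ℕ) (G : Q2) (hG : ∀ j, N ≤ j → G.coeff j = 0) : ∃ E : P2,
    (∀ j, N ≤ j → E.coeff j = 0) ∧ D.FF N (D.lam * D.p : ℕ) (G - ι E) := by
  obtain ⟨E, hE, c, hc, hcd⟩ := exists_lift (D := D) N G hG
  refine ⟨E, hE, c, hc, fun j hj => (hcd j hj).mono ?_⟩
  have h3 : (j % D.p : ℕ) < D.p := Nat.mod_lt _ D.p_pos
  have h4 : ((j % D.p : ℕ) : ℤ) ≤ D.p := by exact_mod_cast h3.le
  have h5 := mul_le_mul_of_nonneg_left h4 (Nat.cast_nonneg D.lam : (0 : ℤ) ≤ D.lam)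
  push_cast
  push_cast at h5
  linarith

theorem lin (hM : QMod M) (hT : M (ax D.T ^ 2 - 1)) {c0 : ℝ} (hc0 : 0 ≤ c0)
    (hS : M (C c0 * ax D.T ^ 2 - Φ D.S ^ 2)) {r0 : ℕ} (hL : D.L ∣ D.T ^ r0) {K0 : ℕ}
    (hK0 : ∀ i < D.p, Bd M K0 ((X 1 : A) ^ i)) {r : ℕ} (hr : D.kk r0 ≤ r) (N : ℕ) (E : P2)
    (hE : ∀ j, N ≤ j → E.coeff j = 0) (hF : D.FF N (2 * r : ℕ) (ι E)) :
    Ld M (K0 + r + D.lam * D.p) (Φ E) := by
  have hkk : D.lam * D.p ≤ r := by
    have : (r0 + 1) * D.T.natDegree + D.L.natDegree + D.lam * D.p ≤ r := hr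
    omega
  set ξ : Kx := ix (Polynomial.X ^ r) with hξ
  have hξ0 : ξ ≠ 0 := ix_ne (pow_ne_zero _ Polynomial.X_ne_zero)
  have hG := hF.mulC (dle_X_pow_inv r)
  obtain ⟨E1, hE1, hE1F⟩ := D.exists_lift_FF N (Polynomial.C ξ⁻¹ * ι E) (fun j hj => by
    rw [Polynomial.coeff_C_mul, coeff_ι, hE j hj, map_zero, mul_zero])
  have h1 : D.FF N r (ι E1) := by
    have h2 : ι E1 = Polynomial.C ξ⁻¹ * ι E - (Polynomial.C ξ⁻¹ * ι E - ι E1) := by ring
    rw [h2]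
    refine (hG.mono le_rfl ?_).sub (hE1F.mono le_rfl ?_)
    · push_cast; linarith
    · exact_mod_cast hkk
  have h2 : D.FF N ((r + D.lam * D.p : ℕ) : ℤ) (ι (E - Polynomial.C (Polynomial.X ^ r) * E1)) := by
    have h3 : ι (E - Polynomial.C (Polynomial.X ^ r) * E1) =
        Polynomial.C ξ * (Polynomial.C ξ⁻¹ * ι E - ι E1) := by
      rw [map_sub, map_mul, ι_C, ← hξ]
      have h4 : (Polynomial.C ξ : Q2) * Polynomial.C ξ⁻¹ = 1 := by
        rw [← Polynomial.C_mul, mul_inv_cancel₀ hξ0, Polynomial.C_1]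
      linear_combination (-ι E) * h4
    rw [h3]
    refine (hE1F.mulC (dle_X_pow r)).mono le_rfl ?_
    push_cast
    linarith
  have b1 := D.claim hM hT hc0 hS hL hK0 hr N E1 hE1 h1
  have b2 := D.claim hM hT hc0 hS hL hK0 (k0 := r + D.lam * D.p) (by omega) N
    (E - Polynomial.C (Polynomial.X ^ r) * E1) (fun j hj => by
      rw [Polynomial.coeff_sub, Polynomial.coeff_C_mul, hE j hj, hE1 j hj]
      ring) h2
  have b3 : Bd M (K0 + r + D.lam * D.p) (ax (Polynomial.X ^ r)) :=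
    Bd.of_ax hM _ ((Polynomial.natDegree_X_pow_le r).trans (by omega))
  have l1 := Ld.of_mul hM (b1.mono hM (show K0 + r ≤ K0 + r + D.lam * D.p by omega)) b3
  have l2 := Ld.of_mul hM (K := K0 + r + D.lam * D.p) (F := 1)
    (b2.mono hM (by omega)) ((Bd.one hM).mono hM (by omega))
  have l3 := l1.add hM l2
  have h5 : Φ E = ax (Polynomial.X ^ r) * Φ E1 +
      1 * Φ (E - Polynomial.C (Polynomial.X ^ r) * E1) := by
    rw [map_sub, map_mul, Φ_C]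
    ring
  rw [h5]
  exact l3

end Dat

end Pool.Agent.Helper10.TI
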