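import Pool.Agent.Helper10.TI.Good

set_option autoImplicit false

/-!
# MP_63c74b: Motzkin's polynomial in `(s, z)`
-/

open MvPolynomial Pool.Agent.Helper68.QM

namespace Pool.Agent.Helper10.TI

/-- univariate certificates -/
theorem univ_cert (c0 : ℝ) (hc0 : 0 < c0) (e : P1)
    (he : ∀ x, -Real.sqrt c0 ≤ x → x ≤ Real.sqrt c0 → 0 < e.eval x) :
    ∃ s t : P1, IsSumSq s ∧ IsSumSq t ∧ e = s + t * (Polynomial.C c0 - Polynomial.X ^ 2) := by
  have hc : 0 < Real.sqrt c0 := Real.sqrt_pos.2 hc0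
  have h1 := univ_mem (g := (C (Real.sqrt c0 ^ 2) - X 0 ^ 2 : A)) (h := X 0) (Real.sqrt c0) hc
    InM.gen _ e rfl he
  obtain ⟨s, t, hs, ht, h2⟩ := h1
  let ρ : A →ₐ[ℝ] P1 := MvPolynomial.aeval ![Polynomial.X, 0]
  have hρ : ∀ {u : A}, IsSumSq u → IsSumSq (ρ u) := by
    intro u hu
    induction hu with
    | zero => rw [map_zero]; exact IsSumSq.zero
    | sq_add b _ ih =>
      rw [map_add, map_mul]
      exact (IsSumSq.mul_self _).add ih
  have h3 := congrArg ρ h2
  have h4 : ρ (Polynomial.aeval (X 0 : A) e) = e := by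
    rw [← Polynomial.aeval_algHom_apply]
    have : ρ (X 0) = Polynomial.X := by simp [ρ]
    rw [this, Polynomial.aeval_X_left_apply]
  have h5 : ρ (C (Real.sqrt c0 ^ 2) - X 0 ^ 2) = Polynomial.C c0 - Polynomial.X ^ 2 := by
    have h6 : ρ (X 0) = Polynomial.X := by simp [ρ]
    rw [Real.sq_sqrt hc0.le, map_sub, map_pow, h6]
    congr 1
    exact MvPolynomial.aeval_C _ _
  rw [h4, map_add, map_mul, h5] at h3
  exact ⟨ρ s, ρ t, hρ hs, hρ ht, h3⟩

namespace Ctx

variable {M : A → Prop} {D : Dat} (X : Ctx M D)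

theorem natDegree_C_mul_le (a : P1) {b : P2} (hb : b.natDegree ≤ 2) :
    (Polynomial.C a * b).natDegree ≤ 2 :=
  (Polynomial.natDegree_C_mul_le a b).trans hb

theorem good_ss {s : P1} (hs : IsSumSq s) {b : P2} (hb : b.natDegree ≤ 2) :
    X.good (Polynomial.C s * b ^ 2) := by
  induction hs with
  | zero => rw [Polynomial.C_0, zero_mul]; exact X.good_zero
  | sq_add a _ ih =>
    have h1 := X.good_add (X.good_sq (natDegree_C_mul_le a hb)) ih
    have h2 : ∀ s' : P1, Polynomial.C (a * a + s') * b ^ 2 =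
        (Polynomial.C a * b) ^ 2 + Polynomial.C s' * b ^ 2 := by
      intro s'
      rw [Polynomial.C_add, Polynomial.C_mul]
      ring
    rw [h2]
    exact h1

theorem good_ssS {s : P1} (hs : IsSumSq s) {b : P2} (hb : b.natDegree ≤ 2) :
    X.good (Polynomial.C (s * (Polynomial.C X.c0 - Polynomial.X ^ 2)) * b ^ 2) := by
  induction hs with
  | zero => rw [zero_mul, Polynomial.C_0, zero_mul]; exact X.good_zero
  | sq_add a _ ih =>
    have h1 := X.good_add (X.good_S (natDegree_C_mul_le a hb)) ih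
    have h2 : ∀ s' : P1, Polynomial.C ((a * a + s') * (Polynomial.C X.c0 - Polynomial.X ^ 2)) *
        b ^ 2 = Polynomial.C (Polynomial.C X.c0 - Polynomial.X ^ 2) * (Polynomial.C a * b) ^ 2 +
        Polynomial.C (s' * (Polynomial.C X.c0 - Polynomial.X ^ 2)) * b ^ 2 := by
      intro s'
      rw [Polynomial.C_mul, Polynomial.C_mul, Polynomial.C_add, Polynomial.C_mul]
      ring
    rw [h2]
    exact h1

theorem good_univ (e : P1) (he : ∀ x, -Real.sqrt X.c0 ≤ x → x ≤ Real.sqrt X.c0 → 0 < e.eval x)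
    {b : P2} (hb : b.natDegree ≤ 2) : X.good (Polynomial.C e * b ^ 2) := by
  obtain ⟨s, t, hs, ht, h⟩ := univ_cert X.c0 X.hc0 e he
  have h1 := X.good_add (X.good_ss hs hb) (X.good_ssS ht hb)
  rw [h, Polynomial.C_add, add_mul]
  exact h1

/-- `N (z - 1)` -/
noncomputable def vv (N : ℝ) : P2 := Polynomial.C (Polynomial.C N) * (Polynomial.X - 1)

/-- `N (s - s0)` -/
noncomputable def uu (N s0 : ℝ) : P1 := Polynomial.C N * (Polynomial.X - Polynomial.C s0)

theorem vv_deg (N : ℝ) : (vv N).natDegree ≤ 1 := by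
  rw [vv]
  compute_degree

/-- the perturbed Motzkin polynomial -/
noncomputable def fmot (s0 N ε : ℝ) : P2 :=
  mot (Polynomial.C (uu N s0)) (vv N) + Polynomial.C (Polynomial.C ε) *
    (1 + vv N ^ 2 + vv N ^ 4)

theorem good_cancel {f : P2} {r : ℝ} (hr : 0 < r)
    (h : X.good (Polynomial.C (Polynomial.C r) * f)) : X.good f := by
  have h1 := X.good_smul h (show (0 : ℝ) ≤ 1 / r by positivity)
  rwa [← mul_assoc, ← Polynomial.C_mul, ← Polynomial.C_mul, one_div, inv_mul_cancel₀ hr.ne',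
    Polynomial.C_1, Polynomial.C_1, one_mul] at h1

theorem good_mot (s0 N ε : ℝ) (hε : 0 < ε) : X.good (fmot s0 N ε) := by
  set c := Real.sqrt X.c0 with hcdef
  have hc : 0 < c := Real.sqrt_pos.2 X.hc0
  obtain ⟨s, hs⟩ := exists_polynomial_near_of_continuousOn (-(|N| * (c + |s0|)))
    (|N| * (c + |s0|)) (fun x => |x|) continuous_abs.continuousOn (ε / 2) (by positivity)
  set Y : Polynomial ℝ := uu N s0 with hY
  have hYev : ∀ x, Y.eval x = N * (x - s0) := by intro x; rw [hY, uu]; simp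
  have hYr : ∀ x, -c ≤ x → x ≤ c → |s.eval (Y.eval x) - abs (Y.eval x)| < ε / 2 := by
    intro x hx hx'
    apply hs
    rw [Set.mem_Icc, ← abs_le, hYev, abs_mul]
    apply mul_le_mul_of_nonneg_left _ (abs_nonneg N)
    have h1 : |x| ≤ c := abs_le.2 ⟨hx, hx'⟩
    have h2 := abs_sub x s0
    linarith
  have hv := vv_deg N
  have hv2 : (vv N ^ 2).natDegree ≤ 2 := by
    refine Polynomial.natDegree_pow_le.trans ?_
    omega
  have hE1 := X.good_univ (Polynomial.C (1 + ε) * (Y ^ 2 + Polynomial.C ε) - s.comp Y ^ 2)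
    (fun x hx hx' => by
      simp only [Polynomial.eval_sub, Polynomial.eval_mul, Polynomial.eval_add,
        Polynomial.eval_pow, Polynomial.eval_C, Polynomial.eval_comp]
      have h1 := abs_lt.1 (hYr x hx hx')
      have h2 := abs_nonneg (Y.eval x)
      have h3 : (Y.eval x) ^ 2 = |Y.eval x| ^ 2 := (sq_abs _).symm
      rw [h3]
      generalize |Y.eval x| = t at *
      generalize s.eval (Y.eval x) = σ at *
      have h4 : σ ^ 2 ≤ (t + ε / 2) ^ 2 := by
        apply sq_le_sq'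
        · linarith
        · linarith
      nlinarith [sq_nonneg (t - 1 / 2), sq_nonneg ε, mul_pos hε hε,
        mul_nonneg hε.le (sq_nonneg (t - 1 / 2))]) hv2
  have hE2 := X.good_univ (Y ^ 4 - 3 * Y ^ 2 + Polynomial.C ε + 2 * s.comp Y)
    (fun x hx hx' => by
      simp only [Polynomial.eval_sub, Polynomial.eval_mul, Polynomial.eval_add,
        Polynomial.eval_pow, Polynomial.eval_C, Polynomial.eval_comp, Polynomial.eval_ofNat]
      have h1 := abs_lt.1 (hYr x hx hx')
      have h2 := abs_nonneg (Y.eval x)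
      have h3 : (Y.eval x) ^ 2 = |Y.eval x| ^ 2 := (sq_abs _).symm
      have h3' : (Y.eval x) ^ 4 = |Y.eval x| ^ 4 := by
        rw [show (4 : ℕ) = 2 * 2 from rfl, pow_mul, pow_mul, h3]
      rw [h3, h3']
      generalize |Y.eval x| = t at *
      generalize s.eval (Y.eval x) = σ at *
      have h4 : 0 ≤ t * (t - 1) ^ 2 * (t + 2) := by positivity
      nlinarith) (b := vv N) (hv.trans (by norm_num))
  have hE0 := X.good_sq (a := Polynomial.C (Polynomial.C (1 + ε)) -
    Polynomial.C (s.comp Y) * vv N ^ 2) (by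
      refine (Polynomial.natDegree_sub_le _ _).trans (max_le ?_ ?_)
      · rw [Polynomial.natDegree_C]; omega
      · exact natDegree_C_mul_le _ hv2)
  have hε1 : (0 : ℝ) < 1 + ε := by positivity
  refine X.good_cancel hε1 ?_
  have h1 : Polynomial.C (Polynomial.C (1 + ε)) * fmot s0 N ε =
      (Polynomial.C (Polynomial.C (1 + ε)) - Polynomial.C (s.comp Y) * vv N ^ 2) ^ 2 +
      Polynomial.C (Polynomial.C (1 + ε) * (Y ^ 2 + Polynomial.C ε) - s.comp Y ^ 2) *
        (vv N ^ 2) ^ 2 +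
      Polynomial.C (Polynomial.C (1 + ε)) *
        (Polynomial.C (Y ^ 4 - 3 * Y ^ 2 + Polynomial.C ε + 2 * s.comp Y) * vv N ^ 2) := by
    rw [fmot, mot, ← hY]
    simp only [map_add, map_sub, map_mul, map_pow, map_one, map_ofNat]
    ring
  rw [h1]
  exact X.good_add (X.good_add hE0 hE1) (X.good_smul hE2 hε1.le)

end Ctx

end Pool.Agent.Helper10.TI
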