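import Pool.Agent.Helper10.TI.Core1

set_option autoImplicit false

/-!
# MP_63c74b: tentacles
-/

open MvPolynomial Pool.Agent.Helper68.QM Filter Topology

namespace Pool.Agent.Helper10.TI

/-- a tentacle `(v, σ) ↦ (v ^ e, Y (v, σ) / v ^ r)` -/
structure Tent where
  /-- exponent -/
  e : ℕ
  /-- order of the pole -/
  r : ℕ
  /-- numerator, in the variables `v = X 0`, `σ = X 1` -/
  Y : A
  he : 0 < e

namespace Tent

variable (t : Tent)

/-- the point -/
noncomputable def pt (v σ : ℝ) : Fin 2 → ℝ := ![v ^ t.e, eval ![v, σ] t.Y / v ^ t.r]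

theorem pt_zero (v σ : ℝ) : t.pt v σ 0 = v ^ t.e := rfl

theorem pt_one (v σ : ℝ) : t.pt v σ 1 = eval ![v, σ] t.Y / v ^ t.r := rfl

theorem lift (P : A) (l : ℕ) (hl : P.totalDegree ≤ l) : ∃ Q : A,
    Q.totalDegree ≤ l * (t.e + t.Y.totalDegree + t.r) ∧
    ∀ v σ : ℝ, v ≠ 0 → eval ![v, σ] Q = v ^ (t.r * l) * eval (t.pt v σ) P := by
  refine ⟨∑ m ∈ P.support, C (coeff m P) * X 0 ^ (t.e * m 0) * t.Y ^ (m 1) *
    X 0 ^ (t.r * (l - m 1)), ?_, fun v σ hv => ?_⟩
  · refine totalDegree_finsetSum_le fun m hm => ?_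
    have h4 := le_totalDegree hm
    have h5 : (m.sum fun _ e => e) = ∑ i, m i := Finsupp.sum_fintype _ _ (fun _ => rfl)
    rw [Fin.sum_univ_two] at h5
    have hm1 : m 0 + m 1 ≤ l := by omega
    have e1 : (X 0 ^ (t.e * m 0) : A).totalDegree = t.e * m 0 := totalDegree_X_pow _ _
    have e2 : (X 0 ^ (t.r * (l - m 1)) : A).totalDegree = t.r * (l - m 1) := totalDegree_X_pow _ _
    have e3 : (t.Y ^ (m 1)).totalDegree ≤ m 1 * t.Y.totalDegree := totalDegree_pow _ _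
    have f1 := totalDegree_mul (C (coeff m P) * X 0 ^ (t.e * m 0) * t.Y ^ (m 1))
      (X 0 ^ (t.r * (l - m 1)))
    have f2 := totalDegree_mul (C (coeff m P) * X 0 ^ (t.e * m 0)) (t.Y ^ (m 1))
    have f3 := totalDegree_mul (C (coeff m P) : A) (X 0 ^ (t.e * m 0))
    rw [totalDegree_C] at f3
    have g1 : t.e * m 0 ≤ t.e * l := Nat.mul_le_mul_left _ (by omega)
    have g2 : t.r * (l - m 1) ≤ t.r * l := Nat.mul_le_mul_left _ (by omega)
    have g3 : m 1 * t.Y.totalDegree ≤ l * t.Y.totalDegree := Nat.mul_le_mul_right _ (by omega)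
    have g4 : l * (t.e + t.Y.totalDegree + t.r) = t.e * l + l * t.Y.totalDegree + t.r * l := by ring
    omega
  · rw [map_sum]
    conv_rhs => rw [P.as_sum, map_sum, Finset.mul_sum]
    refine Finset.sum_congr rfl fun m hm => ?_
    have h4 := le_totalDegree hm
    have h5 : (m.sum fun _ e => e) = ∑ i, m i := Finsupp.sum_fintype _ _ (fun _ => rfl)
    rw [Fin.sum_univ_two] at h5
    have hm1 : m 1 ≤ l := by omega
    rw [eval_monomial, Finsupp.prod_fintype _ _ (fun _ => pow_zero _), Fin.prod_univ_two,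
      pt_zero, pt_one]
    simp only [map_mul, map_pow, eval_C, eval_X]
    have h6 : (![v, σ] : Fin 2 → ℝ) 0 = v := rfl
    rw [h6]
    obtain ⟨j, hj⟩ := Nat.exists_eq_add_of_le hm1
    rw [hj, show m 1 + j - m 1 = j by omega, div_pow, ← pow_mul, mul_add, pow_add, pow_mul,
      pow_mul, pow_mul]
    have hv1 : v ^ t.r ≠ 0 := pow_ne_zero _ hv
    have hv2 : (v ^ t.r) ^ m 1 ≠ 0 := pow_ne_zero _ hv1
    field_simp

theorem lift_ss (P : A) (l : ℕ) (hl : P.totalDegree ≤ 2 * l) (hP : IsSumSq P) : ∃ Q : A,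
    IsSumSq Q ∧ Q.totalDegree ≤ 2 * (l * (t.e + t.Y.totalDegree + t.r)) ∧
    ∀ v σ : ℝ, v ≠ 0 → eval ![v, σ] Q = v ^ (2 * (t.r * l)) * eval (t.pt v σ) P := by
  obtain ⟨n, a, rfl⟩ := IsSumSq.exists_list hP
  choose b hb hb' using fun i => t.lift (a i) l (degree_sum_sq a l hl i)
  refine ⟨∑ i, b i ^ 2, IsSumSq.sum_sq _ _, ?_, fun v σ hv => ?_⟩
  · refine totalDegree_finsetSum_le fun i _ => ?_
    refine (totalDegree_pow _ _).trans ?_
    exact Nat.mul_le_mul_left _ (hb i)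
  · rw [map_sum, map_sum, Finset.mul_sum]
    refine Finset.sum_congr rfl fun i _ => ?_
    rw [map_pow, map_pow, hb' i v σ hv, mul_pow, ← pow_mul]
    congr 2
    ring

end Tent

/-- `ℝ[v, σ] → ℝ[σ][v]` -/
noncomputable def Ψ : A →ₐ[ℝ] P2 := aeval ![Polynomial.X, Polynomial.C Polynomial.X]

theorem Ψ_eval (Q : A) (v σ : ℝ) :
    eval ![v, σ] Q = ((Ψ Q).eval (Polynomial.C v)).eval σ := by
  induction Q using MvPolynomial.induction_on with
  | C c => rw [eval_C, Ψ, aeval_C]; simp [Polynomial.algebraMap_apply]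
  | add p q hp hq => rw [map_add, map_add, Polynomial.eval_add, Polynomial.eval_add, hp, hq]
  | mul_X p i hp =>
    rw [map_mul, map_mul, Polynomial.eval_mul, Polynomial.eval_mul, hp, eval_X]
    congr 1
    fin_cases i <;> simp [Ψ]

theorem Ψ_sum (Q : A) (v σ : ℝ) (n : ℕ) (hn : (Ψ Q).natDegree < n) :
    eval ![v, σ] Q = ∑ j ∈ Finset.range n, ((Ψ Q).coeff j).eval σ * v ^ j := by
  rw [Ψ_eval, Polynomial.eval_eq_sum_range' hn, Polynomial.eval_finsetSum]
  refine Finset.sum_congr rfl fun j _ => ?_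
  rw [Polynomial.eval_mul, Polynomial.eval_pow, Polynomial.eval_C]

theorem Ψ_ne {Q : A} (hQ : Q ≠ 0) : Ψ Q ≠ 0 := by
  intro h
  apply hQ
  apply MvPolynomial.funext
  intro z
  have hz : z = ![z 0, z 1] := by ext i; fin_cases i <;> rfl
  rw [hz, Ψ_eval, h]
  simp

/-- asymptotics along sequences -/
theorem asym (Q : A) (J : ℕ) (hJ : (Ψ Q).natDegree ≤ J) {α : Type} {l : Filter α} (v σ : α → ℝ)
    (σ1 : ℝ) (hv : Tendsto v l atTop) (hσ : Tendsto σ l (𝓝 σ1)) :
    Tendsto (fun n => eval ![v n, σ n] Q / (v n) ^ J) l (𝓝 (((Ψ Q).coeff J).eval σ1)) := by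
  have h1 : Tendsto (fun n => ∑ j ∈ Finset.range (J + 1),
      ((Ψ Q).coeff j).eval (σ n) * ((v n)⁻¹) ^ (J - j)) l
      (𝓝 (∑ j ∈ Finset.range (J + 1), ((Ψ Q).coeff j).eval σ1 * (0 : ℝ) ^ (J - j))) := by
    refine tendsto_finsetSum _ fun j _ => ?_
    refine Tendsto.mul ?_ ?_
    · exact (((Ψ Q).coeff j).continuous.tendsto σ1).comp hσ
    · exact (tendsto_inv_atTop_zero.comp hv).pow _
  have h2 : ∑ j ∈ Finset.range (J + 1), ((Ψ Q).coeff j).eval σ1 * (0 : ℝ) ^ (J - j) =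
      ((Ψ Q).coeff J).eval σ1 := by
    rw [Finset.sum_range_succ, Finset.sum_eq_zero, zero_add, Nat.sub_self, pow_zero, mul_one]
    intro j hj
    rw [Finset.mem_range] at hj
    rw [zero_pow (by omega), mul_zero]
  rw [h2] at h1
  refine h1.congr' ?_
  filter_upwards [hv.eventually_gt_atTop 0] with n hn
  rw [Ψ_sum Q (v n) (σ n) (J + 1) (by omega), Finset.sum_div]
  refine Finset.sum_congr rfl fun j hj => ?_
  rw [Finset.mem_range] at hj
  obtain ⟨i, hi⟩ := Nat.exists_eq_add_of_le (show j ≤ J by omega)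
  rw [hi, show j + i - j = i by omega, pow_add, inv_pow]
  have h3 : v n ^ j ≠ 0 := pow_ne_zero _ hn.ne'
  have h4 : v n ^ i ≠ 0 := pow_ne_zero _ hn.ne'
  field_simp

/-- the leading coefficient is nonnegative if the polynomial is eventually nonnegative -/
theorem lead_nonneg (Q : A) (J : ℕ) (hJ : (Ψ Q).natDegree ≤ J) (σ : ℝ)
    (h : ∀ᶠ v : ℝ in atTop, 0 ≤ eval ![v, σ] Q) : 0 ≤ ((Ψ Q).coeff J).eval σ := by
  have h1 := asym Q J hJ (fun v : ℝ => v) (fun _ => σ) σ tendsto_id tendsto_const_nhds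
  refine ge_of_tendsto h1 ?_
  filter_upwards [h, eventually_gt_atTop 0] with v hv hv'
  positivity

end Pool.Agent.Helper10.TI
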