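import Pool.Agent.Helper10.TI.Lead

set_option autoImplicit false

/-!
# MP_63c74b: values of the family on the set `g ≥ 0`
-/

open MvPolynomial Pool.Agent.Helper68.QM Filter Topology

namespace Pool.Agent.Helper10.TI

theorem eval_ax (z : Fin 2 → ℝ) (q : P1) : eval z (ax q) = q.eval (z 0) := by
  rw [ax, Polynomial.aeval_def, Polynomial.hom_eval₂]
  have h1 : (eval z).comp (algebraMap ℝ A) = RingHom.id ℝ := by
    ext x
    simp [MvPolynomial.algebraMap_eq]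
  rw [h1, eval_X]
  rfl

/-- a bound for the values -/
theorem bd_val {g f : A} {K : ℕ} {E : A} (h : Bd (fun F => InM g (f * F)) K E) :
    ∃ c : ℝ, 0 ≤ c ∧ ∀ z : Fin 2 → ℝ, 0 ≤ eval z g → 0 < eval z f → 1 ≤ z 0 →
      |eval z E| ≤ c * z 0 ^ K := by
  obtain ⟨c, hc, h1⟩ := h
  refine ⟨2 * c + 1, by positivity, fun z hz hf hz0 => ?_⟩
  have h2 := h1.eval_nonneg z hz
  rw [map_mul] at h2
  have h3 := (mul_nonneg_iff_of_pos_left hf).1 h2
  simp only [map_sub, map_mul, map_add, map_one, map_pow, eval_C, eval_X] at h3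
  have h4 : (1 : ℝ) ≤ z 0 ^ K := one_le_pow₀ hz0
  have h5 : z 0 ^ (2 * K) = (z 0 ^ K) ^ 2 := by rw [← pow_mul, mul_comm]
  rw [h5] at h3
  have h6 : (1 : ℝ) ≤ (z 0 ^ K) ^ 2 := one_le_pow₀ h4
  apply abs_le_of_sq_le_sq _ (by positivity)
  have h7 : c * (1 + (z 0 ^ K) ^ 2) ≤ c * (2 * (z 0 ^ K) ^ 2) :=
    mul_le_mul_of_nonneg_left (by linarith) hc
  have h8 : (2 * c) * (z 0 ^ K) ^ 2 ≤ (2 * c + 1) ^ 2 * (z 0 ^ K) ^ 2 :=
    mul_le_mul_of_nonneg_right (by nlinarith) (by positivity)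
  rw [mul_pow]
  linarith

namespace Ctx

variable {g f : A} {D : Dat} (X : Ctx (fun F => InM g (f * F)) D)

/-- the exponent of the error -/
noncomputable def K' : ℕ := X.K0 + (2 * X.r + 4 * D.T.natDegree)

theorem Lam_val1 (i m : ℕ) (hi : i < 5) : ∃ c : ℝ, 0 ≤ c ∧ ∀ z : Fin 2 → ℝ, 0 ≤ eval z g →
    0 < eval z f → 1 ≤ z 0 → 1 ≤ |D.T.eval (z 0)| → ∀ U : ℝ, 1 ≤ U →
      |eval z (Ev U (X.Lam i m)) - U⁻¹ ^ m * (z 0 ^ (2 * X.k + m) *
        (eval z (Φ D.S) / D.T.eval (z 0)) ^ i)| ≤ c * z 0 ^ X.K' := by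
  choose c hc hcb using fun m' => bd_val (X.Lam_bd i m m' hi)
  set n := max ((X.Lam i m).natDegree + 1) (m + 1) with hn
  refine ⟨∑ m' ∈ Finset.range n, c m', Finset.sum_nonneg fun m' _ => hc m',
    fun z hz hf hz0 hT U hU => ?_⟩
  have hUi : U⁻¹ ≤ 1 := inv_le_one_of_one_le₀ hU
  have hUi0 : 0 ≤ U⁻¹ := by positivity
  set τ := D.T.eval (z 0) with hτ
  set s := eval z (Φ D.S) / τ with hs
  have hτ0 : τ ≠ 0 := by
    intro h0
    rw [h0, abs_zero] at hT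
    linarith
  rw [Ev_sum U _ n (by omega), map_sum]
  have h1 : U⁻¹ ^ m * (z 0 ^ (2 * X.k + m) * s ^ i) =
      ∑ m' ∈ Finset.range n, U⁻¹ ^ m' * (if m' = m then z 0 ^ (2 * X.k + m) * s ^ i else 0) := by
    rw [Finset.sum_eq_single m]
    · rw [if_pos rfl]
    · intro m' _ h
      rw [if_neg h, mul_zero]
    · intro h
      exact absurd (Finset.mem_range.2 (by omega)) h
  rw [h1, ← Finset.sum_sub_distrib, Finset.sum_mul]
  refine (Finset.abs_sum_le_sum_abs _ _).trans (Finset.sum_le_sum fun m' _ => ?_)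
  rw [map_mul, eval_C, ← mul_sub, abs_mul, abs_of_nonneg (pow_nonneg hUi0 m')]
  have h2 := hcb m' z hz hf hz0
  have h3 : eval z (Φ (Polynomial.C (D.T ^ i) * (X.Lam i m).coeff m' -
      (if m' = m then Polynomial.C (Polynomial.X ^ (2 * X.k + m)) * D.S ^ i else 0))) =
      τ ^ i * (eval z (Φ ((X.Lam i m).coeff m')) -
        (if m' = m then z 0 ^ (2 * X.k + m) * s ^ i else 0)) := by
    have hS : τ ^ i * s ^ i = eval z (Φ D.S) ^ i := by
      rw [← mul_pow, hs, mul_div_cancel₀ _ hτ0]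
    rw [map_sub, map_mul, Φ_C, map_sub, map_mul, eval_ax, Polynomial.eval_pow, ← hτ, mul_sub]
    congr 1
    split_ifs
    · rw [map_mul, Φ_C, map_pow, map_mul, eval_ax, Polynomial.eval_pow, Polynomial.eval_X,
        map_pow, ← hS]
      ring
    · rw [map_zero, map_zero, mul_zero]
  rw [h3, abs_mul, abs_pow] at h2
  have h4 : 1 ≤ |τ| ^ i := one_le_pow₀ hT
  have h5 := abs_nonneg (eval z (Φ ((X.Lam i m).coeff m')) -
        (if m' = m then z 0 ^ (2 * X.k + m) * s ^ i else 0))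
  have h6 : U⁻¹ ^ m' ≤ 1 := pow_le_one₀ hUi0 hUi
  calc U⁻¹ ^ m' * |eval z (Φ ((X.Lam i m).coeff m')) -
        (if m' = m then z 0 ^ (2 * X.k + m) * s ^ i else 0)| ≤
        1 * |eval z (Φ ((X.Lam i m).coeff m')) -
        (if m' = m then z 0 ^ (2 * X.k + m) * s ^ i else 0)| :=
        mul_le_mul_of_nonneg_right h6 h5
    _ ≤ |τ| ^ i * |eval z (Φ ((X.Lam i m).coeff m')) -
        (if m' = m then z 0 ^ (2 * X.k + m) * s ^ i else 0)| :=
        mul_le_mul_of_nonneg_right h4 h5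
    _ ≤ c m' * z 0 ^ X.K' := h2

theorem Lam_val : ∃ c : ℝ, 0 ≤ c ∧ ∀ m i, m ∈ Finset.range 5 → i ∈ Finset.range 5 →
    ∀ z : Fin 2 → ℝ, 0 ≤ eval z g →
    0 < eval z f → 1 ≤ z 0 → 1 ≤ |D.T.eval (z 0)| → ∀ U : ℝ, 1 ≤ U →
      |eval z (Ev U (X.Lam i m)) - U⁻¹ ^ m * (z 0 ^ (2 * X.k + m) *
        (eval z (Φ D.S) / D.T.eval (z 0)) ^ i)| ≤ c * z 0 ^ X.K' := by
  have h1 : ∀ p : ℕ × ℕ, ∃ c : ℝ, 0 ≤ c ∧ (p.2 < 5 → ∀ z : Fin 2 → ℝ, 0 ≤ eval z g →
    0 < eval z f → 1 ≤ z 0 → 1 ≤ |D.T.eval (z 0)| → ∀ U : ℝ, 1 ≤ U →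
      |eval z (Ev U (X.Lam p.2 p.1)) - U⁻¹ ^ p.1 * (z 0 ^ (2 * X.k + p.1) *
        (eval z (Φ D.S) / D.T.eval (z 0)) ^ p.2)| ≤ c * z 0 ^ X.K') := by
    intro p
    by_cases h : p.2 < 5
    · obtain ⟨c, hc, h2⟩ := X.Lam_val1 p.2 p.1 h
      exact ⟨c, hc, fun _ => h2⟩
    · exact ⟨0, le_rfl, fun h' => absurd h' h⟩
  choose c hc h2 using h1
  refine ⟨∑ p ∈ (Finset.range 5) ×ˢ (Finset.range 5), c p, Finset.sum_nonneg fun p _ => hc p,
    fun m i hm hi z hz hf hz0 hT U hU => ?_⟩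
  refine (h2 (m, i) (Finset.mem_range.1 hi) z hz hf hz0 hT U hU).trans ?_
  refine mul_le_mul_of_nonneg_right ?_ (by positivity)
  exact Finset.single_le_sum (f := c) (fun p _ => hc p) (Finset.mk_mem_product hm hi)

/-- sum of the absolute values of the coefficients -/
noncomputable def csum (s0 N ε : ℝ) : ℝ :=
  ∑ m ∈ Finset.range 5, ∑ i ∈ Finset.range 5, |cf s0 N ε i m|

theorem csum_nonneg (s0 N ε : ℝ) : 0 ≤ csum s0 N ε :=
  Finset.sum_nonneg fun _ _ => Finset.sum_nonneg fun _ _ => abs_nonneg _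

/-- value of the perturbed Motzkin polynomial -/
theorem cf_sum (s0 N ε s ζ : ℝ) : ∑ m ∈ Finset.range 5, ∑ i ∈ Finset.range 5,
    cf s0 N ε i m * (ζ ^ m * s ^ i) = mot (N * (s - s0)) (N * (ζ - 1)) +
      ε * (1 + (N * (ζ - 1)) ^ 2 + (N * (ζ - 1)) ^ 4) := by
  let e : P2 →+* ℝ := (Polynomial.evalRingHom s).comp (Polynomial.evalRingHom (Polynomial.C ζ))
  have eC : ∀ q : P1, e (Polynomial.C q) = q.eval s := by
    intro q; simp [e]
  have eX : e Polynomial.X = ζ := by simp [e]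
  have h1 := congrArg e (BD_expand (BD_fmot s0 N ε))
  rw [map_sum] at h1
  have h2 : ∀ m ∈ Finset.range 5, e (∑ i ∈ Finset.range 5,
      Polynomial.C (Polynomial.C (((fmot s0 N ε).coeff m).coeff i)) *
        (Polynomial.C (Polynomial.X ^ i) * Polynomial.X ^ m)) =
      ∑ i ∈ Finset.range 5, cf s0 N ε i m * (ζ ^ m * s ^ i) := by
    intro m _
    rw [map_sum]
    refine Finset.sum_congr rfl fun i _ => ?_
    have e3 : e (Polynomial.X ^ m) = ζ ^ m := by rw [RingHom.map_pow e, eX]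
    rw [RingHom.map_mul e, RingHom.map_mul e, e3, eC, eC, Polynomial.eval_C, Polynomial.eval_pow,
      Polynomial.eval_X, cf]
    ring
  rw [Finset.sum_congr rfl h2] at h1
  rw [← h1, fmot, mot]
  have hu : e (Polynomial.C (uu N s0)) = N * (s - s0) := by
    rw [eC, uu]; simp
  have hv : e (vv N) = N * (ζ - 1) := by
    rw [vv, map_mul, map_sub, map_one, eX, eC, Polynomial.eval_C]
  have hε : e (Polynomial.C (Polynomial.C ε)) = ε := by rw [eC, Polynomial.eval_C]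
  simp only [map_add, map_sub, map_mul, map_pow, map_one, map_ofNat, hu, hv, hε, mot]

theorem QQ_val : ∃ c : ℝ, 0 ≤ c ∧ ∀ s0 N ε : ℝ, ∀ z : Fin 2 → ℝ, 0 ≤ eval z g →
    0 < eval z f → 1 ≤ z 0 → 1 ≤ |D.T.eval (z 0)| → ∀ U : ℝ, 1 ≤ U →
      |eval z (Ev U (X.QQ s0 N ε)) - z 0 ^ (2 * X.k) *
        (mot (N * (eval z (Φ D.S) / D.T.eval (z 0) - s0)) (N * (z 0 / U - 1)) +
          ε * (1 + (N * (z 0 / U - 1)) ^ 2 + (N * (z 0 / U - 1)) ^ 4))| ≤
        c * csum s0 N ε * z 0 ^ X.K' := by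
  obtain ⟨c, hc, h⟩ := X.Lam_val
  refine ⟨c, hc, fun s0 N ε z hz hf hz0 hT U hU => ?_⟩
  rw [← cf_sum, X.Ev_QQ, map_sum, Finset.mul_sum, ← Finset.sum_sub_distrib, csum, Finset.mul_sum,
    Finset.sum_mul]
  refine (Finset.abs_sum_le_sum_abs _ _).trans (Finset.sum_le_sum fun m hm => ?_)
  rw [map_sum, Finset.mul_sum, ← Finset.sum_sub_distrib, Finset.mul_sum, Finset.sum_mul]
  refine (Finset.abs_sum_le_sum_abs _ _).trans (Finset.sum_le_sum fun i hi => ?_)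
  have h1 := h m i hm hi z hz hf hz0 hT U hU
  have h2 : eval z (C (cf s0 N ε i m) * Ev U (X.Lam i m)) -
      z 0 ^ (2 * X.k) * (cf s0 N ε i m * ((z 0 / U) ^ m *
        (eval z (Φ D.S) / D.T.eval (z 0)) ^ i)) =
      cf s0 N ε i m * (eval z (Ev U (X.Lam i m)) - U⁻¹ ^ m * (z 0 ^ (2 * X.k + m) *
        (eval z (Φ D.S) / D.T.eval (z 0)) ^ i)) := by
    rw [map_mul, eval_C, div_eq_mul_inv (z 0) U, mul_pow, pow_add]
    ring
  rw [h2, abs_mul]
  calc |cf s0 N ε i m| * _ ≤ |cf s0 N ε i m| * (c * z 0 ^ X.K') :=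
        mul_le_mul_of_nonneg_left h1 (abs_nonneg _)
    _ = c * |cf s0 N ε i m| * z 0 ^ X.K' := by ring

end Ctx

end Pool.Agent.Helper10.TI
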