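import Pool.Agent.Helper10.TI.Val

set_option autoImplicit false

/-!
# MP_63c74b: zooming
-/

open MvPolynomial Pool.Agent.Helper68.QM Filter Topology

namespace Pool.Agent.Helper10.TI

theorem tendsto_inv_nat (w : ℝ) : Tendsto (fun n : ℕ => w / ((n : ℝ) + 1)) atTop (𝓝 0) := by
  have h1 := (tendsto_one_div_add_atTop_nhds_zero_nat (𝕜 := ℝ)).const_mul w
  rw [mul_zero] at h1
  refine h1.congr fun n => ?_
  ring

/-- difference quotients of a univariate polynomial -/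
theorem diff_quot (q : P1) (a w : ℝ) :
    Tendsto (fun n : ℕ => ((n : ℝ) + 1) * (q.eval (a + w / ((n : ℝ) + 1)) - q.eval a)) atTop
      (𝓝 (q.derivative.eval a * w)) := by
  by_cases hw : w = 0
  · subst hw
    simp
  · have h1 := (q.hasDerivAt a).tendsto_slope_zero
    have h2 : Tendsto (fun n : ℕ => w / ((n : ℝ) + 1)) atTop (𝓝[≠] 0) := by
      rw [tendsto_nhdsWithin_iff]
      refine ⟨tendsto_inv_nat w, Filter.Eventually.of_forall fun n => ?_⟩
      have hn : (0 : ℝ) < (n : ℝ) + 1 := by positivity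
      exact div_ne_zero hw hn.ne'
    have h3 := (h1.comp h2).mul_const w
    refine h3.congr fun n => ?_
    have hn : (0 : ℝ) < (n : ℝ) + 1 := by positivity
    simp only [Function.comp_apply, smul_eq_mul]
    field_simp

theorem eval_aeval' (φ : Fin 2 → A) (w : Fin 2 → ℝ) (P : A) :
    eval w (aeval φ P) = eval (fun i => eval w (φ i)) P := by
  induction P using MvPolynomial.induction_on with
  | C c => rw [aeval_C, eval_C]; exact eval_C _
  | add p q hp hq => rw [map_add, map_add, map_add, hp, hq]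
  | mul_X p i hp => rw [map_mul, map_mul, map_mul, hp, aeval_X, eval_X]

/-- the parameters of the zoom -/
noncomputable def zt (e : ℕ) (w : Fin 2 → ℝ) (n : ℕ) : ℝ := 1 + w 1 / e / ((n : ℝ) + 1)

/-- the parameters of the zoom -/
noncomputable def sg (σ1 δ : ℝ) (w : Fin 2 → ℝ) (n : ℕ) : ℝ := σ1 + w 0 / δ / ((n : ℝ) + 1)

theorem tendsto_zt (e : ℕ) (w : Fin 2 → ℝ) : Tendsto (zt e w) atTop (𝓝 1) := by
  have h1 := (tendsto_const_nhds (x := (1 : ℝ))).add (tendsto_inv_nat (w 1 / e))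
  rw [add_zero] at h1
  exact h1

theorem tendsto_sg (σ1 δ : ℝ) (w : Fin 2 → ℝ) : Tendsto (sg σ1 δ w) atTop (𝓝 σ1) := by
  have h1 := (tendsto_const_nhds (x := σ1)).add (tendsto_inv_nat (w 0 / δ))
  rw [add_zero] at h1
  exact h1

theorem zt_pow (e : ℕ) (he : 0 < e) (w : Fin 2 → ℝ) :
    Tendsto (fun n : ℕ => ((n : ℝ) + 1) * (zt e w n ^ e - 1)) atTop (𝓝 (w 1)) := by
  have h1 := diff_quot (Polynomial.X ^ e) 1 (w 1 / e)
  have he' : (e : ℝ) ≠ 0 := by positivity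
  have h2 : (Polynomial.derivative (Polynomial.X ^ e : P1)).eval 1 * (w 1 / e) = w 1 := by
    rw [Polynomial.derivative_X_pow]
    simp
    field_simp
  rw [h2] at h1
  refine h1.congr fun n => ?_
  simp [zt]

theorem sg_q (q : P1) (σ1 : ℝ) (hq : q.derivative.eval σ1 ≠ 0) (w : Fin 2 → ℝ) :
    Tendsto (fun n : ℕ => ((n : ℝ) + 1) * (q.eval (sg σ1 (q.derivative.eval σ1) w n) - q.eval σ1))
      atTop (𝓝 (w 0)) := by
  have h1 := diff_quot q σ1 (w 0 / q.derivative.eval σ1)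
  have h2 : q.derivative.eval σ1 * (w 0 / q.derivative.eval σ1) = w 0 := by
    field_simp
  rw [h2] at h1
  exact h1

theorem tendsto_mot {u v : ℕ → ℝ} {u0 v0 : ℝ} (hu : Tendsto u atTop (𝓝 u0))
    (hv : Tendsto v atTop (𝓝 v0)) :
    Tendsto (fun n => mot (u n) (v n)) atTop (𝓝 (mot u0 v0)) := by
  unfold mot
  exact ((tendsto_const_nhds.sub ((hu.pow 2).const_mul 3 |>.mul (hv.pow 2))).add
    ((hu.pow 4).mul (hv.pow 2))).add ((hu.pow 2).mul (hv.pow 4))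

namespace Ctx

variable {g f : A} {D : Dat} (X : Ctx (fun F => InM g (f * F)) D)

/-- the polynomials with bounded degree -/
noncomputable def PP (s0 : ℝ) (U : ℕ → ℝ) (n : ℕ) : A :=
  Ev (U n) (X.QQ s0 ((n : ℝ) + 1) (1 / ((n : ℝ) + 1))) + Dat.Wt X.k (U n) (1 / ((n : ℝ) + 1))

/-- the radii -/
theorem exists_V (s0 : ℝ) : ∃ V : ℕ → ℝ, (∀ n, 1 ≤ V n) ∧ (∀ n : ℕ, ((n : ℝ) + 1) ^ 2 ≤ V n) ∧
    (∀ n : ℕ, ((n : ℝ) + 1) * csum s0 ((n : ℝ) + 1) (1 / ((n : ℝ) + 1)) ≤ V n) ∧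
    ∀ (U : ℕ → ℝ), (∀ n, V n ≤ U n) → ∀ n, InM g (f * X.PP s0 U n) := by
  choose U0 hU0 hU using fun n : ℕ => X.QQ_pos s0 ((n : ℝ) + 1) (1 / ((n : ℝ) + 1)) (by positivity)
    (1 / ((n : ℝ) + 1)) (by positivity)
  have hc : ∀ n : ℕ, 0 ≤ ((n : ℝ) + 1) * csum s0 ((n : ℝ) + 1) (1 / ((n : ℝ) + 1)) := fun n =>
    mul_nonneg (by positivity) (csum_nonneg _ _ _)
  refine ⟨fun n => U0 n + ((n : ℝ) + 1) * csum s0 ((n : ℝ) + 1) (1 / ((n : ℝ) + 1)) +
    ((n : ℝ) + 1) ^ 2, fun n => ?_, fun n => ?_, fun n => ?_, fun U h n => ?_⟩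
  · have := hU0 n
    have := hc n
    have h3 : 0 ≤ ((n : ℝ) + 1) ^ 2 := by positivity
    linarith
  · have := hU0 n
    have := hc n
    linarith
  · have := hU0 n
    have h3 : 0 ≤ ((n : ℝ) + 1) ^ 2 := by positivity
    linarith
  · refine hU n (U n) ?_
    have := h n
    have := hc n
    have h3 : 0 ≤ ((n : ℝ) + 1) ^ 2 := by positivity
    linarith

theorem Wt_deg (k : ℕ) (U η : ℝ) : (Dat.Wt k U η).totalDegree ≤ 2 * k := by
  rw [Dat.Wt]
  refine (totalDegree_mul _ _).trans ?_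
  rw [totalDegree_C, zero_add]
  refine (totalDegree_add _ _).trans (max_le ?_ ?_)
  · rw [totalDegree_C]; omega
  · rw [totalDegree_X_pow]

theorem PP_deg : ∃ d : ℕ, ∀ (s0 : ℝ) (U : ℕ → ℝ) (n : ℕ), (X.PP s0 U n).totalDegree ≤ d := by
  obtain ⟨d, hd⟩ := X.QQ_deg
  refine ⟨max d (2 * X.k), fun s0 U n => ?_⟩
  exact (totalDegree_add _ _).trans (max_le_max (hd _ _ _ _) (Wt_deg _ _ _))

end Ctx

end Pool.Agent.Helper10.TI
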